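import Pool.Agent.Y693.RF.Und

/-!
# The number of the bad primes
-/

set_option autoImplicit false

open Finset NumberField IsDedekindDomain Polynomial
open Pool.Agent.H921R2.TatePole (nm two_le_nm below deg nm_eq nm_summable fiber_card_le
  summable_primes_rpow card_above)
open Pool.Agent.Y770.EP (finite_quot card_quot FN mem_FN GG mem_GG FP mem_FP card_FP nm_mem)

namespace Pool.Agent.Y693.RF

section one
variable {M : Type} [Field M] [NumberField M]

lemma prod_dvd {d : 𝓞 M} (S : Finset (HeightOneSpectrum (𝓞 M))) (hS : ∀ v ∈ S, d ∈ v.asIdeal) :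
    (∏ v ∈ S, v.asIdeal) ∣ Ideal.span {d} := by
  refine Finset.prod_dvd_of_isRelPrime ?_ ?_
  · intro v _ u _ hvu
    rw [Function.onFun]
    have hne : v.asIdeal ≠ u.asIdeal := fun h => hvu (HeightOneSpectrum.ext h)
    have h1 : IsCoprime v.asIdeal u.asIdeal := by
      rw [Ideal.isCoprime_iff_sup_eq]
      exact (v.isPrime.isMaximal v.ne_bot).coprime_of_ne (u.isPrime.isMaximal u.ne_bot) hne
    exact h1.isRelPrime
  · intro v hv
    rw [Ideal.dvd_iff_le, Ideal.span_singleton_le_iff_mem]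
    exact hS v hv

/-- the number of large primes dividing `d` -/
theorem card_bad {d : 𝓞 M} (hd : d ≠ 0) {R : ℝ} (hR : (|Algebra.norm ℚ (d : M)| : ℚ) ≤ R) {y : ℕ}
    (hy : 3 ≤ y) (S : Finset (HeightOneSpectrum (𝓞 M)))
    (hS : ∀ v ∈ S, d ∈ v.asIdeal ∧ y < nm v) : (S.card : ℝ) ≤ Real.log R := by
  have h1 := map_dvd Ideal.absNorm (prod_dvd S fun v hv => (hS v hv).1)
  rw [map_prod] at h1
  have h2 : Ideal.absNorm (Ideal.span {d}) ≠ 0 := by
    rw [Ne, Ideal.absNorm_eq_zero_iff, Ideal.span_singleton_eq_bot]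
    exact hd
  have h3 := Nat.le_of_dvd (Nat.pos_of_ne_zero h2) h1
  have h4 : 3 ^ S.card ≤ ∏ v ∈ S, Ideal.absNorm v.asIdeal := by
    rw [← Finset.prod_const]
    refine Finset.prod_le_prod' fun v hv => ?_
    have := (hS v hv).2
    unfold Pool.Agent.H921R2.TatePole.nm at this
    omega
  have h5 : ((Ideal.absNorm (Ideal.span {d}) : ℕ) : ℝ) = ((|Algebra.norm ℚ (d : M)| : ℚ) : ℝ) := by
    rw [Ideal.absNorm_span_singleton, ← Algebra.coe_norm_int]
    push_cast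
    rw [Nat.cast_natAbs]
    push_cast
    rfl
  have h6 : ((3 : ℝ)) ^ S.card ≤ R := by
    refine le_trans ?_ hR
    rw [← h5]
    exact_mod_cast h4.trans h3
  have h7 : Real.log ((3 : ℝ) ^ S.card) ≤ Real.log R := Real.log_le_log (by positivity) h6
  rw [Real.log_pow] at h7
  have h8 : 1 ≤ Real.log 3 := by
    rw [Real.le_log_iff_exp_le (by norm_num)]
    exact Real.exp_one_lt_d9.le.trans (by norm_num)
  have h9 : (0 : ℝ) ≤ S.card := Nat.cast_nonneg _
  nlinarith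

/-- the norm -/
lemma norm_le {x : M} {R : ℝ} (hx : ∀ σ : M →+* ℂ, ‖σ x‖ ≤ R) :
    ((|Algebra.norm ℚ x| : ℚ) : ℝ) ≤ R ^ Module.finrank ℚ M := by
  classical
  have h1 := congrArg norm (Algebra.norm_eq_prod_embeddings ℚ ℂ x)
  rw [norm_prod, eq_ratCast, Complex.norm_ratCast] at h1
  push_cast
  rw [h1]
  calc ∏ τ : M →ₐ[ℚ] ℂ, ‖τ x‖ ≤ ∏ τ : M →ₐ[ℚ] ℂ, R :=
        Finset.prod_le_prod (fun τ _ => norm_nonneg _) fun τ _ => hx τ.toRingHom
    _ = R ^ Module.finrank ℚ M := by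
        rw [Finset.prod_const, card_univ, AlgHom.card]

end one

variable {F : Type} [Field F] [NumberField F] {L : Type} [Field L] [NumberField L] [Algebra F L]

/-- the composite embedding -/
noncomputable def cmp (σ : L →+* ℂ) : 𝓞 F →+* ℂ :=
  (σ.comp (algebraMap (𝓞 L) L)).comp (algebraMap (𝓞 F) (𝓞 L))

omit [NumberField F] [NumberField L] in
lemma cmp_le {f : (𝓞 F)[X]} {H : ℝ} (hc : ∀ i, ∀ σ : F →+* ℂ, ‖σ (f.coeff i : F)‖ ≤ H) (σ : L →+* ℂ)
    (i : ℕ) : ‖cmp (F := F) σ (f.coeff i)‖ ≤ H := hc i (σ.comp (algebraMap F L))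

omit [NumberField F] [NumberField L] in
lemma eval_cmp (σ : L →+* ℂ) (f : (𝓞 F)[X]) (θ : 𝓞 L) :
    σ ((aeval θ f : 𝓞 L) : L) = f.eval₂ (cmp (F := F) σ) (σ (θ : L)) := by
  have := Polynomial.hom_eval₂ f (algebraMap (𝓞 F) (𝓞 L)) (σ.comp (algebraMap (𝓞 L) L)) θ
  exact this

/-- the conjugates of the root -/
lemma root_le {f : (𝓞 F)[X]} (hf : f.Monic) {θ : 𝓞 L} (hr : aeval θ f = 0) {H : ℝ} (hH : 1 ≤ H)
    (hc : ∀ i, ∀ σ : F →+* ℂ, ‖σ (f.coeff i : F)‖ ≤ H) (σ : L →+* ℂ) :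
    ‖σ (θ : L)‖ ≤ (f.natDegree + 1) * H := by
  have hR : (1 : ℝ) ≤ (f.natDegree + 1) * H := by
    have : (0 : ℝ) ≤ f.natDegree := Nat.cast_nonneg _
    nlinarith
  by_cases h1 : ‖σ (θ : L)‖ ≤ 1
  · exact h1.trans hR
  push Not at h1
  obtain ⟨z, hz⟩ : ∃ z : ℂ, z = σ (θ : L) := ⟨_, rfl⟩
  rw [← hz] at h1 ⊢
  have hsum : z ^ f.natDegree = -∑ i ∈ range f.natDegree,
      cmp (F := F) σ (f.coeff i) * z ^ i := by
    have h2 := eval_cmp (F := F) σ f θ
    rw [hr, ← hz, eval₂_eq_sum_range, Finset.sum_range_succ, hf.coeff_natDegree, map_one, one_mul] at h2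
    have h4 : σ ((0 : 𝓞 L) : L) = 0 := map_zero (σ.comp (algebraMap (𝓞 L) L))
    rw [h4] at h2
    linear_combination -h2
  by_cases hn : f.natDegree = 0
  · rw [hn, pow_zero] at hsum
    simp at hsum
  obtain ⟨m, hm⟩ : ∃ m, f.natDegree = m + 1 := ⟨f.natDegree - 1, by omega⟩
  have h5 : ‖z‖ ^ f.natDegree ≤ f.natDegree * (H * ‖z‖ ^ m) := by
    rw [← norm_pow, hsum, norm_neg]
    refine (norm_sum_le _ _).trans ?_
    refine (Finset.sum_le_card_nsmul _ _ (H * ‖z‖ ^ m) fun i hi => ?_).trans ?_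
    · rw [norm_mul, norm_pow]
      refine mul_le_mul (cmp_le hc σ i) ?_ (by positivity) (by linarith)
      refine pow_le_pow_right₀ h1.le ?_
      have := mem_range.1 hi
      omega
    · rw [card_range, nsmul_eq_mul]
  rw [hm, pow_succ, ← hm] at h5
  have h6 : 0 < ‖z‖ ^ m := by positivity
  have h7 : ‖z‖ ≤ f.natDegree * H := by
    by_contra hcon
    push Not at hcon
    nlinarith
  have h8 : (f.natDegree : ℝ) * H ≤ (f.natDegree + 1) * H := by nlinarith
  exact h7.trans h8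

/-- the conjugates of the value of the derivative -/
lemma deriv_le {f : (𝓞 F)[X]} (hf : f.Monic) {θ : 𝓞 L} (hr : aeval θ f = 0) {H : ℝ} (hH : 1 ≤ H)
    (hc : ∀ i, ∀ σ : F →+* ℂ, ‖σ (f.coeff i : F)‖ ≤ H) (σ : L →+* ℂ) :
    ‖σ ((aeval θ (derivative f) : 𝓞 L) : L)‖ ≤ ((f.natDegree + 1) * H) ^ (f.natDegree + 2) := by
  obtain ⟨R, hRd⟩ : ∃ R : ℝ, R = (f.natDegree + 1) * H := ⟨_, rfl⟩
  have hn0 : (0 : ℝ) ≤ f.natDegree := Nat.cast_nonneg _
  have hR : 1 ≤ R := by rw [hRd]; nlinarith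
  have hRn : (f.natDegree : ℝ) + 1 ≤ R := by rw [hRd]; nlinarith
  have hroot := root_le hf hr hH hc σ
  rw [← hRd] at hroot ⊢
  have hdeg : (derivative f).natDegree ≤ f.natDegree :=
    (natDegree_derivative_le f).trans (Nat.sub_le _ _)
  have h1 : σ ((aeval θ (derivative f) : 𝓞 L) : L) =
      ∑ i ∈ range ((derivative f).natDegree + 1),
        cmp (F := F) σ (f.coeff (i + 1)) * (i + 1) * σ (θ : L) ^ i := by
    rw [eval_cmp (F := F), eval₂_eq_sum_range]
    refine Finset.sum_congr rfl fun i _ => ?_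
    rw [coeff_derivative, map_mul, map_add, map_one, map_natCast]
  rw [h1]
  refine (norm_sum_le _ _).trans ?_
  refine (Finset.sum_le_card_nsmul _ _ (R * R ^ f.natDegree) fun i hi => ?_).trans ?_
  · have hi' : i ≤ f.natDegree := by
      have := mem_range.1 hi
      omega
    rw [norm_mul, norm_mul, norm_pow]
    by_cases hcase : i = f.natDegree
    · have : f.coeff (i + 1) = 0 := coeff_eq_zero_of_natDegree_lt (by omega)
      rw [this]
      simp only [map_zero, norm_zero, zero_mul]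
      positivity
    · have h4 : ‖((i : ℂ) + 1)‖ ≤ f.natDegree + 1 := by
        have : ((i : ℂ) + 1) = ((i + 1 : ℕ) : ℂ) := by push_cast; ring
        rw [this, Complex.norm_natCast]
        push_cast
        have : (i : ℝ) ≤ f.natDegree := by exact_mod_cast hi'
        linarith
      have h5 : ‖cmp (F := F) σ (f.coeff (i + 1))‖ ≤ H := cmp_le hc σ (i + 1)
      have h6 : ‖cmp (F := F) σ (f.coeff (i + 1))‖ * ‖((i : ℂ) + 1)‖ ≤ R := by
        rw [hRd, mul_comm _ H]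
        exact mul_le_mul h5 h4 (norm_nonneg _) (by linarith)
      have h7 : ‖σ (θ : L)‖ ^ i ≤ R ^ f.natDegree :=
        (pow_le_pow_left₀ (norm_nonneg _) hroot i).trans (pow_le_pow_right₀ hR hi')
      exact mul_le_mul h6 h7 (by positivity) (by linarith)
  · rw [card_range, nsmul_eq_mul]
    push_cast
    have h8 : ((derivative f).natDegree : ℝ) + 1 ≤ R := by
      have : ((derivative f).natDegree : ℝ) ≤ f.natDegree := by exact_mod_cast hdeg
      linarith
    calc (((derivative f).natDegree : ℝ) + 1) * (R * R ^ f.natDegree)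
        ≤ R * (R * R ^ f.natDegree) := mul_le_mul_of_nonneg_right h8 (by positivity)
      _ = R ^ (f.natDegree + 2) := by ring

/-- **The discriminant of a generator and its prime factors.** -/
theorem Gen.bad {f : (𝓞 F)[X]} (hf : f.Monic) {θ : 𝓞 L} (h : Gen f θ) {H : ℝ} (hH : 1 ≤ H)
    (hc : ∀ i, ∀ σ : F →+* ℂ, ‖σ (f.coeff i : F)‖ ≤ H) :
    ∃ d : 𝓞 F, (∀ β : 𝓞 L, ∃ P : (𝓞 F)[X], aeval θ P = algebraMap (𝓞 F) (𝓞 L) d * β) ∧
      ∀ y : ℕ, 3 ≤ y → ∀ S : Finset (HeightOneSpectrum (𝓞 F)),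
        (∀ v ∈ S, d ∈ v.asIdeal ∧ y < nm v) →
        (S.card : ℝ) ≤ Module.finrank ℚ L * (f.natDegree + 2) * Real.log ((f.natDegree + 1) * H) := by
  obtain ⟨d, hd0, hd, hdn⟩ := h.discr hf
  refine ⟨d, hd, fun y hy S hS => ?_⟩
  have h1 := norm_le (M := L) (x := ((aeval θ (derivative f) : 𝓞 L) : L)) (deriv_le hf h.root hH hc)
  rw [← hdn] at h1
  have h2 := card_bad hd0 h1 hy S hS
  refine h2.trans (le_of_eq ?_)
  rw [Real.log_pow, Real.log_pow]
  push_cast
  ring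

end Pool.Agent.Y693.RF
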