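import Pool.Agent.Y693.RF.Sysm

/-!
# Sums over the primes of an extension and of the base field
-/

set_option autoImplicit false

open Finset NumberField IsDedekindDomain Polynomial
open Pool.Agent.H921R2.TatePole (nm two_le_nm below deg nm_eq nm_summable fiber_card_le
  summable_primes_rpow card_above below_le_nm)
open Pool.Agent.Y770.EP (finite_quot card_quot FN mem_FN GG mem_GG FP mem_FP card_FP nm_mem Sys SP
  PR mem_PR nm_pos')

namespace Pool.Agent.Y693.RF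

section one
variable {M : Type} [Field M] [NumberField M]

/-- sums over primes by the rational primes below -/
lemma sum_below (S : Finset (HeightOneSpectrum (𝓞 M))) {g : HeightOneSpectrum (𝓞 M) → ℝ}
    {h : Nat.Primes → ℝ} (h0 : ∀ p, 0 ≤ h p) (hs : Summable h) (hg : ∀ w ∈ S, g w ≤ h (below w)) :
    ∑ w ∈ S, g w ≤ Module.finrank ℚ M * ∑' p, h p := by
  classical
  calc ∑ w ∈ S, g w ≤ ∑ w ∈ S, h (below w) := Finset.sum_le_sum hg
    _ = ∑ p ∈ S.image below, ∑ w ∈ S.filter (fun w => below w = p), h (below w) :=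
        (Finset.sum_fiberwise_of_maps_to (fun w hw => mem_image_of_mem _ hw) _).symm
    _ ≤ ∑ p ∈ S.image below, Module.finrank ℚ M * h p := by
        refine Finset.sum_le_sum fun p _ => ?_
        have h1 : ∑ w ∈ S.filter (fun w => below w = p), h (below w) =
            (S.filter (fun w => below w = p)).card * h p := by
          rw [Finset.sum_congr rfl fun w hw => by rw [(mem_filter.1 hw).2], Finset.sum_const,
            nsmul_eq_mul]
        rw [h1]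
        refine mul_le_mul_of_nonneg_right ?_ (h0 p)
        exact_mod_cast card_above p _ fun v hv => (mem_filter.1 hv).2
    _ = Module.finrank ℚ M * ∑ p ∈ S.image below, h p := by rw [Finset.mul_sum]
    _ ≤ Module.finrank ℚ M * ∑' p, h p :=
        mul_le_mul_of_nonneg_left (hs.sum_le_tsum _ fun p _ => h0 p) (Nat.cast_nonneg _)

lemma below_pos (w : HeightOneSpectrum (𝓞 M)) : (1 : ℝ) ≤ ((below w : ℕ) : ℝ) := by
  exact_mod_cast (below w).prop.one_lt.le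

lemma pow_one_le {a : ℝ} (ha : 0 ≤ a) (w : HeightOneSpectrum (𝓞 M)) :
    (nm w : ℝ) ^ (-a) ≤ ((below w : ℕ) : ℝ) ^ (-a) := by
  refine Real.rpow_le_rpow_of_nonpos (by linarith [below_pos w]) ?_ (by linarith)
  exact_mod_cast below_le_nm w

lemma pow_two_le {a : ℝ} (ha : 0 ≤ a) {w : HeightOneSpectrum (𝓞 M)} (hw : ¬ (nm w).Prime) :
    (nm w : ℝ) ^ (-a) ≤ ((below w : ℕ) : ℝ) ^ (-(2 * a)) := by
  obtain ⟨h1, h2, _⟩ := nm_eq w
  have hd2 : 2 ≤ deg w := by
    by_contra hlt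
    have h3 : deg w = 1 := by omega
    apply hw
    rw [h1, h3, pow_one]
    exact (below w).prop
  rw [h1]
  push_cast
  rw [← Real.rpow_natCast, ← Real.rpow_mul (by linarith [below_pos w])]
  refine Real.rpow_le_rpow_of_exponent_le (below_pos w) ?_
  have hd2' : (2 : ℝ) ≤ (deg w : ℝ) := by exact_mod_cast hd2
  nlinarith

/-- the constant -/
noncomputable def PS (δ : ℝ) : ℝ := ∑' p : Nat.Primes, ((p : ℕ) : ℝ) ^ (-(1 + δ))

lemma PS_nonneg (δ : ℝ) : 0 ≤ PS δ := tsum_nonneg fun p => by positivity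

lemma norm_cpow (w : HeightOneSpectrum (𝓞 M)) (z : ℂ) : ‖(nm w : ℂ) ^ (-z)‖ = (nm w : ℝ) ^ (-z.re) := by
  rw [Complex.norm_natCast_cpow_of_pos (by have := two_le_nm w; omega), Complex.neg_re]

lemma nm_one (w : HeightOneSpectrum (𝓞 M)) : (1 : ℝ) ≤ nm w := by
  have := two_le_nm w
  exact_mod_cast (by omega : 1 ≤ nm w)

/-- sums of powers over large primes -/
lemma sum_pow_large {a δ κ : ℝ} (hδ : 0 < δ) (hκ : 0 ≤ κ) (ha : 1 + δ + κ ≤ a) {y : ℕ} (hy : 1 ≤ y)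
    (S : Finset (HeightOneSpectrum (𝓞 M))) (hS : ∀ w ∈ S, y < nm w) :
    ∑ w ∈ S, (nm w : ℝ) ^ (-a) ≤ (Module.finrank ℚ M * PS δ) * (y : ℝ) ^ (-κ) := by
  have hy0 : (0 : ℝ) < y := by exact_mod_cast hy
  have h1 : ∀ w ∈ S, (nm w : ℝ) ^ (-a) ≤ (y : ℝ) ^ (-κ) * (nm w : ℝ) ^ (-(1 + δ)) := by
    intro w hw
    calc (nm w : ℝ) ^ (-a) ≤ (nm w : ℝ) ^ (-κ + -(1 + δ)) :=
          Real.rpow_le_rpow_of_exponent_le (nm_one w) (by linarith)
      _ = (nm w : ℝ) ^ (-κ) * (nm w : ℝ) ^ (-(1 + δ)) := Real.rpow_add (nm_pos' w) _ _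
      _ ≤ (y : ℝ) ^ (-κ) * (nm w : ℝ) ^ (-(1 + δ)) := by
          refine mul_le_mul_of_nonneg_right ?_ (by positivity)
          exact Real.rpow_le_rpow_of_nonpos hy0 (by exact_mod_cast (hS w hw).le) (by linarith)
  refine (Finset.sum_le_sum h1).trans ?_
  rw [← Finset.mul_sum, mul_comm]
  refine mul_le_mul_of_nonneg_right ?_ (by positivity)
  exact sum_below S (h := fun p => ((p : ℕ) : ℝ) ^ (-(1 + δ))) (fun p => by positivity)
    (summable_primes_rpow (by linarith)) fun w _ => pow_one_le (by linarith) w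

/-- sums of powers over large primes of higher degree -/
lemma sum_pow_deg {a δ κ : ℝ} (hδ : 0 < δ) (hκ : 0 ≤ κ) (ha : (1 + δ) / 2 + κ ≤ a) {y : ℕ} (hy : 1 ≤ y)
    (S : Finset (HeightOneSpectrum (𝓞 M))) (hS : ∀ w ∈ S, y < nm w ∧ ¬ (nm w).Prime) :
    ∑ w ∈ S, (nm w : ℝ) ^ (-a) ≤ (Module.finrank ℚ M * PS δ) * (y : ℝ) ^ (-κ) := by
  have hy0 : (0 : ℝ) < y := by exact_mod_cast hy
  have h1 : ∀ w ∈ S, (nm w : ℝ) ^ (-a) ≤ (y : ℝ) ^ (-κ) * (nm w : ℝ) ^ (-((1 + δ) / 2)) := by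
    intro w hw
    calc (nm w : ℝ) ^ (-a) ≤ (nm w : ℝ) ^ (-κ + -((1 + δ) / 2)) :=
          Real.rpow_le_rpow_of_exponent_le (nm_one w) (by linarith)
      _ = (nm w : ℝ) ^ (-κ) * (nm w : ℝ) ^ (-((1 + δ) / 2)) := Real.rpow_add (nm_pos' w) _ _
      _ ≤ (y : ℝ) ^ (-κ) * (nm w : ℝ) ^ (-((1 + δ) / 2)) := by
          refine mul_le_mul_of_nonneg_right ?_ (by positivity)
          exact Real.rpow_le_rpow_of_nonpos hy0 (by exact_mod_cast (hS w hw).1.le) (by linarith)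
  refine (Finset.sum_le_sum h1).trans ?_
  rw [← Finset.mul_sum, mul_comm]
  refine mul_le_mul_of_nonneg_right ?_ (by positivity)
  refine sum_below S (h := fun p => ((p : ℕ) : ℝ) ^ (-(1 + δ))) (fun p => by positivity)
    (summable_primes_rpow (by linarith)) fun w hw => ?_
  have := pow_two_le (a := (1 + δ) / 2) (by positivity) (hS w hw).2
  rwa [mul_div_cancel₀ _ (two_ne_zero)] at this

open Classical in
/-- **The second order terms.** -/
theorem second {C₀ δ : ℝ} (hC : 0 ≤ C₀) (hδ : 0 < δ) {z : ℂ} (hz : 1 / 2 + δ ≤ z.re)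
    {τ ℓ : HeightOneSpectrum (𝓞 M) → ℂ} (hτ : ∀ w, ‖τ w‖ ≤ C₀) {y : ℕ} (x : ℕ) (hy : 1 ≤ y)
    (hℓ : ∀ w, y < nm w → ‖ℓ w - τ w * (nm w : ℂ) ^ (-z)‖ ≤ C₀ * (nm w : ℝ) ^ (-(2 * z.re))) :
    ‖(∑ w ∈ GG M y x, ℓ w) - ∑ w ∈ (GG M y x).filter (fun w => (nm w).Prime),
      τ w * (nm w : ℂ) ^ (-z)‖ ≤ 2 * C₀ * (Module.finrank ℚ M * PS δ) * (y : ℝ) ^ (-(δ / 2)) := by
  have h1 : (∑ w ∈ GG M y x, ℓ w) - ∑ w ∈ (GG M y x).filter (fun w => (nm w).Prime),
      τ w * (nm w : ℂ) ^ (-z) = (∑ w ∈ GG M y x, (ℓ w - τ w * (nm w : ℂ) ^ (-z))) +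
      ∑ w ∈ (GG M y x).filter (fun w => ¬ (nm w).Prime), τ w * (nm w : ℂ) ^ (-z) := by
    rw [Finset.sum_sub_distrib, ← Finset.sum_filter_add_sum_filter_not (GG M y x)
      (fun w => (nm w).Prime) (fun w => τ w * (nm w : ℂ) ^ (-z))]
    ring
  have h2 : ‖∑ w ∈ GG M y x, (ℓ w - τ w * (nm w : ℂ) ^ (-z))‖ ≤
      C₀ * ((Module.finrank ℚ M * PS δ) * (y : ℝ) ^ (-(δ / 2))) := by
    refine (norm_sum_le _ _).trans ?_
    refine (Finset.sum_le_sum fun w hw => hℓ w (mem_GG.1 hw).1).trans ?_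
    rw [← Finset.mul_sum]
    refine mul_le_mul_of_nonneg_left ?_ hC
    exact sum_pow_large hδ (by positivity) (by linarith) hy _ fun w hw => (mem_GG.1 hw).1
  have h3 : ‖∑ w ∈ (GG M y x).filter (fun w => ¬ (nm w).Prime), τ w * (nm w : ℂ) ^ (-z)‖ ≤
      C₀ * ((Module.finrank ℚ M * PS δ) * (y : ℝ) ^ (-(δ / 2))) := by
    refine (norm_sum_le _ _).trans ?_
    refine (Finset.sum_le_sum (g := fun w => C₀ * (nm w : ℝ) ^ (-z.re)) fun w hw => ?_).trans ?_
    · rw [norm_mul, norm_cpow]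
      exact mul_le_mul_of_nonneg_right (hτ w) (by positivity)
    · rw [← Finset.mul_sum]
      refine mul_le_mul_of_nonneg_left ?_ hC
      refine sum_pow_deg hδ (by positivity) (by linarith) hy _ fun w hw => ?_
      rw [mem_filter, mem_GG] at hw
      exact ⟨hw.1.1, hw.2⟩
  rw [h1]
  refine (norm_add_le _ _).trans ?_
  linarith

end one

variable {F : Type} [Field F] [NumberField F] {L : Type} [Field L] [NumberField L] [Algebra F L]

open Classical in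
lemma sum_L (τ : HeightOneSpectrum (𝓞 L) → ℂ) (z : ℂ) (y x : ℕ) :
    ∑ w ∈ (GG L y x).filter (fun w => (nm w).Prime), τ w * (nm w : ℂ) ^ (-z) =
      ∑ v ∈ (GG F y x).filter (fun v => (nm v).Prime),
        (∑ w ∈ (FP L (nm v)).filter (fun w => und w = v), τ w) * (nm v : ℂ) ^ (-z) := by
  rw [← Finset.sum_fiberwise_of_maps_to (g := fun w : HeightOneSpectrum (𝓞 L) =>
    (und w : HeightOneSpectrum (𝓞 F))) (t := (GG F y x).filter (fun v => (nm v).Prime))]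
  · refine Finset.sum_congr rfl fun v hv => ?_
    rw [mem_filter, mem_GG] at hv
    rw [Finset.sum_mul]
    refine Finset.sum_congr ?_ fun w hw => ?_
    · ext w
      simp only [mem_filter, mem_GG, mem_FP]
      constructor
      · rintro ⟨⟨_, h1⟩, h2⟩
        refine ⟨?_, h2⟩
        rw [← h2]
        exact (nm_und h1 rfl).symm
      · rintro ⟨h1, h2⟩
        rw [h1]
        exact ⟨hv, h2⟩
    · rw [mem_filter, mem_FP] at hw
      rw [hw.1]
  · intro w hw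
    rw [mem_filter, mem_GG] at hw ⊢
    rw [nm_und hw.2 rfl]
    exact hw

open Classical in
lemma sum_SP (f : (𝓞 F)[X]) (T : HeightOneSpectrum (𝓞 F) → ℕ → ℂ) (t : ℤ) (z : ℂ) (y x : ℕ) :
    SP (fun p => gg f T p t) z y x = ∑ v ∈ (GG F y x).filter (fun v => (nm v).Prime),
      ((∑ j ∈ rts (f + C (t : 𝓞 F)) v (nm v), T v j) - mu (T v) (nm v)) * (nm v : ℂ) ^ (-z) := by
  unfold SP
  symm
  rw [← Finset.sum_fiberwise_of_maps_to (g := fun v : HeightOneSpectrum (𝓞 F) => nm v)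
    (t := PR y x)]
  · refine Finset.sum_congr rfl fun p hp => ?_
    obtain ⟨⟨hp1, hp2⟩, hpp⟩ := mem_PR.1 hp
    unfold gg
    rw [Finset.sum_mul]
    refine Finset.sum_congr ?_ fun v hv => ?_
    · ext v
      simp only [mem_filter, mem_GG, mem_FP]
      constructor
      · rintro ⟨_, h⟩; exact h
      · intro h
        rw [h]
        exact ⟨⟨⟨hp1, hp2⟩, hpp⟩, rfl⟩
    · rw [mem_FP] at hv
      rw [hv]
  · intro v hv
    rw [mem_filter, mem_GG] at hv
    exact mem_PR.2 hv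

open Classical in
/-- **The comparison of the sums over the primes of degree one.** -/
theorem core {f : (𝓞 F)[X]} (hf : f.Monic) (hn : 0 < f.natDegree) {t : ℤ} {θ : 𝓞 L}
    (h : Gen (f + C (t : 𝓞 F)) θ) {d : 𝓞 F}
    (hd : ∀ β : 𝓞 L, ∃ P : (𝓞 F)[X], aeval θ P = algebraMap (𝓞 F) (𝓞 L) d * β)
    {T : HeightOneSpectrum (𝓞 F) → ℕ → ℂ} {C₀ : ℝ} (hC : 0 ≤ C₀) (hT : ∀ v j, ‖T v j‖ ≤ C₀)
    {τ : HeightOneSpectrum (𝓞 L) → ℂ} (hτC : ∀ w, ‖τ w‖ ≤ C₀)
    (hτ : ∀ w : HeightOneSpectrum (𝓞 L), (nm w).Prime → ∀ j ∈ range (nm w),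
      θ - ((j : ℕ) : 𝓞 L) ∈ w.asIdeal → τ w = T (und w) j)
    {z : ℂ} (hz : 1 / 2 ≤ z.re) {y : ℕ} (x : ℕ) (hy : 1 ≤ y) {β : ℝ}
    (hβ : ∀ S : Finset (HeightOneSpectrum (𝓞 F)), (∀ v ∈ S, d ∈ v.asIdeal ∧ y < nm v) →
      (S.card : ℝ) ≤ β) :
    ‖(∑ w ∈ (GG L y x).filter (fun w => (nm w).Prime), τ w * (nm w : ℂ) ^ (-z)) -
      (∑ v ∈ (GG F y x).filter (fun v => (nm v).Prime), mu (T v) (nm v) * (nm v : ℂ) ^ (-z)) -
      SP (fun p => gg f T p t) z y x‖ ≤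
      β * ((Module.finrank ℚ L + f.natDegree) * C₀) * (y : ℝ) ^ (-(1 / 2) : ℝ) := by
  have hy0 : (0 : ℝ) < y := by exact_mod_cast hy
  have hmon := monic_add hf hn (t : 𝓞 F)
  obtain ⟨e, he⟩ : ∃ e : HeightOneSpectrum (𝓞 F) → ℂ, e = fun v =>
    (∑ w ∈ (FP L (nm v)).filter (fun w => und w = v), τ w) -
      ∑ j ∈ rts (f + C (t : 𝓞 F)) v (nm v), T v j := ⟨_, rfl⟩
  have h1 : (∑ w ∈ (GG L y x).filter (fun w => (nm w).Prime), τ w * (nm w : ℂ) ^ (-z)) -
      (∑ v ∈ (GG F y x).filter (fun v => (nm v).Prime), mu (T v) (nm v) * (nm v : ℂ) ^ (-z)) -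
      SP (fun p => gg f T p t) z y x =
      ∑ v ∈ (GG F y x).filter (fun v => (nm v).Prime), e v * (nm v : ℂ) ^ (-z) := by
    rw [sum_L (F := F), sum_SP, ← Finset.sum_sub_distrib, ← Finset.sum_sub_distrib]
    refine Finset.sum_congr rfl fun v _ => ?_
    rw [he]
    ring
  have h2 : ∀ v ∈ (GG F y x).filter (fun v => (nm v).Prime), d ∉ v.asIdeal → e v = 0 := by
    intro v hv hdv
    rw [mem_filter, mem_GG] at hv
    have h3 := fiber_sum h hmon hd hv.2 rfl hdv τ (T v) (fun w hw1 hw2 j hj hjw => by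
      have h4 := hτ w (by rw [hw1]; exact hv.2) j (by rw [hw1]; exact hj) hjw
      rw [hw2] at h4
      exact h4)
    rw [he]
    dsimp only
    rw [h3, sub_eq_zero]
    refine Finset.sum_congr ?_ fun j _ => rfl
    ext j
    rw [mem_rts, mem_filter]
  have h3 : ∀ v ∈ (GG F y x).filter (fun v => (nm v).Prime),
      ‖e v‖ ≤ (Module.finrank ℚ L + f.natDegree) * C₀ := by
    intro v hv
    rw [mem_filter, mem_GG] at hv
    rw [he]
    refine (norm_sub_le _ _).trans ?_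
    have h4 := norm_sum_rts hmon hv.2 rfl hC (hT v)
    rw [natDegree_add_C] at h4
    have h5 : ‖∑ w ∈ (FP L (nm v)).filter (fun w => und w = v), τ w‖ ≤ Module.finrank ℚ L * C₀ := by
      refine (norm_sum_le _ _).trans ?_
      refine (Finset.sum_le_card_nsmul _ _ C₀ fun w _ => hτC w).trans ?_
      rw [nsmul_eq_mul]
      refine mul_le_mul_of_nonneg_right ?_ hC
      exact_mod_cast (card_filter_le _ _).trans (card_FP hv.2)
    linarith
  rw [h1]
  have h4 : ∑ v ∈ (GG F y x).filter (fun v => (nm v).Prime), e v * (nm v : ℂ) ^ (-z) =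
      ∑ v ∈ ((GG F y x).filter (fun v => (nm v).Prime)).filter (fun v => d ∈ v.asIdeal),
        e v * (nm v : ℂ) ^ (-z) := by
    rw [Finset.sum_filter_of_ne (p := fun v : HeightOneSpectrum (𝓞 F) => d ∈ v.asIdeal)]
    intro v hv hne
    by_contra hcon
    exact hne (by rw [h2 v hv hcon, zero_mul])
  rw [h4]
  refine (norm_sum_le _ _).trans ?_
  refine (Finset.sum_le_card_nsmul _ _ (((Module.finrank ℚ L + f.natDegree) * C₀) *
    (y : ℝ) ^ (-(1 / 2) : ℝ)) fun v hv => ?_).trans ?_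
  · rw [mem_filter] at hv
    have hv1 := hv.1
    rw [mem_filter, mem_GG] at hv1
    rw [norm_mul, norm_cpow]
    refine mul_le_mul (h3 v hv.1) ?_ (by positivity) (by positivity)
    calc (nm v : ℝ) ^ (-z.re) ≤ (nm v : ℝ) ^ (-(1 / 2) : ℝ) :=
          Real.rpow_le_rpow_of_exponent_le (nm_one v) (by linarith)
      _ ≤ (y : ℝ) ^ (-(1 / 2) : ℝ) :=
          Real.rpow_le_rpow_of_nonpos hy0 (by exact_mod_cast hv1.1.1.le) (by norm_num)
  · rw [nsmul_eq_mul, ← mul_assoc]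
    refine mul_le_mul_of_nonneg_right ?_ (by positivity)
    refine mul_le_mul_of_nonneg_right ?_ (by positivity)
    refine hβ _ fun v hv => ?_
    rw [mem_filter, mem_filter, mem_GG] at hv
    exact ⟨hv.2, hv.1.1.1⟩

end Pool.Agent.Y693.RF
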