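import Pool.Agent.Y693.RF.Fin

/-!
# Elliptic curves over extensions: residue degree one primes
-/

set_option autoImplicit false

open Finset NumberField IsDedekindDomain Polynomial Filter
open Pool.Agent.H921R2.TatePole (nm two_le_nm below deg nm_eq nm_summable fiber_card_le
  summable_primes_rpow card_above below_le_nm)
open Pool.Agent.Y770.EP (finite_quot card_quot FN mem_FN GG mem_GG FP mem_FP card_FP nm_mem Sys SP
  PR mem_PR nm_pos' Good pts tv tv_congr GD EL EL_sub EL_le EG fac PP LL LL_eq PP_exp PP_ne PP_eq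
  norm_sum_γ half_of_four nm_half EG_summable tv_bad coprime_notMem)

namespace Pool.Agent.Y693.RF

section two
variable {F : Type} [Field F] [NumberField F] {L : Type} [Field L] [NumberField L] [Algebra F L]

lemma pts_und {a b : 𝓞 F} {α β : 𝓞 L} {w : HeightOneSpectrum (𝓞 L)} {p : ℕ} (hp : p.Prime)
    (hw : nm w = p) (ha : α - algebraMap (𝓞 F) (𝓞 L) a ∈ w.asIdeal)
    (hb : β - algebraMap (𝓞 F) (𝓞 L) b ∈ w.asIdeal) : pts α β w = pts a b (und w) := by
  unfold pts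
  obtain ⟨E, hE⟩ : ∃ E : (𝓞 F ⧸ (und w : HeightOneSpectrum (𝓞 F)).asIdeal) ≃+* (𝓞 L ⧸ w.asIdeal),
      ∀ x, E x = res w x := ⟨RingEquiv.ofBijective (res w) (res_bij hp hw), fun x => rfl⟩
  symm
  refine Nat.card_congr (Equiv.subtypeEquiv (Equiv.prodCongr E.toEquiv E.toEquiv) fun P => ?_)
  have h1 : E (Ideal.Quotient.mk _ a) = Ideal.Quotient.mk w.asIdeal α := by
    rw [hE, res_mk, eq_comm, Ideal.Quotient.eq]
    exact ha
  have h2 : E (Ideal.Quotient.mk _ b) = Ideal.Quotient.mk w.asIdeal β := by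
    rw [hE, res_mk, eq_comm, Ideal.Quotient.eq]
    exact hb
  show _ ↔ (E P.2) ^ 2 = (E P.1) ^ 3 + Ideal.Quotient.mk w.asIdeal α * (E P.1) +
    Ideal.Quotient.mk w.asIdeal β
  rw [← h1, ← h2, ← map_pow, ← map_pow, ← map_mul, ← map_add, ← map_add, E.injective.eq_iff]

lemma tv_und {a b : 𝓞 F} {α β : 𝓞 L} {w : HeightOneSpectrum (𝓞 L)} {p : ℕ} (hp : p.Prime)
    (hw : nm w = p) (ha : α - algebraMap (𝓞 F) (𝓞 L) a ∈ w.asIdeal)
    (hb : β - algebraMap (𝓞 F) (𝓞 L) b ∈ w.asIdeal) : tv α β w = tv a b (und w) := by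
  unfold tv
  rw [pts_und hp hw ha hb, nm_und hp hw, hw]

lemma GD_und {a b : 𝓞 F} {α β : 𝓞 L} {w : HeightOneSpectrum (𝓞 L)}
    (ha : α - algebraMap (𝓞 F) (𝓞 L) a ∈ w.asIdeal)
    (hb : β - algebraMap (𝓞 F) (𝓞 L) b ∈ w.asIdeal) : GD α β w ↔ GD a b (und w) := by
  unfold GD
  rw [not_iff_not, mem_und, ← Ideal.Quotient.eq_zero_iff_mem, ← Ideal.Quotient.eq_zero_iff_mem]
  have h1 : Ideal.Quotient.mk w.asIdeal α = Ideal.Quotient.mk w.asIdeal (algebraMap (𝓞 F) (𝓞 L) a) :=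
    Ideal.Quotient.eq.2 ha
  have h2 : Ideal.Quotient.mk w.asIdeal β = Ideal.Quotient.mk w.asIdeal (algebraMap (𝓞 F) (𝓞 L) b) :=
    Ideal.Quotient.eq.2 hb
  simp only [map_mul, map_add, map_pow, map_ofNat, h1, h2]

/-- the base change of a system -/
noncomputable def bc {N : ℕ} (L : Type) [Field L] [NumberField L] [Algebra F L]
    (γ : Ideal (𝓞 F) → Fin N → ℂ) (w : HeightOneSpectrum (𝓞 L)) (j : Fin N) : ℂ :=
  γ (w.asIdeal.comap (algebraMap (𝓞 F) (𝓞 L))) j ^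
    Ideal.inertiaDeg' (w.asIdeal.comap (algebraMap (𝓞 F) (𝓞 L))) w.asIdeal

lemma bc_le {N : ℕ} {γ : Ideal (𝓞 F) → Fin N → ℂ} (hγ : ∀ v j, ‖γ v j‖ ≤ 1)
    (w : HeightOneSpectrum (𝓞 L)) (j : Fin N) : ‖bc L γ w j‖ ≤ 1 := by
  unfold bc
  rw [norm_pow]
  exact pow_le_one₀ (norm_nonneg _) (hγ _ _)

lemma inertia_one {w : HeightOneSpectrum (𝓞 L)} {p : ℕ} (hp : p.Prime) (hw : nm w = p) :
    Ideal.inertiaDeg' (w.asIdeal.comap (algebraMap (𝓞 F) (𝓞 L))) w.asIdeal = 1 := by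
  have hlo : w.asIdeal.LiesOver (und w : HeightOneSpectrum (𝓞 F)).asIdeal := ⟨rfl⟩
  have h1 := Ideal.absNorm_eq_pow_inertiaDeg'_of_liesOver w.asIdeal
    (und w : HeightOneSpectrum (𝓞 F)).asIdeal (und w).isPrime (und w).ne_bot
  have h2 := nm_und (F := F) hp hw
  unfold Pool.Agent.H921R2.TatePole.nm at h2 hw
  rw [h2, hw] at h1
  have h3 : (und w : HeightOneSpectrum (𝓞 F)).asIdeal = w.asIdeal.comap (algebraMap (𝓞 F) (𝓞 L)) := rfl
  rw [h3] at h1
  have h4 : p ^ 1 = p ^ Ideal.inertiaDeg' (w.asIdeal.comap (algebraMap (𝓞 F) (𝓞 L))) w.asIdeal := by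
    rw [pow_one]; exact h1
  exact (Nat.pow_right_injective hp.two_le h4).symm

lemma bc_und {N : ℕ} (γ : Ideal (𝓞 F) → Fin N → ℂ) {w : HeightOneSpectrum (𝓞 L)} {p : ℕ}
    (hp : p.Prime) (hw : nm w = p) (j : Fin N) :
    bc L γ w j = γ (und w : HeightOneSpectrum (𝓞 F)).asIdeal j := by
  unfold bc
  rw [inertia_one hp hw, pow_one]
  rfl

end two

section one
variable {M : Type} [Field M] [NumberField M] {N : ℕ}

open Classical in
/-- the first order coefficient -/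
noncomputable def ta (a b : 𝓞 M) (γ : HeightOneSpectrum (𝓞 M) → Fin N → ℂ)
    (w : HeightOneSpectrum (𝓞 M)) : ℂ := if GD a b w then (tv a b w : ℂ) * ∑ j, γ w j else 0

lemma ta_le (a b : 𝓞 M) {γ : HeightOneSpectrum (𝓞 M) → Fin N → ℂ} (hγ : ∀ w j, ‖γ w j‖ ≤ 1)
    (w : HeightOneSpectrum (𝓞 M)) : ‖ta a b γ w‖ ≤ 2 * N := by
  unfold ta
  split_ifs with h
  · rw [norm_mul, Complex.norm_real]
    exact mul_le_mul h.tv_le (norm_sum_γ hγ w) (norm_nonneg _) (by norm_num)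
  · rw [norm_zero]
    positivity

/-- the local data of an elliptic curve -/
theorem ld_ec (a b : 𝓞 M) {γ : HeightOneSpectrum (𝓞 M) → Fin N → ℂ} (hγ : ∀ w j, ‖γ w j‖ ≤ 1) :
    LD (7 * N) (ta a b γ) (fun z => EG a b γ (z + 1 / 2)) := by
  have hN : (0 : ℝ) ≤ N := Nat.cast_nonneg N
  refine ⟨fun w => (ta_le a b hγ w).trans (by linarith), fun z w hz hw => ?_, fun z w hz => ?_⟩
  · have hre : (z + 1 / 2).re = z.re + 1 / 2 := by simp
    unfold EG ta
    split_ifs with h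
    · have h1 := EL_sub (s := z + 1 / 2) h.tv_le hγ (half_of_four hw (by rw [hre]; linarith))
      have e1 : z + 1 / 2 - 1 / 2 = z := by ring
      rw [e1, hre] at h1
      refine h1.trans ?_
      have e2 : (1 - 2 * (z.re + 1 / 2)) = -(2 * z.re) := by ring
      rw [e2]
      exact mul_le_mul_of_nonneg_right (by linarith) (by positivity)
    · rw [zero_mul, sub_zero, norm_zero]
      positivity
  · have hre : (z + 1 / 2).re = z.re + 1 / 2 := by simp
    show ‖EG a b γ (z + 1 / 2) w‖ ≤ _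
    unfold EG
    split_ifs with h
    · have h1 := EL_le (s := z + 1 / 2) h.tv_le hγ (nm_half w (by rw [hre]; linarith))
      rw [hre] at h1
      refine h1.trans ?_
      have e2 : (1 / 2 - (z.re + 1 / 2)) = -z.re := by ring
      rw [e2]
      exact mul_le_mul_of_nonneg_right (by linarith) (by positivity)
    · rw [norm_zero]
      positivity

end one

section two
variable {F : Type} [Field F] [NumberField F] {L : Type} [Field L] [NumberField L] [Algebra F L]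

/-- compatibility of the coefficients -/
lemma ta_und {N : ℕ} {a b : 𝓞 F} {α β : 𝓞 L} (γ : Ideal (𝓞 F) → Fin N → ℂ)
    {w : HeightOneSpectrum (𝓞 L)} (hp : (nm w).Prime)
    (ha : α - algebraMap (𝓞 F) (𝓞 L) a ∈ w.asIdeal)
    (hb : β - algebraMap (𝓞 F) (𝓞 L) b ∈ w.asIdeal) :
    ta α β (bc L γ) w = ta a b (fun v => γ v.asIdeal) (und w) := by
  unfold ta
  rw [tv_und hp rfl ha hb]
  simp only [bc_und γ hp rfl]
  by_cases h : GD a b (und w)
  · rw [if_pos h, if_pos ((GD_und ha hb).2 h)]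
  · rw [if_neg h, if_neg (fun h' => h ((GD_und ha hb).1 h'))]

/-- the quotient of the partial products -/
lemma quot_eq {N : ℕ} {a b : 𝓞 F} {α β : 𝓞 L} {γ : HeightOneSpectrum (𝓞 F) → Fin N → ℂ}
    {γ' : HeightOneSpectrum (𝓞 L) → Fin N → ℂ} (hγ : ∀ v j, ‖γ v j‖ ≤ 1) (hγ' : ∀ v j, ‖γ' v j‖ ≤ 1)
    {s : ℂ} (hs : 1 / 2 < s.re) {y x : ℕ} (hyx : y ≤ x) :
    (PP α β γ' s x / PP a b γ s x) / (PP α β γ' s y / PP a b γ s y) =
      Complex.exp (∑ w ∈ GG L y x, EG α β γ' s w - ∑ v ∈ GG F y x, EG a b γ s v) := by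
  classical
  have key : ∀ {M : Type} [Field M] [NumberField M] (g : HeightOneSpectrum (𝓞 M) → ℂ),
      ∑ w ∈ FN M x, g w = ∑ w ∈ GG M y x, g w + ∑ w ∈ FN M y, g w := by
    intro M _ _ g
    have e1 : FN M x = GG M y x ∪ FN M y := by
      ext v
      simp only [mem_union, mem_GG, mem_FN]
      omega
    have e2 : Disjoint (GG M y x) (FN M y) := by
      rw [Finset.disjoint_left]
      intro v hv hv'
      simp only [mem_GG, mem_FN] at hv hv'
      omega
    rw [e1, Finset.sum_union e2]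
  rw [PP_exp hγ' hs, PP_exp hγ hs, PP_exp hγ' hs, PP_exp hγ hs, ← Complex.exp_sub, ← Complex.exp_sub,
    ← Complex.exp_sub, key (EG α β γ' s), key (EG a b γ s)]
  congr 1
  ring

lemma quot_one {N : ℕ} {α β : 𝓞 L} {γ' : HeightOneSpectrum (𝓞 L) → Fin N → ℂ}
    (hγ' : ∀ v j, ‖γ' v j‖ ≤ 1) {s : ℂ} (hs : 1 / 2 < s.re) {y x : ℕ} (hyx : y ≤ x) :
    PP α β γ' s x / PP α β γ' s y = Complex.exp (∑ w ∈ GG L y x, EG α β γ' s w) := by
  classical
  have e1 : FN L x = GG L y x ∪ FN L y := by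
    ext v
    simp only [mem_union, mem_GG, mem_FN]
    omega
  have e2 : Disjoint (GG L y x) (FN L y) := by
    rw [Finset.disjoint_left]
    intro v hv hv'
    simp only [mem_GG, mem_FN] at hv hv'
    omega
  rw [PP_exp hγ' hs, PP_exp hγ' hs, ← Complex.exp_sub, e1, Finset.sum_union e2, add_sub_cancel_right]

end two

end Pool.Agent.Y693.RF
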