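import Pool.Agent.Y693.RF.Strip

/-!
# Almost all generators: the abstract theorem
-/

set_option autoImplicit false

open Finset NumberField IsDedekindDomain Polynomial Filter
open Pool.Agent.H921R2.TatePole (nm two_le_nm below deg nm_eq nm_summable fiber_card_le
  summable_primes_rpow card_above below_le_nm)
open Pool.Agent.Y770.EP (finite_quot card_quot FN mem_FN GG mem_GG FP mem_FP card_FP nm_mem Sys SP
  PR mem_PR nm_pos' Good almost_all ev_rpow ev_log norm_exp_sub_one)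

namespace Pool.Agent.Y693.RF

/-- the partial products are close to each other -/
def R1 {F : Type} [Field F] [NumberField F] {L : Type} [Field L] [NumberField L] (δ c : ℝ) (N : ℕ)
    (ℓL : ℂ → HeightOneSpectrum (𝓞 L) → ℂ) (ℓF : ℂ → HeightOneSpectrum (𝓞 F) → ℂ) : Prop :=
  ∀ z : ℂ, 1 / 2 + δ ≤ z.re → |z.im| ≤ (N : ℝ) ^ c → ∀ y x : ℕ, (Real.log N) ^ (1 / c) ≤ y → y ≤ x →
    (x : ℝ) ≤ (N : ℝ) ^ c →
      ‖Complex.exp (∑ w ∈ GG L y x, ℓL z w - ∑ v ∈ GG F y x, ℓF z v) - 1‖ ≤ (y : ℝ) ^ (-c)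

/-- the partial products are close to the product -/
def R2 {F : Type} [Field F] [NumberField F] {L : Type} [Field L] [NumberField L] (η A c : ℝ) (N : ℕ)
    (ℓL : ℂ → HeightOneSpectrum (𝓞 L) → ℂ) (ℓF : ℂ → HeightOneSpectrum (𝓞 F) → ℂ) : Prop :=
  ∀ z : ℂ, 1 + A / Real.log N ≤ z.re → |z.im| ≤ (N : ℝ) ^ c → ∀ y : ℕ,
    (Real.log N) ^ (1 / c) ≤ y →
      ‖Complex.exp ((∑' w, ℓL z w - ∑ w ∈ FN L y, ℓL z w) -
        (∑' v, ℓF z v - ∑ v ∈ FN F y, ℓF z v)) - 1‖ ≤ η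

/-- the conclusion for one `t` -/
def Concl (F : Type) [Field F] [NumberField F] (f : (𝓞 F)[X]) (t : ℤ) (C₀ R δ η A c : ℝ) (N m : ℕ)
    (T : Fin m → HeightOneSpectrum (𝓞 F) → ℕ → ℂ) : Prop :=
  ∀ (L : Type) [Field L] [NumberField L] [Algebra F L] (θ : 𝓞 L), Gen (f + C (t : 𝓞 F)) θ →
    ∀ (k : Fin m) (τL : HeightOneSpectrum (𝓞 L) → ℂ) (ℓL : ℂ → HeightOneSpectrum (𝓞 L) → ℂ)
      (τF : HeightOneSpectrum (𝓞 F) → ℂ) (ℓF : ℂ → HeightOneSpectrum (𝓞 F) → ℂ),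
      LD C₀ τL ℓL → LD C₀ τF ℓF →
      (∀ w : HeightOneSpectrum (𝓞 L), (nm w).Prime → ∀ j ∈ range (nm w),
        θ - ((j : ℕ) : 𝓞 L) ∈ w.asIdeal → τL w = T k (und w) j) →
      MH R C₀ (T k) τF → R1 δ c N ℓL ℓF ∧ R2 η A c N ℓL ℓF

lemma aux1 {N U : ℕ} (hU : U = 2 * N + 1) (hN : 3 ≤ N) (hL2 : 2 ≤ Real.log N) {c d : ℝ} (hc0 : 0 < c)
    (hd0 : 0 < d) (hdc : 4000 * c ≤ d) : (Real.log U) ^ (4 / d) ≤ (Real.log N) ^ (1 / c) := by
  have hN3 : (3 : ℝ) ≤ N := by exact_mod_cast hN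
  have hUr : (U : ℝ) = 2 * N + 1 := by rw [hU]; push_cast; ring
  have h1 : Real.log U ≤ 2 * Real.log N := by
    have h2 : (U : ℝ) ≤ (N : ℝ) ^ 2 := by nlinarith
    have h3 := Real.log_le_log (by linarith) h2
    rwa [Real.log_pow, Nat.cast_ofNat] at h3
  have hT0' : 0 ≤ Real.log U := Real.log_nonneg (by linarith)
  have h2 : Real.log U ≤ Real.log N ^ (2 : ℝ) := by
    rw [Real.rpow_two]
    nlinarith
  calc (Real.log U) ^ (4 / d) ≤ (Real.log N ^ (2 : ℝ)) ^ (4 / d) :=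
        Real.rpow_le_rpow hT0' h2 (by positivity)
    _ = (Real.log N) ^ (8 / d) := by rw [← Real.rpow_mul (by linarith)]; congr 1; ring
    _ ≤ (Real.log N) ^ (1 / c) := by
        refine Real.rpow_le_rpow_of_exponent_le (by linarith) ?_
        rw [div_le_div_iff₀ hd0 hc0]
        linarith

lemma aux2 {n : ℕ} {N R E : ℝ} (hR0 : 0 < R) (hN0 : 0 < N) (hE : 1 ≤ E) (hR : Real.log R ≤ E)
    (hN : N ≤ Real.exp E) : Real.log ((n + 1) * (R + N)) ≤ (2 * n + 3) * E := by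
  have h1 : R ≤ Real.exp E := by
    rw [← Real.exp_log hR0, Real.exp_le_exp]
    exact hR
  have hn1 : (0 : ℝ) < n + 1 := by positivity
  have h2 : (n + 1) * (R + N) ≤ (2 * (n + 1)) * Real.exp E := by
    have h3 : (n + 1) * (R + N) ≤ ((n : ℝ) + 1) * (Real.exp E + Real.exp E) :=
      mul_le_mul_of_nonneg_left (by linarith) hn1.le
    linarith
  have h3 := Real.log_le_log (by positivity) h2
  rw [Real.log_mul (by positivity) (Real.exp_pos _).ne', Real.log_exp] at h3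
  have h4 : Real.log (2 * ((n : ℝ) + 1)) ≤ 2 * ((n : ℝ) + 1) := by
    have := Real.log_le_sub_one_of_pos (show (0 : ℝ) < 2 * ((n : ℝ) + 1) by positivity)
    linarith
  have h5 : 2 * ((n : ℝ) + 1) ≤ 2 * ((n : ℝ) + 1) * E := le_mul_of_one_le_right (by positivity) hE
  linarith

lemma aux3 {K C₀ lN lR lH : ℝ} {n g : ℕ} (hC : 0 ≤ C₀)
    (hK : K = ((n * g : ℕ) : ℝ) * (n + 2) * (2 * n + 3) * (((n * g : ℕ) : ℝ) + n) * C₀ +
    g * (2 * C₀)) (hHlog : lH ≤ (2 * n + 3) * lN) (hRlog : lR ≤ lN) :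
    ((((n * g : ℕ) : ℝ) * (n + 2) * lH) * ((((n * g : ℕ) : ℝ) + n) * C₀) + g * lR * (2 * C₀)) ≤
      K * lN := by
  have h1 : (((n * g : ℕ) : ℝ) * (n + 2) * lH) * ((((n * g : ℕ) : ℝ) + n) * C₀) ≤
      (((n * g : ℕ) : ℝ) * (n + 2) * ((2 * n + 3) * lN)) * ((((n * g : ℕ) : ℝ) + n) * C₀) := by
    refine mul_le_mul_of_nonneg_right ?_ (by positivity)
    exact mul_le_mul_of_nonneg_left hHlog (by positivity)
  have h2 : (g : ℝ) * lR * (2 * C₀) ≤ (g : ℝ) * lN * (2 * C₀) := by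
    refine mul_le_mul_of_nonneg_right ?_ (by positivity)
    exact mul_le_mul_of_nonneg_left hRlog (by positivity)
  calc _ ≤ _ := add_le_add h1 h2
    _ = K * lN := by rw [hK]; ring

theorem fin (g n : ℕ) (hn : 0 < n) (B δ C₀ : ℝ) (hδ : 0 < δ) (hC : 0 ≤ C₀) :
    ∃ c : ℝ, 0 < c ∧ ∀ η : ℝ, 0 < η → ∃ A : ℝ, 0 < A ∧ ∃ N₀ : ℕ, 3 ≤ N₀ ∧ ∀ N : ℕ, N₀ ≤ N →
      ∀ (F : Type) [Field F] [NumberField F], g = Module.finrank ℚ F →
      ∀ f : (𝓞 F)[X], f.Monic → f.natDegree = n →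
      (∀ i, ∀ σ : F →+* ℂ, ‖σ (f.coeff i : F)‖ ≤ Real.exp ((Real.log N) ^ B)) →
      ∀ m : ℕ, (m : ℝ) ≤ (N : ℝ) ^ c → ∀ T : Fin m → HeightOneSpectrum (𝓞 F) → ℕ → ℂ,
        (∀ k v j, ‖T k v j‖ ≤ C₀) →
        ({t : ℤ | |t| ≤ N ∧ ¬ Concl F f t C₀ (Real.exp ((Real.log N) ^ B)) δ η A c N m T}.ncard : ℝ) ≤
          (N : ℝ) ^ (1 - c) := by
  classical
  obtain ⟨d, hd⟩ : ∃ d : ℝ, d = min δ (1 / 2) := ⟨_, rfl⟩
  have hd0 : 0 < d := by rw [hd]; positivity
  have hd1 : d ≤ 1 / 2 := by rw [hd]; exact min_le_right _ _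
  have hdδ : d ≤ δ := by rw [hd]; exact min_le_left _ _
  obtain ⟨M, hM⟩ : ∃ M : ℝ, M = g * ((n + 1) * C₀) + 1 := ⟨_, rfl⟩
  obtain ⟨T0, hT02, hT0⟩ := almost_all (δ := d) (M := M) hd0 hd1
    (by rw [hM]
        have : (0 : ℝ) ≤ g * ((n + 1) * C₀) := by positivity
        linarith)
  obtain ⟨CS, σ₀, hCS, hσ₀, hlogsum⟩ := log_sum
  obtain ⟨Z, hZ⟩ : ∃ Z : ℝ, Z = (2 * C₀ * (((n * g : ℕ) : ℝ) * PS d) + 2 * C₀ * (g * PS d) +
        C₀ * (g * PS (d / 2))) + 2 := ⟨_, rfl⟩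
  have hp1 := PS_nonneg d
  have hp2 := PS_nonneg (d / 2)
  have hZ1 : 1 ≤ Z := by
    rw [hZ]
    have : 0 ≤ (2 * C₀ * (((n * g : ℕ) : ℝ) * PS d) + 2 * C₀ * (g * PS d) +
        C₀ * (g * PS (d / 2))) := by positivity
    linarith
  obtain ⟨B1, hB1⟩ : ∃ B1 : ℝ, B1 = max B 1 := ⟨_, rfl⟩
  have hB11 : 1 ≤ B1 := by rw [hB1]; exact le_max_right _ _
  have hBB : B ≤ B1 := by rw [hB1]; exact le_max_left _ _
  obtain ⟨c, hc⟩ : ∃ c : ℝ, c = min (d / 4000) (1 / (4 * (B1 + 1))) := ⟨_, rfl⟩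
  have hc0 : 0 < c := by rw [hc]; positivity
  have hdc : 4000 * c ≤ d := by
    have : c ≤ d / 4000 := by rw [hc]; exact min_le_left _ _
    linarith
  have hcB : B1 + 1 ≤ 1 / (4 * c) := by
    have h1 : c ≤ 1 / (4 * (B1 + 1)) := by rw [hc]; exact min_le_right _ _
    rw [le_div_iff₀ (by positivity)] at h1 ⊢
    linarith
  have hc1 : c ≤ 1 / 8000 := by linarith
  obtain ⟨K, hK⟩ : ∃ K : ℝ, K = ((n * g : ℕ) : ℝ) * (n + 2) * (2 * n + 3) * (((n * g : ℕ) : ℝ) + n) * C₀ +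
    g * (2 * C₀) := ⟨_, rfl⟩
  have hK0 : 0 ≤ K := by rw [hK]; positivity
  refine ⟨c, hc0, fun η hη => ?_⟩
  obtain ⟨η', hη'⟩ : ∃ η' : ℝ, η' = min η 1 := ⟨_, rfl⟩
  have hη0 : 0 < η' := by rw [hη']; positivity
  have hη1 : η' ≤ 1 := by rw [hη']; exact min_le_right _ _
  have hηη : η' ≤ η := by rw [hη']; exact min_le_left _ _
  obtain ⟨A, hA⟩ : ∃ A : ℝ, A = 8 * C₀ * (((n * g : ℕ) : ℝ) + g) * CS / (c * η') + 1 := ⟨_, rfl⟩
  have hA1 : 1 ≤ A := by
    rw [hA]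
    have : 0 ≤ 8 * C₀ * (((n * g : ℕ) : ℝ) + g) * CS / (c * η') := by positivity
    linarith
  have hA0 : 0 < A := by linarith
  have ev : ∀ᶠ N : ℕ in atTop, 2 ≤ Real.log N ∧ 3 ≤ (N : ℝ) ^ c ∧
      2 * Z ≤ (Real.log N) ^ (249 : ℝ) ∧ 4 * Z / η' ≤ (Real.log N) ^ (249 : ℝ) ∧
      A / Real.log N < σ₀ ∧ 4 ≤ (N : ℝ) ^ (c / 2) ∧ K ≤ Real.log N := by
    have e1 : ∀ᶠ N : ℕ in atTop, 2 ≤ (Real.log N) ^ (1 : ℝ) := ev_log one_pos
    have e2 : ∀ᶠ N : ℕ in atTop, A / σ₀ + 1 ≤ (Real.log N) ^ (1 : ℝ) := ev_log one_pos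
    have e3 : ∀ᶠ N : ℕ in atTop, K ≤ (Real.log N) ^ (1 : ℝ) := ev_log one_pos
    filter_upwards [e1, ev_rpow (C := 3) hc0, ev_log (C := 2 * Z) (show (0 : ℝ) < 249 by norm_num),
      ev_log (C := 4 * Z / η') (show (0 : ℝ) < 249 by norm_num), e2,
      ev_rpow (C := 4) (show 0 < c / 2 by positivity), e3] with N a1 a2 a3 a4 a5 a6 a7
    rw [Real.rpow_one] at a1 a5 a7
    have hL0 : 0 < Real.log N := by linarith
    refine ⟨a1, a2, a3, a4, ?_, a6, a7⟩
    rw [div_lt_iff₀ hL0, mul_comm, ← div_lt_iff₀ hσ₀]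
    linarith
  obtain ⟨N1, hN1⟩ := eventually_atTop.1 ev
  refine ⟨A, hA0, max N1 (max T0 3), (le_max_right _ _).trans (le_max_right _ _),
    fun N hN F _ _ hg f hf hfn hcoef m hm T hT => ?_⟩
  obtain ⟨hL2, hX3, hZL, hZη, hAσ, hX4, hKL⟩ := hN1 N ((le_max_left _ _).trans hN)
  have hXT : T0 ≤ N := ((le_max_left _ _).trans (le_max_right _ _)).trans hN
  have hX3' : 3 ≤ N := ((le_max_right _ _).trans (le_max_right _ _)).trans hN
  have hXr : (3 : ℝ) ≤ N := by exact_mod_cast hX3'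
  have hX0 : (0 : ℝ) < N := by linarith
  have hL0 : 0 < Real.log N := by linarith
  have hfn0 : 0 < f.natDegree := by rw [hfn]; exact hn
  -- the box
  obtain ⟨U, hU⟩ : ∃ U : ℕ, U = 2 * N + 1 := ⟨_, rfl⟩
  have hUr : (U : ℝ) = 2 * N + 1 := by rw [hU]; push_cast; ring
  have hNU : (N : ℝ) ≤ U := by rw [hUr]; linarith
  have hU3 : (U : ℝ) ≤ 3 * N := by rw [hUr]; linarith
  have hUc : (N : ℝ) ^ c ≤ (U : ℝ) ^ (d / 2000) := by
    calc (N : ℝ) ^ c ≤ (U : ℝ) ^ c := Real.rpow_le_rpow hX0.le hNU hc0.le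
      _ ≤ (U : ℝ) ^ (d / 2000) := Real.rpow_le_rpow_of_exponent_le (by linarith) (by linarith)
  have hUlog := aux1 hU hX3' hL2 hc0 hd0 hdc
  have hcount := hT0 U (hXT.trans (by omega)) (univ : Finset (Fin m)) (fun k => gg f (T k))
    (fun k _ => by
      have := sys_gg hf hfn0 hC (hT k)
      rw [← hg, hfn, ← hM] at this
      exact this) (by
      rw [card_univ, Fintype.card_fin]
      exact hm.trans hUc) (-(N : ℤ))
  -- the heights
  obtain ⟨R, hR⟩ : ∃ R : ℝ, R = Real.exp ((Real.log N) ^ B) := ⟨_, rfl⟩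
  rw [← hR] at hcoef ⊢
  have hRlog : Real.log R ≤ (Real.log N) ^ B1 := by
    rw [hR, Real.log_exp]
    exact Real.rpow_le_rpow_of_exponent_le (by linarith) hBB
  have hR0 : 0 < R := by rw [hR]; exact Real.exp_pos _
  have hLB : 1 ≤ (Real.log N) ^ B1 := Real.one_le_rpow (by linarith) (by linarith)
  have hNexp : (N : ℝ) ≤ Real.exp ((Real.log N) ^ B1) := by
    calc (N : ℝ) = Real.exp (Real.log N) := (Real.exp_log hX0).symm
      _ ≤ Real.exp ((Real.log N) ^ B1) := by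
          rw [Real.exp_le_exp]
          calc Real.log N = (Real.log N) ^ (1 : ℝ) := (Real.rpow_one _).symm
            _ ≤ (Real.log N) ^ B1 := Real.rpow_le_rpow_of_exponent_le (by linarith) hB11
  have hHlog : Real.log ((n + 1) * (R + N)) ≤ (2 * n + 3) * (Real.log N) ^ B1 :=
    aux2 hR0 hX0 hLB hRlog hNexp
  -- good `t`
  have hgood : ∀ t : ℤ, |t| ≤ N → (∀ k, Good d (d / 2000) U fun p => gg f (T k) p t) →
      Concl F f t C₀ R δ η A c N m T := by
    intro t htN ht L _ _ _ θ hθ k τL ℓL τF ℓF hLL hLF hτ hMH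
    have hfin : Module.finrank ℚ L = n * g := by
      have h1 := Module.finrank_mul_finrank ℚ F L
      rw [hθ.deg, natDegree_add_C, hfn, ← hg, mul_comm] at h1
      exact h1.symm
    have hH1 : 1 ≤ R + N := by linarith
    have hcH : ∀ i, ∀ σ : F →+* ℂ, ‖σ ((f + C (t : 𝓞 F)).coeff i : F)‖ ≤ R + N := by
      intro i σ
      rw [coeff_add, coeff_C]
      have h1 : ‖σ (((if i = 0 then (t : 𝓞 F) else 0 : 𝓞 F)) : F)‖ ≤ N := by
        split_ifs
        · have : (((t : 𝓞 F)) : F) = ((t : ℤ) : F) := map_intCast (algebraMap (𝓞 F) F) t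
          rw [this, map_intCast, Complex.norm_intCast]
          exact_mod_cast htN
        · have : (((0 : 𝓞 F)) : F) = 0 := map_zero (algebraMap (𝓞 F) F)
          rw [this, map_zero, norm_zero]
          exact hX0.le
      have h2 : ((f.coeff i + (if i = 0 then (t : 𝓞 F) else 0) : 𝓞 F) : F) =
          (f.coeff i : F) + ((if i = 0 then (t : 𝓞 F) else 0 : 𝓞 F) : F) :=
        map_add (algebraMap (𝓞 F) F) _ _
      rw [h2, map_add]
      exact (norm_add_le _ _).trans (add_le_add (hcoef i σ) h1)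
    have hypow : ∀ y : ℕ, (Real.log N) ^ (1 / c) ≤ y → (Real.log N) ^ (249 : ℝ) ≤ (y : ℝ) ^ (249 * c) := by
      intro y hy
      have h1 := Real.rpow_le_rpow (by positivity) hy (show 0 ≤ 249 * c by positivity)
      refine le_trans (le_of_eq ?_) h1
      rw [← Real.rpow_mul hL0.le]
      congr 1
      field_simp
    have hy1 : ∀ y : ℕ, (Real.log N) ^ (1 / c) ≤ y → (1 : ℝ) ≤ y := fun y hy => by
      refine le_trans ?_ hy
      exact Real.one_le_rpow (by linarith) (by positivity)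
    -- the logarithms
    have hlogs : ∀ z : ℂ, 1 / 2 + d ≤ z.re → |z.im| ≤ (N : ℝ) ^ c → ∀ y x : ℕ,
        (Real.log N) ^ (1 / c) ≤ y → (x : ℝ) ≤ (N : ℝ) ^ c →
        ‖∑ w ∈ GG L y x, ℓL z w - ∑ v ∈ GG F y x, ℓF z v‖ ≤ Z * (y : ℝ) ^ (-(250 * c)) := by
      intro z hz hz2 y x hy hx
      have hy4 : 4 ≤ y := by
        have h1 : (4 : ℝ) ≤ (Real.log N) ^ (1 / c) := by
          have h2 : (2 : ℝ) ≤ 1 / c := by rw [le_div_iff₀ hc0]; linarith
          calc (4 : ℝ) = 2 ^ (2 : ℝ) := by norm_num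
            _ ≤ (Real.log N) ^ (2 : ℝ) := Real.rpow_le_rpow (by norm_num) hL2 (by norm_num)
            _ ≤ (Real.log N) ^ (1 / c) := Real.rpow_le_rpow_of_exponent_le (by linarith) h2
        exact_mod_cast h1.trans hy
      have hyr := hy1 y hy
      have hy0 : (0 : ℝ) < y := by linarith
      have h1 := strip hf hfn0 hθ hH1 hcH hC hd0 (hT k) (ht k) hLL hLF hτ hMH hz (hz2.trans hUc)
        hy4 (hUlog.trans hy) (hx.trans hUc)
      rw [hfin, hfn, ← hg] at h1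
      -- the second coefficient
      obtain ⟨W, hW⟩ : ∃ W : ℝ, W = ((((n * g : ℕ) : ℝ) * (n + 2) * Real.log ((n + 1) * (R + N))) *
        ((((n * g : ℕ) : ℝ) + n) * C₀) + g * Real.log R * (2 * C₀)) := ⟨_, rfl⟩
      rw [← hW] at h1
      have hWK : W ≤ K * (Real.log N) ^ B1 := by
        rw [hW]
        exact aux3 hC hK hHlog hRlog
      have hWy : W * (y : ℝ) ^ (-(1 / 2) : ℝ) ≤ (y : ℝ) ^ (-(d / 16)) := by
        have h2 : W ≤ (y : ℝ) ^ (1 / 4 : ℝ) := by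
          calc W ≤ K * (Real.log N) ^ B1 := hWK
            _ ≤ Real.log N * (Real.log N) ^ B1 := mul_le_mul_of_nonneg_right hKL (by positivity)
            _ = (Real.log N) ^ (B1 + 1) := by rw [Real.rpow_add_one hL0.ne', mul_comm]
            _ ≤ (Real.log N) ^ (1 / (4 * c)) := Real.rpow_le_rpow_of_exponent_le (by linarith) hcB
            _ = ((Real.log N) ^ (1 / c)) ^ (1 / 4 : ℝ) := by
                rw [← Real.rpow_mul hL0.le]
                congr 1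
                field_simp
            _ ≤ (y : ℝ) ^ (1 / 4 : ℝ) := Real.rpow_le_rpow (by positivity) hy (by norm_num)
        calc W * (y : ℝ) ^ (-(1 / 2) : ℝ) ≤ (y : ℝ) ^ (1 / 4 : ℝ) * (y : ℝ) ^ (-(1 / 2) : ℝ) :=
              mul_le_mul_of_nonneg_right h2 (by positivity)
          _ = (y : ℝ) ^ (1 / 4 + -(1 / 2) : ℝ) := (Real.rpow_add hy0 _ _).symm
          _ ≤ (y : ℝ) ^ (-(d / 16)) := Real.rpow_le_rpow_of_exponent_le hyr (by linarith)
      have h2 : (y : ℝ) ^ (-(d / 2)) ≤ (y : ℝ) ^ (-(d / 16)) :=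
        Real.rpow_le_rpow_of_exponent_le hyr (by linarith)
      have h3 : (y : ℝ) ^ (-(d / 16)) ≤ (y : ℝ) ^ (-(250 * c)) :=
        Real.rpow_le_rpow_of_exponent_le hyr (by linarith)
      obtain ⟨Z', hZ'⟩ : ∃ Z' : ℝ, Z' = (2 * C₀ * (((n * g : ℕ) : ℝ) * PS d) + 2 * C₀ * (g * PS d) +
        C₀ * (g * PS (d / 2))) := ⟨_, rfl⟩
      have hZ'0 : 0 ≤ Z' := by rw [hZ']; positivity
      rw [← hZ'] at h1
      have hZZ : Z = Z' + 2 := by rw [hZ, hZ']
      refine h1.trans ?_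
      calc Z' * (y : ℝ) ^ (-(d / 2)) + W * (y : ℝ) ^ (-(1 / 2) : ℝ) + (y : ℝ) ^ (-(d / 16))
          ≤ Z' * (y : ℝ) ^ (-(d / 16)) + (y : ℝ) ^ (-(d / 16)) + (y : ℝ) ^ (-(d / 16)) :=
            add_le_add (add_le_add (mul_le_mul_of_nonneg_left h2 hZ'0) hWy) le_rfl
        _ = Z * (y : ℝ) ^ (-(d / 16)) := by rw [hZZ]; ring
        _ ≤ Z * (y : ℝ) ^ (-(250 * c)) := mul_le_mul_of_nonneg_left h3 (by linarith)
    constructor
    · intro z hz hz2 y x hy hyx hx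
      have hz' : 1 / 2 + d ≤ z.re := by linarith
      have hyr := hy1 y hy
      have hy0 : (0 : ℝ) < y := by linarith
      have h1 := hlogs z hz' hz2 y x hy hx
      have h2 : 2 * (Z * (y : ℝ) ^ (-(250 * c))) ≤ (y : ℝ) ^ (-c) := by
        calc 2 * (Z * (y : ℝ) ^ (-(250 * c))) = (2 * Z) * (y : ℝ) ^ (-(250 * c)) := by ring
          _ ≤ (y : ℝ) ^ (249 * c) * (y : ℝ) ^ (-(250 * c)) :=
              mul_le_mul_of_nonneg_right (hZL.trans (hypow y hy)) (by positivity)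
          _ = (y : ℝ) ^ (-c) := by rw [← Real.rpow_add hy0]; congr 1; ring
      have h3 : (y : ℝ) ^ (-c) ≤ 1 := Real.rpow_le_one_of_one_le_of_nonpos hyr (by linarith)
      refine (norm_exp_sub_one (h1.trans ?_)).trans ?_
      · linarith [norm_nonneg (∑ w ∈ GG L y x, ℓL z w - ∑ v ∈ GG F y x, ℓF z v)]
      · linarith
    · intro z hz hz2 y hy
      have hyr := hy1 y hy
      have hε0 : 0 < A / Real.log N := by positivity
      have hzre : 1 < z.re := by linarith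
      obtain ⟨hsum, hCb⟩ := hlogsum (A / Real.log N) hε0 hAσ
      obtain ⟨x0, hx0⟩ : ∃ x0 : ℕ, x0 = ⌊(N : ℝ) ^ c⌋₊ := ⟨_, rfl⟩
      have hXc0 : (0 : ℝ) ≤ (N : ℝ) ^ c := by positivity
      have hx0le : (x0 : ℝ) ≤ (N : ℝ) ^ c := by rw [hx0]; exact Nat.floor_le hXc0
      have hx0lo : (N : ℝ) ^ (c / 2) ≤ x0 := by
        have h1 := Nat.lt_floor_add_one ((N : ℝ) ^ c)
        rw [← hx0] at h1
        have h2 : (N : ℝ) ^ c = (N : ℝ) ^ (c / 2) * (N : ℝ) ^ (c / 2) := by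
          rw [← Real.rpow_add hX0]; congr 1; ring
        nlinarith
      have hbd : ∀ {M' : Type} [Field M'] [NumberField M'] {τ : HeightOneSpectrum (𝓞 M') → ℂ}
          {ℓ : ℂ → HeightOneSpectrum (𝓞 M') → ℂ}, LD C₀ τ ℓ → ∀ w,
          ‖ℓ z w‖ ≤ C₀ * (nm w : ℝ) ^ (-(1 + A / Real.log N)) := by
        intro M' _ _ τ ℓ hℓ w
        refine (hℓ.bd z w hzre.le).trans ?_
        refine mul_le_mul_of_nonneg_left ?_ hC
        exact Real.rpow_le_rpow_of_exponent_le (nm_one w) (by linarith)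
      have htail : ∀ y' : ℕ, x0 ≤ y' → ‖(∑' w, ℓL z w - ∑ w ∈ FN L y', ℓL z w) -
          (∑' v, ℓF z v - ∑ v ∈ FN F y', ℓF z v)‖ ≤ η' / 4 := by
        intro y' hy'
        have hzr : (N : ℝ) ^ (c / 2) ≤ y' := hx0lo.trans (by exact_mod_cast hy')
        have hz2 : 2 ≤ y' := by
          have : (2 : ℝ) ≤ y' := by linarith
          exact_mod_cast this
        have h1 := tail (M := L) hε0 hsum hCb hC (hbd hLL) hz2
        have h2 := tail (M := F) hε0 hsum hCb hC (hbd hLF) hz2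
        rw [hfin] at h1
        rw [← hg] at h2
        have hlogz : c / 2 * Real.log N ≤ Real.log y' := by
          have h1 := Real.log_le_log (by positivity) hzr
          rwa [Real.log_rpow hX0] at h1
        have hlz0 : 0 < c / 2 * Real.log N := by positivity
        refine (norm_sub_le _ _).trans ?_
        calc _ ≤ C₀ * (((n * g : ℕ) : ℝ) * (CS / (A / Real.log N))) / Real.log y' +
              C₀ * ((g : ℝ) * (CS / (A / Real.log N))) / Real.log y' := add_le_add h1 h2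
          _ = C₀ * ((((n * g : ℕ) : ℝ) + g) * (CS / (A / Real.log N))) / Real.log y' := by ring
          _ ≤ C₀ * ((((n * g : ℕ) : ℝ) + g) * (CS / (A / Real.log N))) / (c / 2 * Real.log N) :=
              div_le_div_of_nonneg_left (by positivity) hlz0 hlogz
          _ = (2 * C₀ * (((n * g : ℕ) : ℝ) + g) * CS) / (c * A) := by field_simp
          _ ≤ η' / 4 := by
              rw [div_le_iff₀ (by positivity)]
              have h5 : 8 * C₀ * (((n * g : ℕ) : ℝ) + g) * CS / (c * η') ≤ A := by rw [hA]; linarith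
              rw [div_le_iff₀ (by positivity)] at h5
              linarith
      have hdec : ∀ {M' : Type} [Field M'] [NumberField M'] (ℓ : HeightOneSpectrum (𝓞 M') → ℂ),
          y < x0 → ∑' w, ℓ w - ∑ w ∈ FN M' y, ℓ w =
          (∑' w, ℓ w - ∑ w ∈ FN M' x0, ℓ w) + ∑ w ∈ GG M' y x0, ℓ w := by
        intro M' _ _ ℓ hyx
        have e1 : FN M' x0 = GG M' y x0 ∪ FN M' y := by
          ext v
          simp only [mem_union, mem_GG, mem_FN]
          omega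
        have e2 : Disjoint (GG M' y x0) (FN M' y) := by
          rw [Finset.disjoint_left]
          intro v hv hv'
          simp only [mem_GG, mem_FN] at hv hv'
          omega
        rw [e1, Finset.sum_union e2]
        ring
      have hrest : ‖(∑' w, ℓL z w - ∑ w ∈ FN L y, ℓL z w) -
          (∑' v, ℓF z v - ∑ v ∈ FN F y, ℓF z v)‖ ≤ η' / 2 := by
        by_cases hyx : x0 ≤ y
        · exact (htail y hyx).trans (by linarith)
        · push Not at hyx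
          have h1 := htail x0 le_rfl
          have h2 := hlogs z (by linarith) hz2 y x0 hy hx0le
          have h4 : Z * (y : ℝ) ^ (-(250 * c)) ≤ η' / 4 := by
            have h5 : (y : ℝ) ^ (-(250 * c)) ≤ (y : ℝ) ^ (-(249 * c)) :=
              Real.rpow_le_rpow_of_exponent_le hyr (by linarith)
            have h6 : (y : ℝ) ^ (-(249 * c)) = ((y : ℝ) ^ (249 * c))⁻¹ := Real.rpow_neg (by linarith) _
            have h7 : 4 * Z / η' ≤ (y : ℝ) ^ (249 * c) := hZη.trans (hypow y hy)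
            have h8 : 0 < 4 * Z / η' := by positivity
            have h9 : ((y : ℝ) ^ (249 * c))⁻¹ ≤ (4 * Z / η')⁻¹ := inv_anti₀ h8 h7
            calc Z * (y : ℝ) ^ (-(250 * c)) ≤ Z * (4 * Z / η')⁻¹ := by
                  refine mul_le_mul_of_nonneg_left ?_ (by linarith)
                  rw [h6] at h5
                  exact h5.trans h9
              _ = η' / 4 := by field_simp
          rw [hdec (ℓL z) hyx, hdec (ℓF z) hyx]
          have e3 : (∑' w, ℓL z w - ∑ w ∈ FN L x0, ℓL z w) + ∑ w ∈ GG L y x0, ℓL z w -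
              ((∑' v, ℓF z v - ∑ v ∈ FN F x0, ℓF z v) + ∑ v ∈ GG F y x0, ℓF z v) =
              ((∑' w, ℓL z w - ∑ w ∈ FN L x0, ℓL z w) - (∑' v, ℓF z v - ∑ v ∈ FN F x0, ℓF z v)) +
              (∑ w ∈ GG L y x0, ℓL z w - ∑ v ∈ GG F y x0, ℓF z v) := by ring
          rw [e3]
          refine (norm_add_le _ _).trans ?_
          have := add_le_add h1 (h2.trans h4)
          linarith
      refine (norm_exp_sub_one (hrest.trans (by linarith))).trans ?_
      linarith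
  -- the count
  have hcard : ({t : ℤ | |t| ≤ N ∧ ¬ Concl F f t C₀ R δ η A c N m T}.ncard : ℝ) ≤
      (Nat.card {u : ℕ // u < U ∧ ¬ ∀ k ∈ (univ : Finset (Fin m)),
        Good d (d / 2000) U fun p => gg f (T k) p (-(N : ℤ) + u)} : ℝ) := by
    set S := {u : ℕ | u < U ∧ ¬ ∀ k ∈ (univ : Finset (Fin m)),
        Good d (d / 2000) U fun p => gg f (T k) p (-(N : ℤ) + u)} with hS
    have hSfin : S.Finite := Set.Finite.subset (Set.finite_Iio U) fun u hu => hu.1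
    have h1 : {t : ℤ | |t| ≤ N ∧ ¬ Concl F f t C₀ R δ η A c N m T} ⊆
        (fun u : ℕ => -(N : ℤ) + u) '' S := by
      rintro t ⟨ht1, ht2⟩
      have h2 := abs_le.1 ht1
      refine ⟨(t + N).toNat, ⟨?_, fun hcon => ht2 (hgood t ht1 fun k => ?_)⟩, ?_⟩
      · omega
      · have h3 := hcon k (mem_univ k)
        have h4 : -(N : ℤ) + ((t + N).toNat : ℤ) = t := by omega
        rw [h4] at h3
        exact h3
      · dsimp only
        omega
    have h2 := Set.ncard_le_ncard h1 (hSfin.image _)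
    have h3 := Set.ncard_image_le (f := fun u : ℕ => -(N : ℤ) + u) hSfin
    have h4 : Nat.card {u : ℕ // u < U ∧ ¬ ∀ k ∈ (univ : Finset (Fin m)),
        Good d (d / 2000) U fun p => gg f (T k) p (-(N : ℤ) + u)} = S.ncard := rfl
    rw [h4]
    exact_mod_cast h2.trans h3
  refine hcard.trans (hcount.trans ?_)
  calc (U : ℝ) ^ (1 - d / 2000) ≤ (3 * N : ℝ) ^ (1 - d / 2000) :=
        Real.rpow_le_rpow (by linarith) hU3 (by linarith)
    _ = 3 ^ (1 - d / 2000) * (N : ℝ) ^ (1 - d / 2000) := Real.mul_rpow (by norm_num) hX0.le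
    _ ≤ 3 * (N : ℝ) ^ (1 - d / 2000) := by
        refine mul_le_mul_of_nonneg_right ?_ (by positivity)
        calc (3 : ℝ) ^ (1 - d / 2000) ≤ 3 ^ (1 : ℝ) :=
              Real.rpow_le_rpow_of_exponent_le (by norm_num) (by linarith)
          _ = 3 := Real.rpow_one _
    _ ≤ (N : ℝ) ^ c * (N : ℝ) ^ (1 - d / 2000) := mul_le_mul_of_nonneg_right hX3 (by positivity)
    _ = (N : ℝ) ^ (c + (1 - d / 2000)) := (Real.rpow_add hX0 _ _).symm
    _ ≤ (N : ℝ) ^ (1 - c) := Real.rpow_le_rpow_of_exponent_le (by linarith) (by linarith)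

end Pool.Agent.Y693.RF
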