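import Pool.Agent.Y770.EP.Final

/-!
# Generators of extensions of number fields and their primes of residue degree one
-/

set_option autoImplicit false

open Finset NumberField IsDedekindDomain Polynomial
open Pool.Agent.H921R2.TatePole (nm two_le_nm below deg nm_eq nm_summable fiber_card_le
  summable_primes_rpow card_above)

namespace Pool.Agent.Y693.RF

variable {F : Type} [Field F] [NumberField F] {L : Type} [Field L] [NumberField L] [Algebra F L]

/-- `θ` generates `L` over `F` and is a root of `f`, of degree `[L : F]` -/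
structure Gen (f : (𝓞 F)[X]) (θ : 𝓞 L) : Prop where
  root : aeval θ f = 0
  deg : Module.finrank F L = f.natDegree
  top : Algebra.adjoin F {(θ : L)} = ⊤

lemma Gen.minpoly_eq {f : (𝓞 F)[X]} {θ : 𝓞 L} (h : Gen f θ) (hf : f.Monic) :
    minpoly (𝓞 F) θ = f := by
  have hint : IsIntegral (𝓞 F) θ := Algebra.IsIntegral.isIntegral θ
  have hdvd : minpoly (𝓞 F) θ ∣ f := minpoly.isIntegrallyClosed_dvd hint h.root
  refine (Polynomial.eq_of_monic_of_dvd_of_natDegree_le (minpoly.monic hint) hf hdvd ?_).symm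
  have h1 : minpoly F (algebraMap (𝓞 L) L θ) = (minpoly (𝓞 F) θ).map (algebraMap (𝓞 F) F) :=
    minpoly.isIntegrallyClosed_eq_field_fractions F L hint
  have h2 : (minpoly F (algebraMap (𝓞 L) L θ)).natDegree = (minpoly (𝓞 F) θ).natDegree := by
    rw [h1, (minpoly.monic hint).natDegree_map]
  have hint2 : IsIntegral F (algebraMap (𝓞 L) L θ) := Algebra.IsIntegral.isIntegral _
  have h3 : (PowerBasis.ofAdjoinEqTop hint2 h.top).dim =
      (minpoly F (algebraMap (𝓞 L) L θ)).natDegree := PowerBasis.ofAdjoinEqTop_dim hint2 h.top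
  have h4 := (PowerBasis.ofAdjoinEqTop hint2 h.top).finrank
  rw [← h.deg, h4, h3, h2]

/-- the discriminant -/
theorem Gen.discr {f : (𝓞 F)[X]} {θ : 𝓞 L} (h : Gen f θ) (hf : f.Monic) :
    ∃ d : 𝓞 F, d ≠ 0 ∧ (∀ β : 𝓞 L, ∃ P : (𝓞 F)[X], aeval θ P = algebraMap (𝓞 F) (𝓞 L) d * β) ∧
      |Algebra.norm ℚ (d : F)| = |Algebra.norm ℚ ((aeval θ (derivative f) : 𝓞 L) : L)| := by
  have hint : IsIntegral (𝓞 F) θ := Algebra.IsIntegral.isIntegral θ
  have hint2 : IsIntegral F (algebraMap (𝓞 L) L θ) := Algebra.IsIntegral.isIntegral _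
  have hint3 : IsIntegral (𝓞 F) (algebraMap (𝓞 L) L θ) := hint.algebraMap
  have h1 : minpoly F (algebraMap (𝓞 L) L θ) = f.map (algebraMap (𝓞 F) F) := by
    rw [minpoly.isIntegrallyClosed_eq_field_fractions F L hint, h.minpoly_eq hf]
  obtain ⟨B, hB⟩ : ∃ B : PowerBasis F L, B = PowerBasis.ofAdjoinEqTop hint2 h.top := ⟨_, rfl⟩
  have hgen : B.gen = algebraMap (𝓞 L) L θ := by
    rw [hB]; exact PowerBasis.ofAdjoinEqTop_gen hint2 h.top
  have hBint : IsIntegral (𝓞 F) B.gen := by rw [hgen]; exact hint3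
  have hdi : IsIntegral (𝓞 F) (Algebra.discr F B.basis) := by
    refine Algebra.discr_isIntegral F fun i => ?_
    rw [B.basis_eq_pow]
    exact hBint.pow _
  obtain ⟨d, hd⟩ := (IsIntegrallyClosed.isIntegral_iff (R := 𝓞 F) (K := F)).1 hdi
  have hd0 : Algebra.discr F B.basis ≠ 0 := Algebra.discr_not_zero_of_basis F B.basis
  have hdne : d ≠ 0 := by
    intro h0
    apply hd0
    rw [← hd, h0, map_zero]
  refine ⟨d, hdne, fun β => ?_, ?_⟩
  · have h2 := Algebra.discr_mul_isIntegral_mem_adjoin (R := 𝓞 F) (K := F) (L := L) (B := B) hBint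
      (z := (β : L)) (Algebra.IsIntegral.isIntegral (R := 𝓞 F) β).algebraMap
    rw [Algebra.adjoin_singleton_eq_range_aeval] at h2
    obtain ⟨P, hP⟩ := h2
    refine ⟨P, ?_⟩
    apply RingOfIntegers.ext
    have h3 : (aeval B.gen P : L) = algebraMap (𝓞 L) L (aeval θ P) := by
      rw [hgen, aeval_algebraMap_apply]
    have h4 : aeval B.gen P = Algebra.discr F B.basis • (β : L) := hP
    rw [h3] at h4
    rw [← hd] at h4
    refine h4.trans ?_
    rw [Algebra.smul_def]
    rfl
  · have h5 : Algebra.discr F B.basis = (-1) ^ (Module.finrank F L * (Module.finrank F L - 1) / 2) *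
        Algebra.norm F (aeval B.gen (derivative (minpoly F B.gen))) :=
      Algebra.discr_powerBasis_eq_norm F B
    have h6 : aeval B.gen (derivative (minpoly F B.gen)) =
        ((aeval θ (derivative f) : 𝓞 L) : L) := by
      rw [hgen, h1, derivative_map, aeval_map_algebraMap, aeval_algebraMap_apply]
    have h7 : ((d : 𝓞 F) : F) = Algebra.discr F B.basis := hd
    rw [h7, h5, h6, map_mul, Algebra.norm_norm, abs_mul]
    have h8 : |Algebra.norm ℚ ((-1 : F) ^ (Module.finrank F L * (Module.finrank F L - 1) / 2))| = 1 := by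
      rw [map_pow, abs_pow]
      have : |Algebra.norm ℚ (-1 : F)| = 1 := by
        have h9 : (-1 : F) = algebraMap ℚ F (-1) := by simp
        rw [h9, Algebra.norm_algebraMap, abs_pow]
        simp
      rw [this, one_pow]
    rw [h8, one_mul]

end Pool.Agent.Y693.RF
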