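import Pool.Agent.Y693.RF.EC

/-!
# Mean values of the traces of Frobenius in quadratic pencils of cubics
-/

set_option autoImplicit false

open Finset NumberField IsDedekindDomain Polynomial Filter
open Pool.Agent.H921R2.TatePole (nm two_le_nm below deg nm_eq nm_summable fiber_card_le
  summable_primes_rpow card_above below_le_nm)
open Pool.Agent.Y770.EP (finite_quot card_quot FN mem_FN GG mem_GG FP mem_FP card_FP nm_mem Sys SP
  PR mem_PR nm_pos' Good pts tv tv_congr GD EL EL_sub EL_le EG fac PP LL LL_eq PP_exp PP_ne PP_eq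
  norm_sum_γ half_of_four nm_half EG_summable tv_bad coprime_notMem)

namespace Pool.Agent.Y693.RF

section ff
variable {k : Type*} [Field k] [Fintype k] [DecidableEq k]

lemma abs_char_le (x : k) : |quadraticChar k x| ≤ 1 := by
  by_cases hx : x = 0
  · rw [hx]; simp
  · rcases quadraticChar_dichotomy hx with h | h <;> rw [h] <;> norm_num

lemma abs_sum_char_le (g : k → k) : |∑ r : k, quadraticChar k (g r)| ≤ Fintype.card k := by
  refine (Finset.abs_sum_le_sum_abs _ _).trans ?_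
  refine (Finset.sum_le_card_nsmul _ _ 1 fun r _ => abs_char_le _).trans ?_
  rw [card_univ]
  simp

/-- at most one root -/
lemma card_lin {u v : k} (h : ¬ (u = 0 ∧ v = 0)) : (#{x : k | u * x + v = 0}) ≤ 1 := by
  rw [Finset.card_le_one]
  intro x hx y hy
  rw [mem_filter] at hx hy
  by_cases hu : u = 0
  · exfalso
    apply h
    refine ⟨hu, ?_⟩
    have := hx.2
    rwa [hu, zero_mul, zero_add] at this
  · have h1 : u * (x - y) = 0 := by linear_combination hx.2 - hy.2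
    exact sub_eq_zero.1 ((mul_eq_zero.1 h1).resolve_left hu)

omit [Fintype k] [DecidableEq k] in
lemma coeff_four (a b c d e : k) :
    (C a * X ^ 4 + C b * X ^ 3 + C c * X ^ 2 + C d * X + C e : k[X]).coeff 4 = a := by
  simp [coeff_X, coeff_C, coeff_X_pow]

omit [Fintype k] [DecidableEq k] in
lemma coeff_three (a b c d e : k) :
    (C a * X ^ 4 + C b * X ^ 3 + C c * X ^ 2 + C d * X + C e : k[X]).coeff 3 = b := by
  simp [coeff_X, coeff_C, coeff_X_pow]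

/-- at most four roots -/
lemma card_disc (hk : ringChar k ≠ 2) {p0 p1 p2 q0 q1 q2 : k} (h : ¬ (p2 = 0 ∧ q2 = 0)) :
    (#{x : k | (p1 * x + q1) ^ 2 - 4 * (p2 * x + q2) * (x ^ 3 + p0 * x + q0) = 0}) ≤ 4 := by
  have h2 : (2 : k) ≠ 0 := Ring.two_ne_zero hk
  have h4 : (4 : k) ≠ 0 := by
    have : (4 : k) = 2 ^ 2 := by norm_num
    rw [this]; exact pow_ne_zero _ h2
  obtain ⟨D, hD⟩ : ∃ D : k[X], D = C (-(4 * p2)) * X ^ 4 + C (-(4 * q2)) * X ^ 3 +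
    C (p1 ^ 2 - 4 * p2 * p0) * X ^ 2 + C (2 * p1 * q1 - 4 * p2 * q0 - 4 * q2 * p0) * X +
    C (q1 ^ 2 - 4 * q2 * q0) := ⟨_, rfl⟩
  have hdeg : D.natDegree ≤ 4 := by
    rw [hD]
    compute_degree
  have hc4 : D.coeff 4 = -(4 * p2) := by rw [hD]; exact coeff_four _ _ _ _ _
  have hc3 : D.coeff 3 = -(4 * q2) := by rw [hD]; exact coeff_three _ _ _ _ _
  have hne : D ≠ 0 := by
    intro h0
    apply h
    rw [h0, coeff_zero] at hc4 hc3
    constructor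
    · have : 4 * p2 = 0 := neg_eq_zero.1 hc4.symm
      exact (mul_eq_zero.1 this).resolve_left h4
    · have : 4 * q2 = 0 := neg_eq_zero.1 hc3.symm
      exact (mul_eq_zero.1 this).resolve_left h4
  have hsub : ({x : k | (p1 * x + q1) ^ 2 - 4 * (p2 * x + q2) * (x ^ 3 + p0 * x + q0) = 0} : Finset k) ⊆
      D.roots.toFinset := by
    intro x hx
    rw [mem_filter] at hx
    rw [Multiset.mem_toFinset, mem_roots hne, IsRoot.def, hD]
    simp only [eval_add, eval_mul, eval_C, eval_pow, eval_X]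
    linear_combination hx.2
  refine (card_le_card hsub).trans ?_
  exact (Multiset.toFinset_card_le _).trans ((card_roots' _).trans hdeg)

/-- **The double character sum of a quadratic pencil of cubics.** -/
theorem biv_sum (hk : ringChar k ≠ 2) {p0 p1 p2 q0 q1 q2 : k}
    (h : ¬ (p1 = 0 ∧ p2 = 0 ∧ q1 = 0 ∧ q2 = 0)) :
    |∑ r : k, ∑ x : k, quadraticChar k (x ^ 3 + (p0 + p1 * r + p2 * r ^ 2) * x +
      (q0 + q1 * r + q2 * r ^ 2))| ≤ 6 * Fintype.card k := by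
  rw [Finset.sum_comm]
  have hG : ∀ x : k, ∑ r : k, quadraticChar k (x ^ 3 + (p0 + p1 * r + p2 * r ^ 2) * x +
      (q0 + q1 * r + q2 * r ^ 2)) = ∑ r : k, quadraticChar k ((p2 * x + q2) * r ^ 2 +
        (p1 * x + q1) * r + (x ^ 3 + p0 * x + q0)) := by
    intro x
    refine Finset.sum_congr rfl fun r _ => ?_
    congr 1
    ring
  simp_rw [hG]
  have hq0 : (0 : ℤ) ≤ Fintype.card k := Int.natCast_nonneg _
  by_cases h2 : p2 = 0 ∧ q2 = 0
  · have h1 : ¬ (p1 = 0 ∧ q1 = 0) := fun h' => h ⟨h'.1, h2.1, h'.2, h2.2⟩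
    have h3 : ∀ x : k, |∑ r : k, quadraticChar k ((p2 * x + q2) * r ^ 2 +
        (p1 * x + q1) * r + (x ^ 3 + p0 * x + q0))| ≤ if p1 * x + q1 = 0 then
          (Fintype.card k : ℤ) else 0 := by
      intro x
      split_ifs with hx
      · exact abs_sum_char_le _
      · have h4 : ∑ r : k, quadraticChar k ((p2 * x + q2) * r ^ 2 +
            (p1 * x + q1) * r + (x ^ 3 + p0 * x + q0)) = ∑ r : k, quadraticChar k r := by
          rw [h2.1, h2.2]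
          refine Fintype.sum_equiv ((Equiv.mulLeft₀ (p1 * x + q1) hx).trans
            (Equiv.addRight (x ^ 3 + p0 * x + q0))) _ _ fun r => ?_
          congr 1
          show (0 * x + 0) * r ^ 2 + (p1 * x + q1) * r + (x ^ 3 + p0 * x + q0) =
            (p1 * x + q1) * r + (x ^ 3 + p0 * x + q0)
          ring
        rw [h4, quadraticChar_sum_zero hk, abs_zero]
    refine (Finset.abs_sum_le_sum_abs _ _).trans ?_
    refine (Finset.sum_le_sum fun x _ => h3 x).trans ?_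
    rw [← Finset.sum_filter, Finset.sum_const, nsmul_eq_mul]
    have h5 : ((#{x : k | p1 * x + q1 = 0} : ℕ) : ℤ) ≤ 1 := by exact_mod_cast card_lin h1
    nlinarith
  · have h3 : ∀ x : k, |∑ r : k, quadraticChar k ((p2 * x + q2) * r ^ 2 +
        (p1 * x + q1) * r + (x ^ 3 + p0 * x + q0))| ≤ 1 + (if p2 * x + q2 = 0 then
          (Fintype.card k : ℤ) else 0) + (if (p1 * x + q1) ^ 2 - 4 * (p2 * x + q2) *
            (x ^ 3 + p0 * x + q0) = 0 then (Fintype.card k : ℤ) else 0) := by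
      intro x
      have hq1 : (1 : ℤ) ≤ Fintype.card k := by exact_mod_cast Fintype.card_pos
      by_cases hx : p2 * x + q2 = 0
      · rw [if_pos hx]
        refine (abs_sum_char_le _).trans ?_
        split_ifs <;> linarith
      · rw [if_neg hx, W165.CE.sum_quad hk _ _ _ hx, abs_mul]
        have h4 : |quadraticChar k (p2 * x + q2)| ≤ 1 := abs_char_le _
        refine (mul_le_of_le_one_left (abs_nonneg _) h4).trans ?_
        split_ifs with hD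
        · rw [abs_of_nonneg (by linarith)]
          linarith
        · simp
    refine (Finset.abs_sum_le_sum_abs _ _).trans ?_
    refine (Finset.sum_le_sum fun x _ => h3 x).trans ?_
    rw [Finset.sum_add_distrib, Finset.sum_add_distrib, ← Finset.sum_filter, ← Finset.sum_filter,
      Finset.sum_const, Finset.sum_const, Finset.sum_const, nsmul_eq_mul, nsmul_eq_mul, nsmul_eq_mul,
      card_univ]
    have h5 : ((#{x : k | p2 * x + q2 = 0} : ℕ) : ℤ) ≤ 1 := by exact_mod_cast card_lin h2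
    have h6 : ((#{x : k | (p1 * x + q1) ^ 2 - 4 * (p2 * x + q2) * (x ^ 3 + p0 * x + q0) = 0} : ℕ) : ℤ) ≤ 4 := by
      exact_mod_cast card_disc hk h2
    nlinarith

end ff

section one
variable {F : Type} [Field F] [NumberField F]

lemma sum_range_field {v : HeightOneSpectrum (𝓞 F)} {p : ℕ} (hp : p.Prime) (hv : nm v = p)
    [Fintype (𝓞 F ⧸ v.asIdeal)] (G : 𝓞 F ⧸ v.asIdeal → ℝ) :
    ∑ j ∈ range p, G (Ideal.Quotient.mk v.asIdeal ((j : ℕ) : 𝓞 F)) = ∑ r, G r := by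
  refine Finset.sum_nbij (fun j : ℕ => Ideal.Quotient.mk v.asIdeal ((j : ℕ) : 𝓞 F)) ?_ ?_ ?_ ?_
  · intro j _; exact mem_univ _
  · intro i hi j hj hij
    exact nat_unique v hp hv (by simpa using hi) (by simpa using hj) (Ideal.Quotient.eq.1 hij)
  · intro r _
    obtain ⟨β, rfl⟩ := Ideal.Quotient.mk_surjective r
    obtain ⟨j, hj, hjv⟩ := exists_nat v hp hv β
    exact ⟨j, by simpa using hj, (Ideal.Quotient.eq.2 hjv).symm⟩
  · intro j _; rfl

lemma eval_quad {P : (𝓞 F)[X]} (hP : P.natDegree ≤ 2) (x : 𝓞 F) :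
    P.eval x = P.coeff 0 + P.coeff 1 * x + P.coeff 2 * x ^ 2 := by
  rw [eval_eq_sum_range' (show P.natDegree < 3 by omega), Finset.sum_range_succ,
    Finset.sum_range_succ, Finset.sum_range_one]
  ring

lemma six_notMem {v : HeightOneSpectrum (𝓞 F)} {p : ℕ} (hp : p.Prime) (hv : nm v = p) (h3 : 3 < p) :
    (6 : 𝓞 F) ∉ v.asIdeal := by
  have h5 : (6 : ℕ).Coprime (nm v) := by
    rw [hv]
    have e1 : (2 : ℕ).Coprime p := (Nat.coprime_primes Nat.prime_two hp).2 (by omega)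
    have e2 : (3 : ℕ).Coprime p := (Nat.coprime_primes Nat.prime_three hp).2 (by omega)
    exact Nat.Coprime.mul_left e1 e2
  have := coprime_notMem h5
  exact_mod_cast this

/-- **The mean value of the traces.** -/
theorem mean_tv {P Q : (𝓞 F)[X]} (hP : P.natDegree ≤ 2) (hQ : Q.natDegree ≤ 2)
    {v : HeightOneSpectrum (𝓞 F)} {p : ℕ} (hp : p.Prime) (hv : nm v = p) (h3 : 3 < p)
    (hne : ¬ (P.coeff 1 ∈ v.asIdeal ∧ P.coeff 2 ∈ v.asIdeal ∧ Q.coeff 1 ∈ v.asIdeal ∧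
      Q.coeff 2 ∈ v.asIdeal)) :
    |∑ j ∈ range p, tv (P.eval ((j : ℕ) : 𝓞 F)) (Q.eval ((j : ℕ) : 𝓞 F)) v| ≤ 6 * √p := by
  classical
  have : v.asIdeal.IsMaximal := v.isMaximal
  have hfin := finite_quot v
  let _ : Fintype (𝓞 F ⧸ v.asIdeal) := Fintype.ofFinite _
  have hcard : Fintype.card (𝓞 F ⧸ v.asIdeal) = p := by
    rw [← hv, ← card_quot, Nat.card_eq_fintype_card]
  let _ : Field (𝓞 F ⧸ v.asIdeal) := Ideal.Quotient.field v.asIdeal
  have hchar : ringChar (𝓞 F ⧸ v.asIdeal) ≠ 2 := by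
    intro hc
    have h6 := six_notMem hp hv h3
    apply h6
    rw [← Ideal.Quotient.eq_zero_iff_mem]
    have h7 := ringChar.Nat.cast_ringChar (R := 𝓞 F ⧸ v.asIdeal)
    rw [hc] at h7
    have h8 : (Ideal.Quotient.mk v.asIdeal) (6 : 𝓞 F) = ((2 : ℕ) : 𝓞 F ⧸ v.asIdeal) * 3 := by
      rw [map_ofNat]; norm_num
    rw [h8, h7, zero_mul]
  set φ := Ideal.Quotient.mk v.asIdeal with hφ
  set p0 := φ (P.coeff 0)
  set p1 := φ (P.coeff 1)
  set p2 := φ (P.coeff 2)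
  set q0 := φ (Q.coeff 0)
  set q1 := φ (Q.coeff 1)
  set q2 := φ (Q.coeff 2)
  have hne' : ¬ (p1 = 0 ∧ p2 = 0 ∧ q1 = 0 ∧ q2 = 0) := by
    rintro ⟨h1, h2, h4, h5⟩
    exact hne ⟨Ideal.Quotient.eq_zero_iff_mem.1 h1, Ideal.Quotient.eq_zero_iff_mem.1 h2,
      Ideal.Quotient.eq_zero_iff_mem.1 h4, Ideal.Quotient.eq_zero_iff_mem.1 h5⟩
  obtain ⟨G, hG⟩ : ∃ G : 𝓞 F ⧸ v.asIdeal → ℝ, G = fun r : 𝓞 F ⧸ v.asIdeal =>
      -((∑ x : 𝓞 F ⧸ v.asIdeal, quadraticChar (𝓞 F ⧸ v.asIdeal)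
        (x ^ 3 + (p0 + p1 * r + p2 * r ^ 2) * x + (q0 + q1 * r + q2 * r ^ 2)) : ℤ) : ℝ) / √p := ⟨_, rfl⟩
  have hterm : ∀ j : ℕ, tv (P.eval ((j : ℕ) : 𝓞 F)) (Q.eval ((j : ℕ) : 𝓞 F)) v =
      G (Ideal.Quotient.mk v.asIdeal ((j : ℕ) : 𝓞 F)) := by
    intro j
    rw [hG]
    dsimp only
    have hc := Pool.Agent.H82R3.EK.card_points hchar (fun x : 𝓞 F ⧸ v.asIdeal =>
      x ^ 3 + φ (P.eval ((j : ℕ) : 𝓞 F)) * x + φ (Q.eval ((j : ℕ) : 𝓞 F)))
    have hc2 := congrArg (fun z : ℤ => (z : ℝ)) hc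
    push_cast at hc2
    have e1 : φ (P.eval ((j : ℕ) : 𝓞 F)) = p0 + p1 * φ ((j : ℕ) : 𝓞 F) + p2 * φ ((j : ℕ) : 𝓞 F) ^ 2 := by
      rw [eval_quad hP]; simp only [map_add, map_mul, map_pow]; rfl
    have e2 : φ (Q.eval ((j : ℕ) : 𝓞 F)) = q0 + q1 * φ ((j : ℕ) : 𝓞 F) + q2 * φ ((j : ℕ) : 𝓞 F) ^ 2 := by
      rw [eval_quad hQ]; simp only [map_add, map_mul, map_pow]; rfl
    have e3 : ((pts (P.eval ((j : ℕ) : 𝓞 F)) (Q.eval ((j : ℕ) : 𝓞 F)) v : ℕ) : ℝ) =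
        (Fintype.card (𝓞 F ⧸ v.asIdeal) : ℝ) + ∑ x : 𝓞 F ⧸ v.asIdeal,
          ((quadraticChar (𝓞 F ⧸ v.asIdeal) (x ^ 3 + φ (P.eval ((j : ℕ) : 𝓞 F)) * x +
            φ (Q.eval ((j : ℕ) : 𝓞 F))) : ℤ) : ℝ) := hc2
    unfold tv
    rw [e3, hcard, hv, e1, e2, ← hφ]
    push_cast
    congr 1
    ring
  rw [Finset.sum_congr rfl fun j _ => hterm j, sum_range_field hp hv G, hG]
  have hb := biv_sum hchar (p0 := p0) (q0 := q0) hne'
  rw [hcard] at hb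
  have hb2 : |((∑ r : 𝓞 F ⧸ v.asIdeal, ∑ x : 𝓞 F ⧸ v.asIdeal, quadraticChar (𝓞 F ⧸ v.asIdeal)
        (x ^ 3 + (p0 + p1 * r + p2 * r ^ 2) * x + (q0 + q1 * r + q2 * r ^ 2)) : ℤ) : ℝ)| ≤ 6 * p := by
    exact_mod_cast hb
  rw [← Finset.sum_div, Finset.sum_neg_distrib, abs_div, abs_neg, ← Int.cast_sum]
  have hp0 : (0 : ℝ) < p := by exact_mod_cast hp.pos
  have hs : 0 < √(p : ℝ) := Real.sqrt_pos.2 hp0
  rw [abs_of_pos hs, div_le_iff₀ hs, mul_assoc, Real.mul_self_sqrt hp0.le]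
  exact hb2

/-- **The mean value of the coefficients.** -/
theorem mean_ta {N : ℕ} {P Q : (𝓞 F)[X]} (hP : P.natDegree ≤ 2) (hQ : Q.natDegree ≤ 2)
    {γ : HeightOneSpectrum (𝓞 F) → Fin N → ℂ} (hγ : ∀ w j, ‖γ w j‖ ≤ 1)
    {v : HeightOneSpectrum (𝓞 F)} {p : ℕ} (hp : p.Prime) (hv : nm v = p) (h3 : 3 < p)
    (hne : ¬ (P.coeff 1 ∈ v.asIdeal ∧ P.coeff 2 ∈ v.asIdeal ∧ Q.coeff 1 ∈ v.asIdeal ∧
      Q.coeff 2 ∈ v.asIdeal)) :
    ‖mu (fun j => ta (P.eval ((j : ℕ) : 𝓞 F)) (Q.eval ((j : ℕ) : 𝓞 F)) γ v) p‖ ≤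
      7 * N * (p : ℝ) ^ (-(1 / 2) : ℝ) := by
  classical
  have hp0 : (0 : ℝ) < p := by exact_mod_cast hp.pos
  have hs : 0 < √(p : ℝ) := Real.sqrt_pos.2 hp0
  have h1 : ∑ j ∈ range p, ta (P.eval ((j : ℕ) : 𝓞 F)) (Q.eval ((j : ℕ) : 𝓞 F)) γ v =
      ((∑ j ∈ range p, tv (P.eval ((j : ℕ) : 𝓞 F)) (Q.eval ((j : ℕ) : 𝓞 F)) v -
        ∑ j ∈ (range p).filter (fun j : ℕ => ¬ GD (P.eval ((j : ℕ) : 𝓞 F)) (Q.eval ((j : ℕ) : 𝓞 F)) v),
          tv (P.eval ((j : ℕ) : 𝓞 F)) (Q.eval ((j : ℕ) : 𝓞 F)) v : ℝ) : ℂ) * ∑ j, γ v j := by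
    have e1 : ∑ j ∈ range p, tv (P.eval ((j : ℕ) : 𝓞 F)) (Q.eval ((j : ℕ) : 𝓞 F)) v -
        ∑ j ∈ (range p).filter (fun j : ℕ => ¬ GD (P.eval ((j : ℕ) : 𝓞 F)) (Q.eval ((j : ℕ) : 𝓞 F)) v),
          tv (P.eval ((j : ℕ) : 𝓞 F)) (Q.eval ((j : ℕ) : 𝓞 F)) v =
        ∑ j ∈ (range p).filter (fun j : ℕ => GD (P.eval ((j : ℕ) : 𝓞 F)) (Q.eval ((j : ℕ) : 𝓞 F)) v),
          tv (P.eval ((j : ℕ) : 𝓞 F)) (Q.eval ((j : ℕ) : 𝓞 F)) v := by
      rw [sub_eq_iff_eq_add, Finset.sum_filter_add_sum_filter_not]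
    rw [e1, Finset.sum_filter]
    push_cast
    rw [Finset.sum_mul]
    refine Finset.sum_congr rfl fun j _ => ?_
    unfold ta
    split_ifs
    · rfl
    · simp
  have h2 : |∑ j ∈ (range p).filter (fun j : ℕ => ¬ GD (P.eval ((j : ℕ) : 𝓞 F))
      (Q.eval ((j : ℕ) : 𝓞 F)) v), tv (P.eval ((j : ℕ) : 𝓞 F)) (Q.eval ((j : ℕ) : 𝓞 F)) v| ≤ √p := by
    refine (Finset.abs_sum_le_sum_abs _ _).trans ?_
    refine (Finset.sum_le_card_nsmul _ _ (1 / √p) fun j hj => ?_).trans ?_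
    · rw [mem_filter] at hj
      have := tv_bad (six_notMem hp hv h3) (not_not.1 hj.2)
      rwa [hv] at this
    · rw [nsmul_eq_mul]
      have h4 : (((range p).filter (fun j : ℕ => ¬ GD (P.eval ((j : ℕ) : 𝓞 F))
        (Q.eval ((j : ℕ) : 𝓞 F)) v)).card : ℝ) ≤ p := by
        have := card_filter_le (range p) (fun j : ℕ => ¬ GD (P.eval ((j : ℕ) : 𝓞 F))
          (Q.eval ((j : ℕ) : 𝓞 F)) v)
        rw [card_range] at this
        exact_mod_cast this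
      calc _ ≤ (p : ℝ) * (1 / √p) := mul_le_mul_of_nonneg_right h4 (by positivity)
        _ = √p := by
            rw [mul_one_div, Real.div_sqrt]
  have h4 := mean_tv hP hQ hp hv h3 hne
  unfold mu
  rw [norm_div, Complex.norm_natCast, div_le_iff₀ hp0, h1, norm_mul, Complex.norm_real]
  have h5 : |∑ j ∈ range p, tv (P.eval ((j : ℕ) : 𝓞 F)) (Q.eval ((j : ℕ) : 𝓞 F)) v -
        ∑ j ∈ (range p).filter (fun j : ℕ => ¬ GD (P.eval ((j : ℕ) : 𝓞 F)) (Q.eval ((j : ℕ) : 𝓞 F)) v),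
          tv (P.eval ((j : ℕ) : 𝓞 F)) (Q.eval ((j : ℕ) : 𝓞 F)) v| ≤ 7 * √p := by
    refine (abs_sub _ _).trans ?_
    linarith
  calc _ ≤ (7 * √p) * N := mul_le_mul h5 (norm_sum_γ hγ v) (norm_nonneg _) (by positivity)
    _ = 7 * N * (p : ℝ) ^ (-(1 / 2) : ℝ) * p := by
        have e1 : (p : ℝ) ^ (-(1 / 2) : ℝ) * p = √p := by
          rw [Real.rpow_neg hp0.le, ← Real.sqrt_eq_rpow, inv_mul_eq_div, Real.div_sqrt]
        rw [mul_assoc (7 * (N : ℝ)), e1]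
        ring

end one

end Pool.Agent.Y693.RF
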