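import Pool.Agent.Y693.RF.Tail

/-!
# The logarithms of the quotients of the Euler products
-/

set_option autoImplicit false

open Finset NumberField IsDedekindDomain Polynomial
open Pool.Agent.H921R2.TatePole (nm two_le_nm below deg nm_eq nm_summable fiber_card_le
  summable_primes_rpow card_above below_le_nm)
open Pool.Agent.Y770.EP (finite_quot card_quot FN mem_FN GG mem_GG FP mem_FP card_FP nm_mem Sys SP
  PR mem_PR nm_pos' Good)

namespace Pool.Agent.Y693.RF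

/-- local data: the first order coefficients and the logarithms of the local factors -/
structure LD {M : Type} [Field M] [NumberField M] (C₀ : ℝ) (τ : HeightOneSpectrum (𝓞 M) → ℂ)
    (ℓ : ℂ → HeightOneSpectrum (𝓞 M) → ℂ) : Prop where
  le : ∀ w, ‖τ w‖ ≤ C₀
  sub : ∀ z w, 1 / 2 ≤ z.re → 4 ≤ nm w →
    ‖ℓ z w - τ w * (nm w : ℂ) ^ (-z)‖ ≤ C₀ * (nm w : ℝ) ^ (-(2 * z.re))
  bd : ∀ z w, 1 ≤ z.re → ‖ℓ z w‖ ≤ C₀ * (nm w : ℝ) ^ (-z.re)

variable {F : Type} [Field F] [NumberField F]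

/-- the mean values are close to `τ` -/
def MH (R C₀ : ℝ) (T : HeightOneSpectrum (𝓞 F) → ℕ → ℂ) (τ : HeightOneSpectrum (𝓞 F) → ℂ) : Prop :=
  ∃ d : 𝓞 F, d ≠ 0 ∧ (∀ σ : F →+* ℂ, ‖σ (d : F)‖ ≤ R) ∧
    ∀ v : HeightOneSpectrum (𝓞 F), (nm v).Prime → 3 < nm v → d ∉ v.asIdeal →
      ‖mu (T v) (nm v) - τ v‖ ≤ C₀ * (nm v : ℝ) ^ (-(1 / 2) : ℝ)

open Classical in
/-- the mean values -/
lemma mean_le {R C₀ δ : ℝ} (hC : 0 ≤ C₀) (hδ : 0 < δ) {T : HeightOneSpectrum (𝓞 F) → ℕ → ℂ}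
    {τ : HeightOneSpectrum (𝓞 F) → ℂ} (hT : ∀ v j, ‖T v j‖ ≤ C₀) (hτ : ∀ v, ‖τ v‖ ≤ C₀)
    (h : MH R C₀ T τ) {z : ℂ} (hz : 1 / 2 + δ ≤ z.re) {y : ℕ} (x : ℕ) (hy : 3 ≤ y) :
    ‖∑ v ∈ (GG F y x).filter (fun v => (nm v).Prime),
      (mu (T v) (nm v) - τ v) * (nm v : ℂ) ^ (-z)‖ ≤
      C₀ * (Module.finrank ℚ F * PS (δ / 2)) * (y : ℝ) ^ (-(δ / 2)) +
      Module.finrank ℚ F * Real.log R * (2 * C₀) * (y : ℝ) ^ (-(1 / 2) : ℝ) := by
  obtain ⟨d, hd0, hdR, hdv⟩ := h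
  have hy0 : (0 : ℝ) < y := by exact_mod_cast (by omega : 0 < y)
  set S := (GG F y x).filter (fun v => (nm v).Prime) with hS
  rw [← Finset.sum_filter_add_sum_filter_not S (fun v => d ∉ v.asIdeal)]
  refine (norm_add_le _ _).trans (add_le_add ?_ ?_)
  · refine (norm_sum_le _ _).trans ?_
    refine (Finset.sum_le_sum (g := fun v => C₀ * (nm v : ℝ) ^ (-(1 + δ))) fun v hv => ?_).trans ?_
    · rw [mem_filter, hS, mem_filter, mem_GG] at hv
      rw [norm_mul, norm_cpow]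
      have h1 := hdv v hv.1.2 (by omega) hv.2
      calc ‖mu (T v) (nm v) - τ v‖ * (nm v : ℝ) ^ (-z.re)
          ≤ (C₀ * (nm v : ℝ) ^ (-(1 / 2) : ℝ)) * (nm v : ℝ) ^ (-(1 / 2 + δ)) := by
            refine mul_le_mul h1 ?_ (by positivity) (by positivity)
            exact Real.rpow_le_rpow_of_exponent_le (nm_one v) (by linarith)
        _ = C₀ * (nm v : ℝ) ^ (-(1 + δ)) := by
            rw [mul_assoc, ← Real.rpow_add (nm_pos' v)]
            congr 2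
            ring
    · rw [← Finset.mul_sum, mul_assoc]
      refine mul_le_mul_of_nonneg_left ?_ hC
      refine sum_pow_large (by positivity) (by positivity) (by linarith) (by omega) _ fun v hv => ?_
      rw [mem_filter, hS, mem_filter, mem_GG] at hv
      exact hv.1.1.1
  · refine (norm_sum_le _ _).trans ?_
    refine (Finset.sum_le_card_nsmul _ _ ((2 * C₀) * (y : ℝ) ^ (-(1 / 2) : ℝ)) fun v hv => ?_).trans ?_
    · rw [mem_filter, hS, mem_filter, mem_GG] at hv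
      rw [norm_mul, norm_cpow]
      refine mul_le_mul ?_ ?_ (by positivity) (by positivity)
      · refine (norm_sub_le _ _).trans ?_
        have h1 := norm_mu (hT v) hv.1.2.pos
        linarith [hτ v]
      · calc (nm v : ℝ) ^ (-z.re) ≤ (nm v : ℝ) ^ (-(1 / 2) : ℝ) :=
            Real.rpow_le_rpow_of_exponent_le (nm_one v) (by linarith)
          _ ≤ (y : ℝ) ^ (-(1 / 2) : ℝ) :=
            Real.rpow_le_rpow_of_nonpos hy0 (by exact_mod_cast hv.1.1.1.le) (by norm_num)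
    · rw [nsmul_eq_mul, ← mul_assoc]
      refine mul_le_mul_of_nonneg_right ?_ (by positivity)
      refine mul_le_mul_of_nonneg_right ?_ (by positivity)
      have h1 := norm_le hdR
      have h2 := card_bad hd0 h1 hy (S.filter fun v => ¬ d ∉ v.asIdeal) (fun v hv => by
        rw [mem_filter, hS, mem_filter, mem_GG] at hv
        exact ⟨not_not.1 hv.2, hv.1.1.1⟩)
      rwa [Real.log_pow] at h2

variable {L : Type} [Field L] [NumberField L] [Algebra F L]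

/-- **The logarithm of a piece of the quotient of the Euler products.** -/
theorem strip {f : (𝓞 F)[X]} (hf : f.Monic) (hn : 0 < f.natDegree) {t : ℤ} {θ : 𝓞 L}
    (h : Gen (f + C (t : 𝓞 F)) θ) {H : ℝ} (hH : 1 ≤ H)
    (hc : ∀ i, ∀ σ : F →+* ℂ, ‖σ ((f + C (t : 𝓞 F)).coeff i : F)‖ ≤ H)
    {T : HeightOneSpectrum (𝓞 F) → ℕ → ℂ} {C₀ R δ c : ℝ} (hC : 0 ≤ C₀) (hδ : 0 < δ)
    (hT : ∀ v j, ‖T v j‖ ≤ C₀) {N : ℕ} (hG : Good δ c N fun p => gg f T p t)
    {τL : HeightOneSpectrum (𝓞 L) → ℂ} {ℓL : ℂ → HeightOneSpectrum (𝓞 L) → ℂ}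
    (hL : LD C₀ τL ℓL)
    {τF : HeightOneSpectrum (𝓞 F) → ℂ} {ℓF : ℂ → HeightOneSpectrum (𝓞 F) → ℂ}
    (hF : LD C₀ τF ℓF)
    (hτ : ∀ w : HeightOneSpectrum (𝓞 L), (nm w).Prime → ∀ j ∈ range (nm w),
      θ - ((j : ℕ) : 𝓞 L) ∈ w.asIdeal → τL w = T (und w) j)
    (hM : MH R C₀ T τF) {z : ℂ} (hz : 1 / 2 + δ ≤ z.re) (hz2 : |z.im| ≤ (N : ℝ) ^ c)
    {y x : ℕ} (hy4 : 4 ≤ y) (hy : (Real.log N) ^ (4 / δ) ≤ y) (hx : (x : ℝ) ≤ (N : ℝ) ^ c) :
    ‖∑ w ∈ GG L y x, ℓL z w - ∑ v ∈ GG F y x, ℓF z v‖ ≤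
      (2 * C₀ * (Module.finrank ℚ L * PS δ) + 2 * C₀ * (Module.finrank ℚ F * PS δ) +
        C₀ * (Module.finrank ℚ F * PS (δ / 2))) * (y : ℝ) ^ (-(δ / 2)) +
      ((Module.finrank ℚ L * (f.natDegree + 2) * Real.log ((f.natDegree + 1) * H)) *
        ((Module.finrank ℚ L + f.natDegree) * C₀) + Module.finrank ℚ F * Real.log R * (2 * C₀)) *
        (y : ℝ) ^ (-(1 / 2) : ℝ) + (y : ℝ) ^ (-(δ / 16)) := by
  classical
  have hmon := monic_add hf hn (t : 𝓞 F)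
  obtain ⟨d, hd, hdβ⟩ := h.bad hmon hH hc
  rw [natDegree_add_C] at hdβ
  have hy0 : (0 : ℝ) < y := by exact_mod_cast (by omega : 0 < y)
  have e1 := second (M := L) hC hδ hz (τ := τL) (ℓ := ℓL z) hL.le (y := y) x (by omega)
    fun w hw => hL.sub z w (by linarith) (by omega)
  have e2 := second (M := F) hC hδ hz (τ := τF) (ℓ := ℓF z) hF.le (y := y) x (by omega)
    fun w hw => hF.sub z w (by linarith) (by omega)
  have e3 := core hf hn h hd hC hT hL.le hτ (z := z) (by linarith) x (by omega : 1 ≤ y)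
    (hdβ y (by omega))
  have e4 := mean_le hC hδ hT hF.le hM hz x (by omega : 3 ≤ y)
  have e5 := hG z hz hz2 y x hy hx
  set SL := ∑ w ∈ GG L y x, ℓL z w
  set SF := ∑ v ∈ GG F y x, ℓF z v
  set PL := ∑ w ∈ (GG L y x).filter (fun w => (nm w).Prime), τL w * (nm w : ℂ) ^ (-z)
  set PF := ∑ w ∈ (GG F y x).filter (fun w => (nm w).Prime), τF w * (nm w : ℂ) ^ (-z)
  set SM := ∑ v ∈ (GG F y x).filter (fun v => (nm v).Prime), mu (T v) (nm v) * (nm v : ℂ) ^ (-z)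
    with hSM
  set SS := SP (fun p => gg f T p t) z y x
  have e6 : ∑ v ∈ (GG F y x).filter (fun v => (nm v).Prime),
      (mu (T v) (nm v) - τF v) * (nm v : ℂ) ^ (-z) = SM - PF := by
    rw [hSM, ← Finset.sum_sub_distrib]
    exact Finset.sum_congr rfl fun v _ => by ring
  rw [e6] at e4
  have e7 : SL - SF = (SL - PL) - (SF - PF) + (PL - SM - SS) + (SM - PF) + SS := by ring
  rw [e7]
  calc ‖(SL - PL) - (SF - PF) + (PL - SM - SS) + (SM - PF) + SS‖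
      ≤ ‖SL - PL‖ + ‖SF - PF‖ + ‖PL - SM - SS‖ + ‖SM - PF‖ + ‖SS‖ := by
        refine (norm_add_le _ _).trans (add_le_add_left ?_ _)
        refine (norm_add_le _ _).trans (add_le_add_left ?_ _)
        refine (norm_add_le _ _).trans (add_le_add_left ?_ _)
        exact norm_sub_le _ _
    _ ≤ _ := by linarith

end Pool.Agent.Y693.RF
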