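import Pool.Agent.Y693.RF.Bad

/-!
# The system of the coefficients
-/

set_option autoImplicit false

open Finset NumberField IsDedekindDomain Polynomial
open Pool.Agent.H921R2.TatePole (nm two_le_nm below deg nm_eq nm_summable fiber_card_le
  summable_primes_rpow card_above)
open Pool.Agent.Y770.EP (finite_quot card_quot FN mem_FN GG mem_GG FP mem_FP card_FP nm_mem Sys)

namespace Pool.Agent.Y693.RF

variable {F : Type} [Field F] [NumberField F]

open Classical in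
/-- the roots of `f` modulo `v` -/
noncomputable def rts (f : (𝓞 F)[X]) (v : HeightOneSpectrum (𝓞 F)) (p : ℕ) : Finset ℕ :=
  (range p).filter (fun j : ℕ => f.eval ((j : ℕ) : 𝓞 F) ∈ v.asIdeal)

lemma mem_rts {f : (𝓞 F)[X]} {v : HeightOneSpectrum (𝓞 F)} {p j : ℕ} :
    j ∈ rts f v p ↔ j ∈ range p ∧ f.eval ((j : ℕ) : 𝓞 F) ∈ v.asIdeal := by
  classical
  unfold rts
  rw [mem_filter]

/-- the mean value -/
noncomputable def mu (T : ℕ → ℂ) (p : ℕ) : ℂ := (∑ j ∈ range p, T j) / p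

/-- the coefficients -/
noncomputable def gg (f : (𝓞 F)[X]) (T : HeightOneSpectrum (𝓞 F) → ℕ → ℂ) (p : ℕ) (t : ℤ) : ℂ :=
  ∑ v ∈ FP F p, ((∑ j ∈ rts (f + C (t : 𝓞 F)) v p, T v j) - mu (T v) p)

lemma card_rts {f : (𝓞 F)[X]} (hf : f.Monic) {v : HeightOneSpectrum (𝓞 F)} {p : ℕ} (hp : p.Prime)
    (hv : nm v = p) : (rts f v p).card ≤ f.natDegree := by
  classical
  have : v.asIdeal.IsMaximal := v.isMaximal
  let _ : Field (𝓞 F ⧸ v.asIdeal) := Ideal.Quotient.field v.asIdeal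
  set φ := Ideal.Quotient.mk v.asIdeal
  have hne : f.map φ ≠ 0 := (hf.map φ).ne_zero
  have h1 : ((rts f v p).image fun j : ℕ => φ ((j : ℕ) : 𝓞 F)).card = (rts f v p).card := by
    refine Finset.card_image_of_injOn fun i hi j hj hij => ?_
    rw [Finset.mem_coe, mem_rts] at hi hj
    refine nat_unique v hp hv hi.1 hj.1 ?_
    rw [← Ideal.Quotient.eq]
    exact hij
  have h2 : (rts f v p).image (fun j : ℕ => φ ((j : ℕ) : 𝓞 F)) ⊆ (f.map φ).roots.toFinset := by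
    intro x hx
    obtain ⟨j, hj, rfl⟩ := mem_image.1 hx
    rw [Multiset.mem_toFinset, mem_roots hne, IsRoot.def, eval_map, eval₂_at_apply,
      Ideal.Quotient.eq_zero_iff_mem]
    exact (mem_rts.1 hj).2
  rw [← h1]
  refine (card_le_card h2).trans ?_
  refine (Multiset.toFinset_card_le _).trans ?_
  refine (card_roots' _).trans ?_
  exact natDegree_map_le

lemma norm_sum_rts {f : (𝓞 F)[X]} (hf : f.Monic) {v : HeightOneSpectrum (𝓞 F)} {p : ℕ} (hp : p.Prime)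
    (hv : nm v = p) {T : ℕ → ℂ} {C₀ : ℝ} (hC : 0 ≤ C₀) (hT : ∀ j, ‖T j‖ ≤ C₀) :
    ‖∑ j ∈ rts f v p, T j‖ ≤ f.natDegree * C₀ := by
  refine (norm_sum_le _ _).trans ?_
  refine (Finset.sum_le_card_nsmul _ _ C₀ fun j _ => hT j).trans ?_
  rw [nsmul_eq_mul]
  exact mul_le_mul_of_nonneg_right (by exact_mod_cast card_rts hf hp hv) hC

lemma norm_mu {T : ℕ → ℂ} {C₀ : ℝ} (hT : ∀ j, ‖T j‖ ≤ C₀) {p : ℕ} (hp : 0 < p) :
    ‖mu T p‖ ≤ C₀ := by
  unfold mu
  have hp0 : (0 : ℝ) < p := by exact_mod_cast hp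
  rw [norm_div, Complex.norm_natCast, div_le_iff₀ hp0]
  refine (norm_sum_le _ _).trans ?_
  refine (Finset.sum_le_card_nsmul _ _ C₀ fun j _ => hT j).trans ?_
  rw [card_range, nsmul_eq_mul, mul_comm]

lemma sum_rts (f : (𝓞 F)[X]) {v : HeightOneSpectrum (𝓞 F)} {p : ℕ} (hp : p.Prime)
    (hv : nm v = p) (T : ℕ → ℂ) :
    ∑ t ∈ range p, ∑ j ∈ rts (f + C (((t : ℕ) : ℤ) : 𝓞 F)) v p, T j = ∑ j ∈ range p, T j := by
  classical
  unfold rts
  simp_rw [Finset.sum_filter]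
  rw [Finset.sum_comm]
  refine Finset.sum_congr rfl fun j _ => ?_
  rw [← Finset.sum_filter]
  obtain ⟨t, ht, htv⟩ := exists_nat v hp hv (-(f.eval ((j : ℕ) : 𝓞 F)))
  have h1 : (range p).filter (fun u : ℕ => (f + C (((u : ℕ) : ℤ) : 𝓞 F)).eval ((j : ℕ) : 𝓞 F) ∈
      v.asIdeal) = {t} := by
    ext u
    rw [mem_filter, mem_singleton, eval_add, eval_C, Int.cast_natCast]
    constructor
    · rintro ⟨hu, huv⟩
      refine nat_unique v hp hv hu ht ?_
      have := v.asIdeal.add_mem huv htv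
      have e : eval ((j : ℕ) : 𝓞 F) f + ((u : ℕ) : 𝓞 F) + (-(eval ((j : ℕ) : 𝓞 F) f) - ((t : ℕ) : 𝓞 F)) =
        ((u : ℕ) : 𝓞 F) - ((t : ℕ) : 𝓞 F) := by ring
      rwa [e] at this
    · rintro rfl
      refine ⟨ht, ?_⟩
      have := v.asIdeal.neg_mem_iff.2 htv
      have e : -(-(eval ((j : ℕ) : 𝓞 F) f) - ((u : ℕ) : 𝓞 F)) =
        eval ((j : ℕ) : 𝓞 F) f + ((u : ℕ) : 𝓞 F) := by ring
      rwa [e] at this
  rw [h1, Finset.sum_singleton]

lemma rts_congr (f : (𝓞 F)[X]) {v : HeightOneSpectrum (𝓞 F)} {p : ℕ} (hv : nm v = p) (t : ℤ) :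
    rts (f + C ((t + (p : ℤ) : ℤ) : 𝓞 F)) v p = rts (f + C (t : 𝓞 F)) v p := by
  ext j
  rw [mem_rts, mem_rts]
  refine and_congr_right fun _ => ?_
  rw [eval_add, eval_add, eval_C, eval_C]
  have hpv : ((p : ℕ) : 𝓞 F) ∈ v.asIdeal := by
    have := nm_mem v
    rwa [hv] at this
  have e : eval ((j : ℕ) : 𝓞 F) f + ((t + (p : ℤ) : ℤ) : 𝓞 F) =
      (eval ((j : ℕ) : 𝓞 F) f + (t : 𝓞 F)) + ((p : ℕ) : 𝓞 F) := by
    push_cast; ring
  rw [e]
  exact v.asIdeal.add_mem_iff_left hpv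

lemma monic_add {f : (𝓞 F)[X]} (hf : f.Monic) (hn : 0 < f.natDegree) (c : 𝓞 F) : (f + C c).Monic := by
  refine hf.add_of_left ?_
  refine lt_of_le_of_lt degree_C_le ?_
  exact natDegree_pos_iff_degree_pos.1 hn

theorem sys_gg {f : (𝓞 F)[X]} (hf : f.Monic) (hn : 0 < f.natDegree)
    {T : HeightOneSpectrum (𝓞 F) → ℕ → ℂ} {C₀ : ℝ} (hC : 0 ≤ C₀) (hT : ∀ v j, ‖T v j‖ ≤ C₀) :
    Sys (Module.finrank ℚ F * ((f.natDegree + 1) * C₀) + 1) (gg f T) := by
  refine ⟨fun p hp t => ?_, fun p hp => ?_, fun p hp t => ?_⟩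
  · unfold gg
    refine Finset.sum_congr rfl fun v hv => ?_
    rw [mem_FP] at hv
    rw [rts_congr f hv]
  · unfold gg
    rw [Finset.sum_comm]
    refine Finset.sum_eq_zero fun v hv => ?_
    rw [mem_FP] at hv
    rw [Finset.sum_sub_distrib, sum_rts f hp hv, Finset.sum_const, card_range, nsmul_eq_mul]
    unfold mu
    have hp0 : (p : ℂ) ≠ 0 := by exact_mod_cast hp.ne_zero
    rw [mul_div_cancel₀ _ hp0, sub_self]
  · unfold gg
    refine (norm_sum_le _ _).trans ?_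
    refine (Finset.sum_le_card_nsmul _ _ ((f.natDegree + 1) * C₀) fun v hv => ?_).trans ?_
    · rw [mem_FP] at hv
      refine (norm_sub_le _ _).trans ?_
      have h1 := norm_sum_rts (monic_add hf hn (t : 𝓞 F)) hp hv hC (hT v)
      rw [natDegree_add_C] at h1
      have h2 := norm_mu (hT v) hp.pos
      linarith
    · rw [nsmul_eq_mul]
      have h1 : ((FP F p).card : ℝ) ≤ Module.finrank ℚ F := by exact_mod_cast card_FP hp
      have h2 : (0 : ℝ) ≤ (f.natDegree + 1) * C₀ := by positivity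
      nlinarith

end Pool.Agent.Y693.RF
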