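import Pool.Agent.Y693.RF.Core

/-!
# Tails of the logarithms, uniformly in the field
-/

set_option autoImplicit false

open Finset NumberField IsDedekindDomain Polynomial
open Pool.Agent.H921R2.TatePole (nm two_le_nm below deg nm_eq nm_summable fiber_card_le
  summable_primes_rpow card_above below_le_nm)
open Pool.Agent.Y770.EP (finite_quot card_quot FN mem_FN GG mem_GG FP mem_FP card_FP nm_mem Sys SP
  PR mem_PR nm_pos')

namespace Pool.Agent.Y693.RF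

/-- a prime of `ℚ` above each rational prime -/
lemma exists_rat (p : Nat.Primes) : ∃ v : HeightOneSpectrum (𝓞 ℚ), nm v = p := by
  have hp := p.prop
  have h1 : Ideal.span {(((p : ℕ) : 𝓞 ℚ))} ≠ ⊤ := by
    intro h
    have h2 : Ideal.absNorm (Ideal.span {(((p : ℕ) : 𝓞 ℚ))}) = 1 := by rw [h, Ideal.absNorm_top]
    rw [Ideal.absNorm_span_natCast, RingOfIntegers.rank, Module.finrank_self, pow_one] at h2
    exact hp.ne_one h2
  obtain ⟨P, hP, hle⟩ := Ideal.exists_le_maximal _ h1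
  have hP0 : P ≠ ⊥ := by
    intro h0
    rw [h0, le_bot_iff, Ideal.span_singleton_eq_bot] at hle
    exact hp.ne_zero (by exact_mod_cast hle)
  refine ⟨⟨P, hP.isPrime, hP0⟩, ?_⟩
  have h2 : Ideal.absNorm P ∣ Ideal.absNorm (Ideal.span {(((p : ℕ) : 𝓞 ℚ))}) :=
    Ideal.absNorm_dvd_absNorm_of_le hle
  rw [Ideal.absNorm_span_natCast, RingOfIntegers.rank, Module.finrank_self, pow_one] at h2
  have h3 := two_le_nm (⟨P, hP.isPrime, hP0⟩ : HeightOneSpectrum (𝓞 ℚ))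
  have h4 : nm (⟨P, hP.isPrime, hP0⟩ : HeightOneSpectrum (𝓞 ℚ)) = Ideal.absNorm P := rfl
  rw [h4] at h3 ⊢
  exact ((Nat.dvd_prime hp).1 h2).resolve_left (by omega)

/-- the term of the sum over the primes -/
noncomputable def lg (ε : ℝ) (p : Nat.Primes) : ℝ := Real.log (p : ℕ) * ((p : ℕ) : ℝ) ^ (-(1 + ε))

lemma lg_nonneg (ε : ℝ) (p : Nat.Primes) : 0 ≤ lg ε p := by
  unfold lg
  have : (1 : ℝ) ≤ (p : ℕ) := by exact_mod_cast p.prop.one_lt.le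
  have := Real.log_nonneg this
  positivity

/-- `ε ∑ log p p^{-1-ε}` is bounded -/
theorem log_sum : ∃ C ε₀ : ℝ, 0 ≤ C ∧ 0 < ε₀ ∧ ∀ ε : ℝ, 0 < ε → ε < ε₀ →
    Summable (lg ε) ∧ ∑' p, lg ε p ≤ C / ε := by
  obtain ⟨C, ε₀, hε₀, h⟩ := Pool.Agent.TH942.ES.nf_log_sum ℚ
  refine ⟨max C 0, ε₀, le_max_right _ _, hε₀, fun ε h1 h2 => ?_⟩
  obtain ⟨h3, h4⟩ := h ε h1 h2
  choose V hV using exists_rat
  have hinj : Function.Injective V := by
    intro p q hpq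
    apply Subtype.ext
    have := hV p
    rw [hpq, hV q] at this
    exact this.symm
  have h5 : ∀ p, lg ε p = Real.log (nm (V p)) * (nm (V p) : ℝ) ^ (-(1 + ε)) := by
    intro p
    unfold lg
    rw [hV p]
  have h6 : Summable (lg ε) := by
    refine (h3.comp_injective hinj).congr fun p => ?_
    rw [h5]
    rfl
  refine ⟨h6, ?_⟩
  rw [le_div_iff₀ h1, mul_comm]
  refine le_trans ?_ (h4.trans (le_max_left _ _))
  refine mul_le_mul_of_nonneg_left ?_ h1.le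
  refine h6.tsum_le_tsum_of_inj V hinj (fun v _ => ?_) (fun p => (h5 p).le) h3
  have hq1 : (1 : ℝ) ≤ nm v := nm_one v
  have := Real.log_nonneg hq1
  positivity

section one
variable {M : Type} [Field M] [NumberField M]

lemma lg_below {ε : ℝ} (hε : 0 < ε) (w : HeightOneSpectrum (𝓞 M)) :
    Real.log (nm w) * (nm w : ℝ) ^ (-(1 + ε)) ≤ lg ε (below w) := by
  obtain ⟨h1, h2, _⟩ := nm_eq w
  obtain ⟨k, hk⟩ : ∃ k, deg w = k + 1 := ⟨deg w - 1, by omega⟩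
  obtain ⟨p, hp⟩ : ∃ p : ℕ, p = (below w : ℕ) := ⟨_, rfl⟩
  have hp2 : 2 ≤ p := by rw [hp]; exact (below w).prop.two_le
  have hpr : (2 : ℝ) ≤ p := by exact_mod_cast hp2
  unfold lg
  rw [h1, hk, ← hp]
  push_cast
  have hlog : 0 ≤ Real.log p := Real.log_nonneg (by linarith)
  rw [Real.log_pow]
  have h3 : ((p : ℝ) ^ (k + 1)) ^ (-(1 + ε)) = ((p : ℝ) ^ k) ^ (-(1 + ε)) * (p : ℝ) ^ (-(1 + ε)) := by
    rw [pow_succ, Real.mul_rpow (by positivity) (by positivity)]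
  have h4 : ((k + 1 : ℕ) : ℝ) ≤ (p : ℝ) ^ k := by
    have h5 : k + 1 ≤ 2 ^ k := Nat.lt_two_pow_self
    have h6 : ((k + 1 : ℕ) : ℝ) ≤ 2 ^ k := by exact_mod_cast h5
    exact h6.trans (pow_le_pow_left₀ (by norm_num) hpr k)
  have h7 : ((p : ℝ) ^ k) ^ (-(1 + ε)) ≤ ((p : ℝ) ^ k)⁻¹ := by
    rw [← Real.rpow_neg_one]
    exact Real.rpow_le_rpow_of_exponent_le (one_le_pow₀ (by linarith)) (by linarith)
  have h8 : 0 < (p : ℝ) ^ k := by positivity
  have h9 : ((k + 1 : ℕ) : ℝ) * ((p : ℝ) ^ k) ^ (-(1 + ε)) ≤ 1 := by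
    calc ((k + 1 : ℕ) : ℝ) * ((p : ℝ) ^ k) ^ (-(1 + ε)) ≤ (p : ℝ) ^ k * ((p : ℝ) ^ k)⁻¹ :=
          mul_le_mul h4 h7 (by positivity) (by positivity)
      _ = 1 := mul_inv_cancel₀ h8.ne'
  rw [h3]
  have h10 : 0 ≤ Real.log p * (p : ℝ) ^ (-(1 + ε)) := by positivity
  calc ((k + 1 : ℕ) : ℝ) * Real.log p * (((p : ℝ) ^ k) ^ (-(1 + ε)) * (p : ℝ) ^ (-(1 + ε)))
      = (((k + 1 : ℕ) : ℝ) * ((p : ℝ) ^ k) ^ (-(1 + ε))) * (Real.log p * (p : ℝ) ^ (-(1 + ε))) := by ring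
    _ ≤ 1 * (Real.log p * (p : ℝ) ^ (-(1 + ε))) := mul_le_mul_of_nonneg_right h9 h10
    _ = _ := one_mul _

lemma term_nonneg (ε : ℝ) (w : HeightOneSpectrum (𝓞 M)) :
    0 ≤ Real.log (nm w) * (nm w : ℝ) ^ (-(1 + ε)) := by
  have := Real.log_nonneg (nm_one w)
  positivity

lemma log_sum_field {ε S : ℝ} (hε : 0 < ε) (h1 : Summable (lg ε)) (h2 : ∑' p, lg ε p ≤ S) :
    Summable (fun w : HeightOneSpectrum (𝓞 M) => Real.log (nm w) * (nm w : ℝ) ^ (-(1 + ε))) ∧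
      ∑' w : HeightOneSpectrum (𝓞 M), Real.log (nm w) * (nm w : ℝ) ^ (-(1 + ε)) ≤
        Module.finrank ℚ M * S := by
  have h3 : ∀ G : Finset (HeightOneSpectrum (𝓞 M)),
      ∑ w ∈ G, Real.log (nm w) * (nm w : ℝ) ^ (-(1 + ε)) ≤ Module.finrank ℚ M * S := by
    intro G
    refine (sum_below G (lg_nonneg ε) h1 fun w _ => lg_below hε w).trans ?_
    exact mul_le_mul_of_nonneg_left h2 (Nat.cast_nonneg _)
  exact ⟨summable_of_sum_le (fun w => term_nonneg ε w) h3,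
    Real.tsum_le_of_sum_le (fun w => term_nonneg ε w) h3⟩

lemma summable_log {ε C₀ : ℝ} (hε : 0 < ε) {ℓ : HeightOneSpectrum (𝓞 M) → ℂ}
    (hℓ : ∀ w, ‖ℓ w‖ ≤ C₀ * (nm w : ℝ) ^ (-(1 + ε))) : Summable ℓ :=
  Summable.of_norm_bounded ((nm_summable (K := M) (x := 1 + ε) (by linarith)).mul_left C₀) hℓ

/-- **The tail.** -/
theorem tail {ε S C₀ : ℝ} (hε : 0 < ε) (h1 : Summable (lg ε)) (h2 : ∑' p, lg ε p ≤ S) (hC : 0 ≤ C₀)
    {ℓ : HeightOneSpectrum (𝓞 M) → ℂ} (hℓ : ∀ w, ‖ℓ w‖ ≤ C₀ * (nm w : ℝ) ^ (-(1 + ε))) {z : ℕ}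
    (hz : 2 ≤ z) :
    ‖∑' w, ℓ w - ∑ w ∈ FN M z, ℓ w‖ ≤ C₀ * (Module.finrank ℚ M * S) / Real.log z := by
  classical
  obtain ⟨hs1, hs2⟩ := log_sum_field (M := M) hε h1 h2
  have h1 := summable_log hε hℓ
  have hz1 : (1 : ℝ) < z := by exact_mod_cast (by omega : 1 < z)
  have hlz : 0 < Real.log z := Real.log_pos hz1
  have h2 : ∑' w, ℓ w - ∑ w ∈ FN M z, ℓ w = ∑' w, (if w ∈ FN M z then 0 else ℓ w) := by
    have h3 : ∑ w ∈ FN M z, ℓ w = ∑' w, (if w ∈ FN M z then ℓ w else 0) := by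
      rw [tsum_eq_sum (s := FN M z) (fun w hw => if_neg hw)]
      exact Finset.sum_congr rfl fun w hw => (if_pos hw).symm
    have h4 : Summable fun w => (if w ∈ FN M z then ℓ w else 0) :=
      summable_of_ne_finset_zero (s := FN M z) fun w hw => if_neg hw
    rw [h3, ← h1.tsum_sub h4]
    refine tsum_congr fun w => ?_
    split_ifs
    · rw [sub_self]
    · rw [sub_zero]
  rw [h2]
  have h5 : ∀ w : HeightOneSpectrum (𝓞 M), ‖(if w ∈ FN M z then 0 else ℓ w : ℂ)‖ ≤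
      C₀ / Real.log z * (Real.log (nm w) * (nm w : ℝ) ^ (-(1 + ε))) := by
    intro w
    have h0 := term_nonneg ε w
    split_ifs with hw
    · rw [norm_zero]
      positivity
    · rw [mem_FN, not_le] at hw
      refine (hℓ w).trans ?_
      have h6 : Real.log z ≤ Real.log (nm w) :=
        Real.log_le_log (by linarith) (by exact_mod_cast hw.le)
      have h7 : (0 : ℝ) ≤ C₀ * (nm w : ℝ) ^ (-(1 + ε)) := by positivity
      calc C₀ * (nm w : ℝ) ^ (-(1 + ε)) = C₀ * (nm w : ℝ) ^ (-(1 + ε)) * 1 := by ring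
        _ ≤ C₀ * (nm w : ℝ) ^ (-(1 + ε)) * (Real.log (nm w) / Real.log z) :=
            mul_le_mul_of_nonneg_left ((one_le_div hlz).2 h6) h7
        _ = _ := by ring
  have h8 := tsum_of_norm_bounded (hs1.mul_left (C₀ / Real.log z)).hasSum h5
  refine h8.trans ?_
  rw [tsum_mul_left]
  calc C₀ / Real.log z * ∑' w : HeightOneSpectrum (𝓞 M), Real.log (nm w) * (nm w : ℝ) ^ (-(1 + ε))
      ≤ C₀ / Real.log z * (Module.finrank ℚ M * S) := mul_le_mul_of_nonneg_left hs2 (by positivity)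
    _ = _ := by ring

end one

end Pool.Agent.Y693.RF
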