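import Pool.Agent.Y693.RF.Mean

/-!
# Elliptic curves over random extensions
-/

set_option autoImplicit false

open Finset NumberField IsDedekindDomain Polynomial Filter
open Pool.Agent.H921R2.TatePole (nm two_le_nm below deg nm_eq nm_summable fiber_card_le
  summable_primes_rpow card_above below_le_nm)
open Pool.Agent.Y770.EP (finite_quot card_quot FN mem_FN GG mem_GG FP mem_FP card_FP nm_mem Sys SP
  PR mem_PR nm_pos' Good pts tv tv_congr GD EL EL_sub EL_le EG fac PP LL LL_eq PP_exp PP_ne PP_eq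
  norm_sum_γ half_of_four nm_half EG_summable tv_bad coprime_notMem)

namespace Pool.Agent.Y693.RF

variable {F : Type} [Field F] [NumberField F]

section B

/-- the partial products are close to each other -/
def B1 {L : Type} [Field L] [NumberField L] {N : ℕ} (δ c : ℝ) (X : ℕ) (α β : 𝓞 L)
    (γ : HeightOneSpectrum (𝓞 L) → Fin N → ℂ) : Prop :=
  ∀ s : ℂ, 1 + δ ≤ s.re → |s.im| ≤ (X : ℝ) ^ c → ∀ y x : ℕ, (Real.log X) ^ (1 / c) ≤ y → y ≤ x →
    (x : ℝ) ≤ (X : ℝ) ^ c → ‖PP α β γ s x / PP α β γ s y - 1‖ ≤ (y : ℝ) ^ (-c)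

/-- the partial products are close to the product -/
def B2 {L : Type} [Field L] [NumberField L] {N : ℕ} (η A c : ℝ) (X : ℕ) (α β : 𝓞 L)
    (γ : HeightOneSpectrum (𝓞 L) → Fin N → ℂ) : Prop :=
  ∀ s : ℂ, 3 / 2 + A / Real.log X ≤ s.re → |s.im| ≤ (X : ℝ) ^ c → ∀ y : ℕ,
    (Real.log X) ^ (1 / c) ≤ y → ‖LL α β γ s / PP α β γ s y - 1‖ ≤ η

lemma ld_zero {M : Type} [Field M] [NumberField M] {C₀ : ℝ} (hC : 0 ≤ C₀) :
    LD (M := M) C₀ (fun _ => 0) (fun _ _ => 0) := by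
  refine ⟨fun w => ?_, fun z w _ _ => ?_, fun z w _ => ?_⟩
  · rw [norm_zero]; exact hC
  · rw [zero_mul, sub_zero, norm_zero]; positivity
  · rw [norm_zero]; positivity

/-- **Elliptic curves over random extensions.** -/
theorem thmB (d n N : ℕ) (hn : 0 < n) (B δ : ℝ) (hδ : 0 < δ) :
    ∃ c : ℝ, 0 < c ∧ ∀ η : ℝ, 0 < η → ∃ A : ℝ, ∃ X₀ : ℕ, ∀ X : ℕ, X₀ ≤ X →
      ∀ (F : Type) [Field F] [NumberField F], Module.finrank ℚ F = d →
      ∀ f : Polynomial (𝓞 F), f.Monic → f.natDegree = n →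
      (∀ i, ∀ σ : F →+* ℂ, ‖σ (f.coeff i : F)‖ ≤ Real.exp ((Real.log X) ^ B)) →
      ∀ m : ℕ, (m : ℝ) ≤ (X : ℝ) ^ c → ∀ (P Q : Fin m → Polynomial (𝓞 F))
        (γ : Fin m → Ideal (𝓞 F) → Fin N → ℂ),
        (∀ k, (P k).natDegree ≤ 2 ∧ (Q k).natDegree ≤ 2 ∧ 0 < (P k).natDegree + (Q k).natDegree) →
        (∀ k i, ∀ σ : F →+* ℂ, ‖σ ((P k).coeff i : F)‖ ≤ Real.exp ((Real.log X) ^ B) ∧
          ‖σ ((Q k).coeff i : F)‖ ≤ Real.exp ((Real.log X) ^ B)) →
        (∀ k v j, ‖γ k v j‖ ≤ 1) →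
        ({t : ℤ | |t| ≤ X ∧ ¬ ∀ (L : Type) [Field L] [NumberField L] [Algebra F L] (θ : 𝓞 L),
          Gen (f + C (t : 𝓞 F)) θ → ∀ k,
            B1 δ c X (aeval θ (P k)) (aeval θ (Q k)) (bc L (γ k)) ∧
            B2 η A c X (aeval θ (P k)) (aeval θ (Q k)) (bc L (γ k))}.ncard : ℝ) ≤
          (X : ℝ) ^ (1 - c) := by
  classical
  have hC : (0 : ℝ) ≤ 7 * N := by positivity
  obtain ⟨c, hc0, hc⟩ := fin d n hn B δ (7 * N) hδ hC
  refine ⟨c, hc0, fun η hη => ?_⟩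
  obtain ⟨A, hA0, X₀, hX₀, h⟩ := hc η hη
  refine ⟨A, X₀, fun X hX F _ _ hFd f hf hfn hcoef m hm P Q γ hdeg hPQ hγ => ?_⟩
  have hX3 : 3 ≤ X := hX₀.trans hX
  have hlog : 0 < Real.log X := Real.log_pos (by exact_mod_cast (by omega : 1 < X))
  obtain ⟨T, hT⟩ : ∃ T : Fin m → HeightOneSpectrum (𝓞 F) → ℕ → ℂ, T = fun k v j =>
    ta ((P k).eval ((j : ℕ) : 𝓞 F)) ((Q k).eval ((j : ℕ) : 𝓞 F)) (fun v => γ k v.asIdeal) v := ⟨_, rfl⟩
  have hTle : ∀ k v j, ‖T k v j‖ ≤ 7 * N := by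
    intro k v j
    rw [hT]
    refine (ta_le _ _ (fun w j => hγ k w.asIdeal j) v).trans ?_
    have : (0 : ℝ) ≤ N := Nat.cast_nonneg N
    linarith
  have hcount := h X hX F hFd.symm f hf hfn hcoef m hm T hTle
  refine le_trans ?_ hcount
  have hfin : {t : ℤ | |t| ≤ X ∧ ¬ Concl F f t (7 * N) (Real.exp ((Real.log X) ^ B)) δ η A c X m T}.Finite := by
    refine Set.Finite.subset (Set.finite_Icc (-(X : ℤ)) X) fun t ht => ?_
    have := abs_le.1 ht.1
    exact ⟨this.1, this.2⟩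
  have hsub : {t : ℤ | |t| ≤ X ∧ ¬ ∀ (L : Type) [Field L] [NumberField L] [Algebra F L] (θ : 𝓞 L),
          Gen (f + C (t : 𝓞 F)) θ → ∀ k,
            B1 δ c X (aeval θ (P k)) (aeval θ (Q k)) (bc L (γ k)) ∧
            B2 η A c X (aeval θ (P k)) (aeval θ (Q k)) (bc L (γ k))} ⊆
      {t : ℤ | |t| ≤ X ∧ ¬ Concl F f t (7 * N) (Real.exp ((Real.log X) ^ B)) δ η A c X m T} := by
    rintro t ⟨ht1, ht2⟩
    refine ⟨ht1, fun hcon => ht2 ?_⟩
    intro L _ _ _ θ hθ k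
    have hbc : ∀ w j, ‖bc L (γ k) w j‖ ≤ 1 := bc_le (hγ k)
    -- the compatibility
    have hcomp : ∀ w : HeightOneSpectrum (𝓞 L), (nm w).Prime → ∀ j ∈ range (nm w),
        θ - ((j : ℕ) : 𝓞 L) ∈ w.asIdeal →
        ta (aeval θ (P k)) (aeval θ (Q k)) (bc L (γ k)) w = T k (und w) j := by
      intro w hw j _ hjw
      rw [hT]
      have hj : θ - algebraMap (𝓞 F) (𝓞 L) ((j : ℕ) : 𝓞 F) ∈ w.asIdeal := by
        rw [map_natCast]; exact hjw
      exact ta_und (γ k) hw (eval_sub_mem hj) (eval_sub_mem hj)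
    -- the mean values
    have hMH : MH (Real.exp ((Real.log X) ^ B)) (7 * N) (T k) (fun _ : HeightOneSpectrum (𝓞 F) => 0) := by
      have hex : ∃ d : 𝓞 F, d ≠ 0 ∧ (∀ σ : F →+* ℂ, ‖σ (d : F)‖ ≤ Real.exp ((Real.log X) ^ B)) ∧
          (d = (P k).coeff 1 ∨ d = (P k).coeff 2 ∨ d = (Q k).coeff 1 ∨ d = (Q k).coeff 2) := by
        obtain ⟨h1, h2, h3⟩ := hdeg k
        by_cases hPk : 0 < (P k).natDegree
        · refine ⟨(P k).leadingCoeff, ?_, fun σ => (hPQ k _ σ).1, ?_⟩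
          · rw [Ne, leadingCoeff_eq_zero]
            intro h0
            rw [h0, natDegree_zero] at hPk
            omega
          · unfold leadingCoeff
            rcases (by omega : (P k).natDegree = 1 ∨ (P k).natDegree = 2) with h4 | h4
            · rw [h4]; exact Or.inl rfl
            · rw [h4]; exact Or.inr (Or.inl rfl)
        · have hQk : 0 < (Q k).natDegree := by omega
          refine ⟨(Q k).leadingCoeff, ?_, fun σ => (hPQ k _ σ).2, ?_⟩
          · rw [Ne, leadingCoeff_eq_zero]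
            intro h0
            rw [h0, natDegree_zero] at hQk
            omega
          · unfold leadingCoeff
            rcases (by omega : (Q k).natDegree = 1 ∨ (Q k).natDegree = 2) with h4 | h4
            · rw [h4]; exact Or.inr (Or.inr (Or.inl rfl))
            · rw [h4]; exact Or.inr (Or.inr (Or.inr rfl))
      obtain ⟨d, hd0, hdR, hd⟩ := hex
      refine ⟨d, hd0, hdR, fun v hv h3v hdv => ?_⟩
      rw [sub_zero, hT]
      refine mean_ta (hdeg k).1 (hdeg k).2.1 (fun w j => hγ k w.asIdeal j) hv rfl h3v ?_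
      rintro ⟨h1, h2, h3, h4⟩
      apply hdv
      rcases hd with h | h | h | h <;> rw [h] <;> assumption
    obtain ⟨g1, g2⟩ := hcon L θ hθ k (ta (aeval θ (P k)) (aeval θ (Q k)) (bc L (γ k)))
      (fun z => EG (aeval θ (P k)) (aeval θ (Q k)) (bc L (γ k)) (z + 1 / 2))
      (fun _ => 0) (fun _ _ => 0) (ld_ec _ _ hbc) (ld_zero hC) hcomp hMH
    constructor
    · intro s hs hs2 y x hy hyx hx
      have h1 := g1 (s - 1 / 2) (by simp only [Complex.sub_re, Complex.div_ofNat_re, Complex.one_re]; linarith)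
        (by simpa using hs2) y x hy hyx hx
      simp only [sub_add_cancel, Finset.sum_const_zero, sub_zero] at h1
      rw [quot_one hbc (by linarith) hyx]
      exact h1
    · intro s hs hs2 y hy
      have hε : 0 < A / Real.log X := by positivity
      have h1 := g2 (s - 1 / 2) (by simp only [Complex.sub_re, Complex.div_ofNat_re, Complex.one_re]; linarith)
        (by simpa using hs2) y hy
      simp only [sub_add_cancel, Finset.sum_const_zero, tsum_zero, sub_zero] at h1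
      rw [LL_eq hbc hε hs, PP_exp hbc (by linarith), ← Complex.exp_sub]
      exact h1
  exact_mod_cast Set.ncard_le_ncard hsub hfin

end B

section A
variable {N : ℕ}

/-- the quotient of the partial products over `L` and over `F` -/
noncomputable def QQ (a b : 𝓞 F) (γ : Ideal (𝓞 F) → Fin N → ℂ) (L : Type) [Field L] [NumberField L]
    [Algebra F L] (s : ℂ) (x : ℕ) : ℂ :=
  PP (algebraMap (𝓞 F) (𝓞 L) a) (algebraMap (𝓞 F) (𝓞 L) b) (bc L γ) s x /
    PP a b (fun v => γ v.asIdeal) s x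

/-- the partial products are close to each other -/
def A1 (δ c : ℝ) (X : ℕ) (a b : 𝓞 F) (γ : Ideal (𝓞 F) → Fin N → ℂ) (L : Type) [Field L]
    [NumberField L] [Algebra F L] : Prop :=
  ∀ s : ℂ, 1 + δ ≤ s.re → |s.im| ≤ (X : ℝ) ^ c → ∀ y x : ℕ, (Real.log X) ^ (1 / c) ≤ y → y ≤ x →
    (x : ℝ) ≤ (X : ℝ) ^ c → ‖QQ a b γ L s x / QQ a b γ L s y - 1‖ ≤ (y : ℝ) ^ (-c)

/-- the partial products are close to the product -/
def A2 (η A c : ℝ) (X : ℕ) (a b : 𝓞 F) (γ : Ideal (𝓞 F) → Fin N → ℂ) (L : Type) [Field L]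
    [NumberField L] [Algebra F L] : Prop :=
  ∀ s : ℂ, 3 / 2 + A / Real.log X ≤ s.re → |s.im| ≤ (X : ℝ) ^ c → ∀ y : ℕ,
    (Real.log X) ^ (1 / c) ≤ y →
      ‖(LL (algebraMap (𝓞 F) (𝓞 L) a) (algebraMap (𝓞 F) (𝓞 L) b) (bc L γ) s /
        LL a b (fun v => γ v.asIdeal) s) / QQ a b γ L s y - 1‖ ≤ η

/-- **Base change to random extensions.** -/
theorem thmA (d n N : ℕ) (hn : 0 < n) (B δ : ℝ) (hδ : 0 < δ) :
    ∃ c : ℝ, 0 < c ∧ ∀ η : ℝ, 0 < η → ∃ A : ℝ, ∃ X₀ : ℕ, ∀ X : ℕ, X₀ ≤ X →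
      ∀ (F : Type) [Field F] [NumberField F], Module.finrank ℚ F = d →
      ∀ f : Polynomial (𝓞 F), f.Monic → f.natDegree = n →
      (∀ i, ∀ σ : F →+* ℂ, ‖σ (f.coeff i : F)‖ ≤ Real.exp ((Real.log X) ^ B)) →
      ∀ m : ℕ, (m : ℝ) ≤ (X : ℝ) ^ c → ∀ (a b : Fin m → 𝓞 F)
        (γ : Fin m → Ideal (𝓞 F) → Fin N → ℂ), (∀ k v j, ‖γ k v j‖ ≤ 1) →
        ({t : ℤ | |t| ≤ X ∧ ¬ ∀ (L : Type) [Field L] [NumberField L] [Algebra F L] (θ : 𝓞 L),
          Gen (f + C (t : 𝓞 F)) θ → ∀ k, A1 δ c X (a k) (b k) (γ k) L ∧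
            A2 η A c X (a k) (b k) (γ k) L}.ncard : ℝ) ≤ (X : ℝ) ^ (1 - c) := by
  classical
  have hC : (0 : ℝ) ≤ 7 * N := by positivity
  obtain ⟨c, hc0, hc⟩ := fin d n hn B δ (7 * N) hδ hC
  refine ⟨c, hc0, fun η hη => ?_⟩
  obtain ⟨A, hA0, X₀, hX₀, h⟩ := hc η hη
  refine ⟨A, X₀, fun X hX F _ _ hFd f hf hfn hcoef m hm a b γ hγ => ?_⟩
  have hX3 : 3 ≤ X := hX₀.trans hX
  have hlog : 0 < Real.log X := Real.log_pos (by exact_mod_cast (by omega : 1 < X))
  obtain ⟨T, hT⟩ : ∃ T : Fin m → HeightOneSpectrum (𝓞 F) → ℕ → ℂ, T = fun k v _ =>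
    ta (a k) (b k) (fun v => γ k v.asIdeal) v := ⟨_, rfl⟩
  have hTle : ∀ k v j, ‖T k v j‖ ≤ 7 * N := by
    intro k v j
    rw [hT]
    refine (ta_le _ _ (fun w j => hγ k w.asIdeal j) v).trans ?_
    have : (0 : ℝ) ≤ N := Nat.cast_nonneg N
    linarith
  have hcount := h X hX F hFd.symm f hf hfn hcoef m hm T hTle
  refine le_trans ?_ hcount
  have hfin : {t : ℤ | |t| ≤ X ∧ ¬ Concl F f t (7 * N) (Real.exp ((Real.log X) ^ B)) δ η A c X m T}.Finite := by
    refine Set.Finite.subset (Set.finite_Icc (-(X : ℤ)) X) fun t ht => ?_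
    have := abs_le.1 ht.1
    exact ⟨this.1, this.2⟩
  have hsub : {t : ℤ | |t| ≤ X ∧ ¬ ∀ (L : Type) [Field L] [NumberField L] [Algebra F L] (θ : 𝓞 L),
          Gen (f + C (t : 𝓞 F)) θ → ∀ k, A1 δ c X (a k) (b k) (γ k) L ∧
            A2 η A c X (a k) (b k) (γ k) L} ⊆
      {t : ℤ | |t| ≤ X ∧ ¬ Concl F f t (7 * N) (Real.exp ((Real.log X) ^ B)) δ η A c X m T} := by
    rintro t ⟨ht1, ht2⟩
    refine ⟨ht1, fun hcon => ht2 ?_⟩
    intro L _ _ _ θ hθ k
    have hbc : ∀ w j, ‖bc L (γ k) w j‖ ≤ 1 := bc_le (hγ k)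
    have hγF : ∀ (v : HeightOneSpectrum (𝓞 F)) j, ‖(fun v : HeightOneSpectrum (𝓞 F) =>
      γ k v.asIdeal) v j‖ ≤ 1 := fun v j => hγ k v.asIdeal j
    have hcomp : ∀ w : HeightOneSpectrum (𝓞 L), (nm w).Prime → ∀ j ∈ range (nm w),
        θ - ((j : ℕ) : 𝓞 L) ∈ w.asIdeal →
        ta (algebraMap (𝓞 F) (𝓞 L) (a k)) (algebraMap (𝓞 F) (𝓞 L) (b k)) (bc L (γ k)) w =
          T k (und w) j := by
      intro w hw j _ _
      rw [hT]
      refine ta_und (γ k) hw ?_ ?_ <;> rw [sub_self] <;> exact w.asIdeal.zero_mem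
    have hMH : MH (Real.exp ((Real.log X) ^ B)) (7 * N) (T k)
        (ta (a k) (b k) (fun v => γ k v.asIdeal)) := by
      refine ⟨1, one_ne_zero, fun σ => ?_, fun v hv _ _ => ?_⟩
      · have : (((1 : 𝓞 F)) : F) = 1 := map_one (algebraMap (𝓞 F) F)
        rw [this, map_one, norm_one]
        exact Real.one_le_exp (by positivity)
      · have h1 : mu (T k v) (nm v) = ta (a k) (b k) (fun v => γ k v.asIdeal) v := by
          rw [hT]
          unfold mu
          dsimp only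
          rw [Finset.sum_const, card_range, nsmul_eq_mul, mul_div_cancel_left₀]
          exact_mod_cast hv.ne_zero
        rw [h1, sub_self, norm_zero]
        positivity
    obtain ⟨g1, g2⟩ := hcon L θ hθ k
      (ta (algebraMap (𝓞 F) (𝓞 L) (a k)) (algebraMap (𝓞 F) (𝓞 L) (b k)) (bc L (γ k)))
      (fun z => EG (algebraMap (𝓞 F) (𝓞 L) (a k)) (algebraMap (𝓞 F) (𝓞 L) (b k)) (bc L (γ k))
        (z + 1 / 2))
      (ta (a k) (b k) (fun v => γ k v.asIdeal))
      (fun z => EG (a k) (b k) (fun v => γ k v.asIdeal) (z + 1 / 2))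
      (ld_ec _ _ hbc) (ld_ec _ _ hγF) hcomp hMH
    constructor
    · intro s hs hs2 y x hy hyx hx
      have h1 := g1 (s - 1 / 2) (by simp only [Complex.sub_re, Complex.div_ofNat_re, Complex.one_re]; linarith)
        (by simpa using hs2) y x hy hyx hx
      simp only [sub_add_cancel] at h1
      unfold QQ
      rw [quot_eq hγF hbc (by linarith) hyx]
      exact h1
    · intro s hs hs2 y hy
      have hε : 0 < A / Real.log X := by positivity
      have h1 := g2 (s - 1 / 2) (by simp only [Complex.sub_re, Complex.div_ofNat_re, Complex.one_re]; linarith)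
        (by simpa using hs2) y hy
      simp only [sub_add_cancel] at h1
      unfold QQ
      rw [LL_eq hbc hε hs, LL_eq hγF hε hs, PP_exp hbc (by linarith), PP_exp hγF (by linarith),
        ← Complex.exp_sub, ← Complex.exp_sub, ← Complex.exp_sub, sub_sub_sub_comm]
      exact h1
  exact_mod_cast Set.ncard_le_ncard hsub hfin

end A

end Pool.Agent.Y693.RF
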