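import Pool.Agent.Y693.RF.ThmB

/-!
# All rational elliptic curves over random number fields
-/

set_option autoImplicit false

open Finset NumberField IsDedekindDomain Polynomial Filter
open Pool.Agent.H921R2.TatePole (nm two_le_nm below deg nm_eq nm_summable fiber_card_le
  summable_primes_rpow card_above below_le_nm)
open Pool.Agent.Y770.EP (pts GD fac PP LL ev_rpow ev_log)

namespace Pool.Agent.Y693.RF

/-- the index of a pair -/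
def idx (K : ℕ) (k : ℕ) : ℤ × ℤ := (((k / (2 * K + 1) : ℕ) : ℤ) - K, ((k % (2 * K + 1) : ℕ) : ℤ) - K)

lemma idx_surj (K : ℕ) (a b : ℤ) (ha : |a| ≤ K) (hb : |b| ≤ K) :
    ∃ k : Fin ((2 * K + 1) ^ 2), idx K k = (a, b) := by
  have h1 := abs_le.1 ha
  have h2 := abs_le.1 hb
  obtain ⟨u, hu⟩ : ∃ u : ℕ, (u : ℤ) = a + K := ⟨(a + K).toNat, by omega⟩
  obtain ⟨v, hv⟩ : ∃ v : ℕ, (v : ℤ) = b + K := ⟨(b + K).toNat, by omega⟩
  have hu' : u < 2 * K + 1 := by omega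
  have hv' : v < 2 * K + 1 := by omega
  refine ⟨⟨u * (2 * K + 1) + v, ?_⟩, ?_⟩
  · have h3 : u + 1 ≤ 2 * K + 1 := hu'
    calc u * (2 * K + 1) + v < u * (2 * K + 1) + (2 * K + 1) := by omega
      _ = (u + 1) * (2 * K + 1) := by ring
      _ ≤ (2 * K + 1) * (2 * K + 1) := Nat.mul_le_mul_right _ h3
      _ = (2 * K + 1) ^ 2 := by ring
  · unfold idx
    have h4 : (u * (2 * K + 1) + v) / (2 * K + 1) = u := by
      rw [mul_comm, Nat.mul_add_div (by omega), Nat.div_eq_of_lt hv', add_zero]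
    have h5 : (u * (2 * K + 1) + v) % (2 * K + 1) = v := by
      rw [mul_comm, Nat.mul_add_mod, Nat.mod_eq_of_lt hv']
    dsimp only
    rw [h4, h5]
    ext
    · dsimp only; omega
    · dsimp only; omega

/-- **All rational elliptic curves over random extensions.** -/
theorem thmQ (d n : ℕ) (hn : 0 < n) (B δ : ℝ) (hδ : 0 < δ) :
    ∃ c : ℝ, 0 < c ∧ ∀ η : ℝ, 0 < η → ∃ A : ℝ, ∃ X₀ : ℕ, ∀ X : ℕ, X₀ ≤ X →
      ∀ (F : Type) [Field F] [NumberField F], Module.finrank ℚ F = d →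
      ∀ f : Polynomial (𝓞 F), f.Monic → f.natDegree = n →
      (∀ i, ∀ σ : F →+* ℂ, ‖σ (f.coeff i : F)‖ ≤ Real.exp ((Real.log X) ^ B)) →
        ({t : ℤ | |t| ≤ X ∧ ¬ ∀ (L : Type) [Field L] [NumberField L] [Algebra F L] (θ : 𝓞 L),
          Gen (f + C (t : 𝓞 F)) θ → ∀ a b : ℤ, |a| ≤ (X : ℝ) ^ c → |b| ≤ (X : ℝ) ^ c →
            A1 δ c X (a : 𝓞 F) (b : 𝓞 F) (fun _ (_ : Fin 1) => 1) L ∧
            A2 η A c X (a : 𝓞 F) (b : 𝓞 F) (fun _ (_ : Fin 1) => 1) L}.ncard : ℝ) ≤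
          (X : ℝ) ^ (1 - c) := by
  classical
  obtain ⟨c', hc'0, hc'⟩ := thmA d n 1 hn B δ hδ
  obtain ⟨c, hc⟩ : ∃ c : ℝ, c = c' / 4 := ⟨_, rfl⟩
  have hc0 : 0 < c := by rw [hc]; positivity
  have hcc : c' = 4 * c := by rw [hc]; ring
  refine ⟨c, hc0, fun η hη => ?_⟩
  obtain ⟨A, X₀, h⟩ := hc' η hη
  have ev : ∀ᶠ X : ℕ in atTop, 9 ≤ (X : ℝ) ^ (2 * c) ∧ 1 ≤ (Real.log X) ^ (1 : ℝ) ∧ X₀ ≤ X ∧ 3 ≤ X := by
    filter_upwards [ev_rpow (C := 9) (show 0 < 2 * c by positivity), ev_log (C := 1) one_pos,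
      eventually_ge_atTop X₀, eventually_ge_atTop 3] with X a1 a2 a3 a4 using ⟨a1, a2, a3, a4⟩
  obtain ⟨X1, hX1⟩ := eventually_atTop.1 ev
  refine ⟨A, X1, fun X hX F _ _ hF f hf hfn hcoef => ?_⟩
  obtain ⟨h9, hL, hXX₀, hX3⟩ := hX1 X hX
  rw [Real.rpow_one] at hL
  have hX1r : (1 : ℝ) ≤ X := by exact_mod_cast (by omega : 1 ≤ X)
  obtain ⟨K, hK⟩ : ∃ K : ℕ, K = ⌊(X : ℝ) ^ c⌋₊ := ⟨_, rfl⟩
  have hKle : (K : ℝ) ≤ (X : ℝ) ^ c := by rw [hK]; exact Nat.floor_le (by positivity)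
  have hXc1 : 1 ≤ (X : ℝ) ^ c := Real.one_le_rpow hX1r hc0.le
  have hm : (((2 * K + 1) ^ 2 : ℕ) : ℝ) ≤ (X : ℝ) ^ c' := by
    push_cast
    have h1 : (2 * (K : ℝ) + 1) ^ 2 ≤ (3 * (X : ℝ) ^ c) ^ 2 :=
      pow_le_pow_left₀ (by positivity) (by linarith) 2
    have h2 : (3 * (X : ℝ) ^ c) ^ 2 = 9 * (X : ℝ) ^ (2 * c) := by
      rw [mul_pow, ← Real.rpow_natCast, ← Real.rpow_natCast, ← Real.rpow_mul (by linarith)]
      norm_num
      ring_nf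
    have h3 : (X : ℝ) ^ c' = (X : ℝ) ^ (2 * c) * (X : ℝ) ^ (2 * c) := by
      rw [← Real.rpow_add (by linarith), hcc]; congr 1; ring
    rw [h3]
    have : 9 * (X : ℝ) ^ (2 * c) ≤ (X : ℝ) ^ (2 * c) * (X : ℝ) ^ (2 * c) :=
      mul_le_mul_of_nonneg_right h9 (by positivity)
    linarith
  have h1 := h X hXX₀ F hF f hf hfn hcoef ((2 * K + 1) ^ 2) hm
    (fun k => (((idx K k).1 : ℤ) : 𝓞 F)) (fun k => (((idx K k).2 : ℤ) : 𝓞 F))
    (fun _ _ (_ : Fin 1) => 1) (fun _ _ _ => by rw [norm_one])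
  have h2 : (X : ℝ) ^ (1 - c') ≤ (X : ℝ) ^ (1 - c) :=
    Real.rpow_le_rpow_of_exponent_le hX1r (by linarith)
  refine le_trans ?_ (h1.trans h2)
  have hfin : {t : ℤ | |t| ≤ X ∧ ¬ ∀ (L : Type) [Field L] [NumberField L] [Algebra F L] (θ : 𝓞 L),
          Gen (f + C (t : 𝓞 F)) θ → ∀ k : Fin ((2 * K + 1) ^ 2),
            A1 δ c' X (((idx K k).1 : ℤ) : 𝓞 F) (((idx K k).2 : ℤ) : 𝓞 F) (fun _ (_ : Fin 1) => 1) L ∧
            A2 η A c' X (((idx K k).1 : ℤ) : 𝓞 F) (((idx K k).2 : ℤ) : 𝓞 F)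
              (fun _ (_ : Fin 1) => 1) L}.Finite := by
    refine Set.Finite.subset (Set.finite_Icc (-(X : ℤ)) X) fun t ht => ?_
    have := abs_le.1 ht.1
    exact ⟨this.1, this.2⟩
  have hpow : (X : ℝ) ^ c ≤ (X : ℝ) ^ c' := Real.rpow_le_rpow_of_exponent_le hX1r (by linarith)
  have hlogy : ∀ y : ℕ, (Real.log X) ^ (1 / c) ≤ y → (Real.log X) ^ (1 / c') ≤ y ∧ (1 : ℝ) ≤ y := by
    intro y hy
    refine ⟨le_trans (Real.rpow_le_rpow_of_exponent_le hL ?_) hy,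
      (Real.one_le_rpow hL (by positivity)).trans hy⟩
    exact one_div_le_one_div_of_le hc0 (by linarith)
  have hsub : {t : ℤ | |t| ≤ X ∧ ¬ ∀ (L : Type) [Field L] [NumberField L] [Algebra F L] (θ : 𝓞 L),
          Gen (f + C (t : 𝓞 F)) θ → ∀ a b : ℤ, |a| ≤ (X : ℝ) ^ c → |b| ≤ (X : ℝ) ^ c →
            A1 δ c X (a : 𝓞 F) (b : 𝓞 F) (fun _ (_ : Fin 1) => 1) L ∧
            A2 η A c X (a : 𝓞 F) (b : 𝓞 F) (fun _ (_ : Fin 1) => 1) L} ⊆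
      {t : ℤ | |t| ≤ X ∧ ¬ ∀ (L : Type) [Field L] [NumberField L] [Algebra F L] (θ : 𝓞 L),
          Gen (f + C (t : 𝓞 F)) θ → ∀ k : Fin ((2 * K + 1) ^ 2),
            A1 δ c' X (((idx K k).1 : ℤ) : 𝓞 F) (((idx K k).2 : ℤ) : 𝓞 F) (fun _ (_ : Fin 1) => 1) L ∧
            A2 η A c' X (((idx K k).1 : ℤ) : 𝓞 F) (((idx K k).2 : ℤ) : 𝓞 F)
              (fun _ (_ : Fin 1) => 1) L} := by
    rintro t ⟨ht1, ht2⟩
    refine ⟨ht1, fun hcon => ht2 ?_⟩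
    intro L _ _ _ θ hθ a b ha hb
    have haK : |a| ≤ K := by
      have h3 : ((a.natAbs : ℕ) : ℝ) ≤ (X : ℝ) ^ c := by
        rw [Nat.cast_natAbs]; exact_mod_cast ha
      have h4 : a.natAbs ≤ K := by rw [hK]; exact Nat.le_floor h3
      rw [Int.abs_eq_natAbs]
      exact_mod_cast h4
    have hbK : |b| ≤ K := by
      have h3 : ((b.natAbs : ℕ) : ℝ) ≤ (X : ℝ) ^ c := by
        rw [Nat.cast_natAbs]; exact_mod_cast hb
      have h4 : b.natAbs ≤ K := by rw [hK]; exact Nat.le_floor h3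
      rw [Int.abs_eq_natAbs]
      exact_mod_cast h4
    obtain ⟨k, hk⟩ := idx_surj K a b haK hbK
    obtain ⟨g1, g2⟩ := hcon L θ hθ k
    rw [hk] at g1 g2
    constructor
    · intro s hs hs2 y x hy hyx hx
      obtain ⟨hy1, hy2⟩ := hlogy y hy
      refine (g1 s hs (hs2.trans hpow) y x hy1 hyx (hx.trans hpow)).trans ?_
      exact Real.rpow_le_rpow_of_exponent_le hy2 (by linarith)
    · intro s hs hs2 y hy
      exact g2 s hs (hs2.trans hpow) y (hlogy y hy).1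
  exact_mod_cast Set.ncard_le_ncard hsub hfin

section simple
variable {M : Type} [Field M] [NumberField M]

/-- the Euler factor without twist -/
noncomputable def fc (a b : 𝓞 M) (s : ℂ) (v : HeightOneSpectrum (𝓞 M)) : ℂ :=
  (1 - ((nm v : ℂ) - pts a b v) * (nm v : ℂ) ^ (-s) + (nm v : ℂ) ^ (1 - 2 * s))⁻¹

lemma fac_fc (a b : 𝓞 M) (s : ℂ) (v : HeightOneSpectrum (𝓞 M)) :
    fac a b (fun _ (_ : Fin 1) => 1) s v = fc a b s v := by
  unfold fac fc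
  rw [Fin.prod_univ_one]
  congr 1
  ring

lemma PP_fc (a b : 𝓞 M) (s : ℂ) (x : ℕ) : PP a b (fun _ (_ : Fin 1) => 1) s x =
    ∏ᶠ v ∈ {v : HeightOneSpectrum (𝓞 M) | GD a b v ∧ nm v ≤ x}, fc a b s v := by
  unfold PP
  simp only [fac_fc]

lemma LL_fc (a b : 𝓞 M) (s : ℂ) : LL a b (fun _ (_ : Fin 1) => 1) s =
    ∏' v : {v : HeightOneSpectrum (𝓞 M) // GD a b v}, fc a b s v := by
  unfold LL
  simp only [fac_fc]

lemma bc_one {F : Type} [Field F] [NumberField F] [Algebra F M] :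
    bc M (fun (_ : Ideal (𝓞 F)) (_ : Fin 1) => (1 : ℂ)) = fun _ _ => 1 := by
  funext w j
  unfold bc
  rw [one_pow]

end simple

end Pool.Agent.Y693.RF
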