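import Pool.Agent.Y693.RF.Gen

/-!
# The primes of residue degree one above a prime and the roots modulo the prime
-/

set_option autoImplicit false

open Finset NumberField IsDedekindDomain Polynomial
open Pool.Agent.H921R2.TatePole (nm two_le_nm below deg nm_eq nm_summable fiber_card_le
  summable_primes_rpow card_above)
open Pool.Agent.Y770.EP (finite_quot card_quot FN mem_FN GG mem_GG FP mem_FP card_FP nm_mem)

namespace Pool.Agent.Y693.RF

section one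
variable {M : Type} [Field M] [NumberField M]

lemma bij_zmod (w : HeightOneSpectrum (𝓞 M)) {p : ℕ} (hp : p.Prime) (hw : nm w = p) :
    ∃ e : ZMod p →+* 𝓞 M ⧸ w.asIdeal, Function.Bijective e := by
  have : w.asIdeal.IsMaximal := w.isMaximal
  have hfin := finite_quot w
  let _ : Fintype (𝓞 M ⧸ w.asIdeal) := Fintype.ofFinite _
  have hcard : Fintype.card (𝓞 M ⧸ w.asIdeal) = p := by
    rw [← hw, ← card_quot, Nat.card_eq_fintype_card]
  let _ : Field (𝓞 M ⧸ w.asIdeal) := Ideal.Quotient.field w.asIdeal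
  have hpf : Fact p.Prime := ⟨hp⟩
  have hzero : ((p : ℕ) : 𝓞 M ⧸ w.asIdeal) = 0 := by rw [← hcard]; exact Nat.cast_card_eq_zero _
  have hcharP : CharP (𝓞 M ⧸ w.asIdeal) p := by
    have h1 := ringChar.dvd hzero
    have h3 := ((Nat.dvd_prime hp).1 h1).resolve_left CharP.ringChar_ne_one
    rw [← h3]
    exact ringChar.charP _
  refine ⟨ZMod.castHom (dvd_refl p) (𝓞 M ⧸ w.asIdeal), ?_⟩
  rw [Fintype.bijective_iff_injective_and_card]
  refine ⟨RingHom.injective _, ?_⟩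
  rw [hcard, ZMod.card]

lemma exists_nat (w : HeightOneSpectrum (𝓞 M)) {p : ℕ} (hp : p.Prime) (hw : nm w = p) (β : 𝓞 M) :
    ∃ j ∈ range p, β - ((j : ℕ) : 𝓞 M) ∈ w.asIdeal := by
  have hpf : Fact p.Prime := ⟨hp⟩
  obtain ⟨e, he⟩ := bij_zmod w hp hw
  obtain ⟨x, hx⟩ := he.2 (Ideal.Quotient.mk w.asIdeal β)
  refine ⟨x.val, mem_range.2 (ZMod.val_lt x), ?_⟩
  rw [← Ideal.Quotient.eq, ← hx, map_natCast]
  have : x = ((x.val : ℕ) : ZMod p) := (ZMod.natCast_zmod_val x).symm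
  nth_rewrite 1 [this]
  rw [map_natCast]

lemma nat_unique (w : HeightOneSpectrum (𝓞 M)) {p : ℕ} (hp : p.Prime) (hw : nm w = p) {i j : ℕ}
    (hi : i ∈ range p) (hj : j ∈ range p) (h : ((i : ℕ) : 𝓞 M) - ((j : ℕ) : 𝓞 M) ∈ w.asIdeal) :
    i = j := by
  have hpf : Fact p.Prime := ⟨hp⟩
  obtain ⟨e, he⟩ := bij_zmod w hp hw
  rw [← Ideal.Quotient.eq, map_natCast, map_natCast, ← map_natCast e, ← map_natCast e] at h
  have h2 := he.1 h
  rw [ZMod.natCast_eq_natCast_iff'] at h2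
  rwa [Nat.mod_eq_of_lt (mem_range.1 hi), Nat.mod_eq_of_lt (mem_range.1 hj)] at h2

end one

variable {F : Type} [Field F] [NumberField F] {L : Type} [Field L] [NumberField L] [Algebra F L]

/-- the prime of `F` below a prime of `L` -/
noncomputable def und (w : HeightOneSpectrum (𝓞 L)) : HeightOneSpectrum (𝓞 F) where
  asIdeal := w.asIdeal.comap (algebraMap (𝓞 F) (𝓞 L))
  isPrime := w.isPrime.comap _
  ne_bot := by
    intro h
    obtain ⟨n, hn⟩ : ∃ n : ℕ, n = nm w := ⟨_, rfl⟩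
    have h1 : ((nm w : ℕ) : 𝓞 F) ∈ w.asIdeal.comap (algebraMap (𝓞 F) (𝓞 L)) := by
      rw [Ideal.mem_comap, map_natCast]
      exact nm_mem w
    rw [h, Ideal.mem_bot] at h1
    have h2 := two_le_nm w
    have h3 : nm w = 0 := by exact_mod_cast h1
    omega

lemma mem_und {w : HeightOneSpectrum (𝓞 L)} {x : 𝓞 F} :
    x ∈ (und w : HeightOneSpectrum (𝓞 F)).asIdeal ↔ algebraMap (𝓞 F) (𝓞 L) x ∈ w.asIdeal := by
  unfold und
  exact Ideal.mem_comap

/-- the map of the residue fields -/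
noncomputable def res (w : HeightOneSpectrum (𝓞 L)) :
    (𝓞 F ⧸ (und w : HeightOneSpectrum (𝓞 F)).asIdeal) →+* 𝓞 L ⧸ w.asIdeal :=
  Ideal.quotientMap w.asIdeal (algebraMap (𝓞 F) (𝓞 L)) le_rfl

lemma res_mk (w : HeightOneSpectrum (𝓞 L)) (x : 𝓞 F) :
    res w (Ideal.Quotient.mk _ x) = Ideal.Quotient.mk w.asIdeal (algebraMap (𝓞 F) (𝓞 L) x) :=
  Ideal.quotientMap_mk ..

lemma res_inj (w : HeightOneSpectrum (𝓞 L)) : Function.Injective (res (F := F) w) := by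
  have : (und w : HeightOneSpectrum (𝓞 F)).asIdeal.IsMaximal := (und w).isMaximal
  let _ : Field (𝓞 F ⧸ (und w : HeightOneSpectrum (𝓞 F)).asIdeal) := Ideal.Quotient.field _
  have : w.asIdeal.IsMaximal := w.isMaximal
  exact RingHom.injective _

lemma nm_und_dvd (w : HeightOneSpectrum (𝓞 L)) : nm (und w : HeightOneSpectrum (𝓞 F)) ∣ nm w := by
  rw [← card_quot, ← card_quot]
  exact AddSubgroup.card_dvd_of_injective (res (F := F) w).toAddMonoidHom (res_inj w)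

lemma nm_und {w : HeightOneSpectrum (𝓞 L)} {p : ℕ} (hp : p.Prime) (hw : nm w = p) :
    nm (und w : HeightOneSpectrum (𝓞 F)) = p := by
  have h1 := nm_und_dvd (F := F) w
  rw [hw] at h1
  refine ((Nat.dvd_prime hp).1 h1).resolve_left ?_
  have := two_le_nm (und w : HeightOneSpectrum (𝓞 F))
  omega

lemma res_bij {w : HeightOneSpectrum (𝓞 L)} {p : ℕ} (hp : p.Prime) (hw : nm w = p) :
    Function.Bijective (res (F := F) w) := by
  have h1 := finite_quot w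
  refine (res_inj w).bijective_of_nat_card_le ?_
  rw [card_quot, card_quot, nm_und hp hw, hw]

lemma eval_sub_mem {f : (𝓞 F)[X]} {θ : 𝓞 L} {w : HeightOneSpectrum (𝓞 L)} {x : 𝓞 F}
    (hx : θ - algebraMap (𝓞 F) (𝓞 L) x ∈ w.asIdeal) :
    aeval θ f - algebraMap (𝓞 F) (𝓞 L) (f.eval x) ∈ w.asIdeal := by
  have h1 : aeval θ f = (f.map (algebraMap (𝓞 F) (𝓞 L))).eval θ := by
    rw [eval_map, aeval_def]
  have h2 : algebraMap (𝓞 F) (𝓞 L) (f.eval x) =
      (f.map (algebraMap (𝓞 F) (𝓞 L))).eval (algebraMap (𝓞 F) (𝓞 L) x) := by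
    rw [eval_map, eval₂_at_apply]
  rw [h1, h2]
  obtain ⟨c, hc⟩ := Polynomial.sub_dvd_eval_sub θ (algebraMap (𝓞 F) (𝓞 L) x)
    (f.map (algebraMap (𝓞 F) (𝓞 L)))
  rw [hc]
  exact w.asIdeal.mul_mem_right _ hx

/-- the prime above given by a root -/
lemma exists_above {f : (𝓞 F)[X]} {θ : 𝓞 L} (h : Gen f θ) (hf : f.Monic) {d : 𝓞 F}
    (hd : ∀ β : 𝓞 L, ∃ P : (𝓞 F)[X], aeval θ P = algebraMap (𝓞 F) (𝓞 L) d * β)
    {v : HeightOneSpectrum (𝓞 F)} {p : ℕ} (hp : p.Prime) (hv : nm v = p) (hdv : d ∉ v.asIdeal)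
    {x : 𝓞 F} (hx : f.eval x ∈ v.asIdeal) :
    ∃ w : HeightOneSpectrum (𝓞 L), nm w = p ∧ und w = v ∧
      θ - algebraMap (𝓞 F) (𝓞 L) x ∈ w.asIdeal := by
  have hvm : v.asIdeal.IsMaximal := v.isMaximal
  let _ : Algebra (𝓞 F)[X] (𝓞 L) := (aeval θ).toRingHom.toAlgebra
  have halg : ∀ P : (𝓞 F)[X], algebraMap (𝓞 F)[X] (𝓞 L) P = aeval θ P := fun P => rfl
  have hint : Algebra.IsIntegral (𝓞 F)[X] (𝓞 L) := by
    refine ⟨fun β => ?_⟩
    obtain ⟨P, hP1, hP2⟩ := Algebra.IsIntegral.isIntegral (R := 𝓞 F) β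
    refine ⟨P.map C, hP1.map _, ?_⟩
    rw [eval₂_map]
    have : (algebraMap (𝓞 F)[X] (𝓞 L)).comp C = algebraMap (𝓞 F) (𝓞 L) := by
      ext y
      rw [RingHom.comp_apply, halg, aeval_C]
    rw [this]
    exact hP2
  -- the prime ideal of the polynomial ring
  set φ : (𝓞 F)[X] →+* 𝓞 F ⧸ v.asIdeal := (Ideal.Quotient.mk v.asIdeal).comp (evalRingHom x) with hφ
  have hφa : ∀ P : (𝓞 F)[X], P ∈ RingHom.ker φ ↔ P.eval x ∈ v.asIdeal := by
    intro P
    rw [RingHom.mem_ker, hφ, RingHom.comp_apply, Ideal.Quotient.eq_zero_iff_mem, coe_evalRingHom]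
  have hprime : (RingHom.ker φ).IsPrime := RingHom.ker_isPrime φ
  have hker : (⊥ : Ideal (𝓞 L)).comap (algebraMap (𝓞 F)[X] (𝓞 L)) ≤ RingHom.ker φ := by
    intro P hP
    rw [Ideal.mem_comap, Ideal.mem_bot, halg] at hP
    have h1 : f ∣ P := by
      rw [← h.minpoly_eq hf]
      exact minpoly.isIntegrallyClosed_dvd (Algebra.IsIntegral.isIntegral θ) hP
    obtain ⟨Q, rfl⟩ := h1
    rw [hφa, eval_mul]
    exact v.asIdeal.mul_mem_right _ hx
  obtain ⟨Q, -, hQ, hQc⟩ := Ideal.exists_ideal_over_prime_of_isIntegral (RingHom.ker φ) ⊥ hker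
  have hmem : ∀ P : (𝓞 F)[X], aeval θ P ∈ Q ↔ P.eval x ∈ v.asIdeal := by
    intro P
    rw [← hφa, ← hQc, Ideal.mem_comap, halg]
  have hmemC : ∀ y : 𝓞 F, algebraMap (𝓞 F) (𝓞 L) y ∈ Q ↔ y ∈ v.asIdeal := by
    intro y
    have := hmem (C y)
    rwa [aeval_C, eval_C] at this
  have hQ0 : Q ≠ ⊥ := by
    intro h0
    have h1 : ((nm v : ℕ) : 𝓞 F) ∈ v.asIdeal := nm_mem v
    rw [← hmemC, h0, Ideal.mem_bot, map_natCast, Nat.cast_eq_zero] at h1
    have := two_le_nm v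
    omega
  refine ⟨⟨Q, hQ, hQ0⟩, ?_, ?_, ?_⟩
  · -- the residue field
    set w : HeightOneSpectrum (𝓞 L) := ⟨Q, hQ, hQ0⟩ with hw
    have hwv : (und w : HeightOneSpectrum (𝓞 F)) = v := by
      apply HeightOneSpectrum.ext
      ext y
      rw [mem_und]
      exact hmemC y
    obtain ⟨e, he⟩ : ∃ e : 𝓞 F, e * d - 1 ∈ v.asIdeal := by
      have h1 : Ideal.Quotient.mk v.asIdeal d ≠ 0 := by
        rwa [Ne, Ideal.Quotient.eq_zero_iff_mem]
      let _ : Field (𝓞 F ⧸ v.asIdeal) := Ideal.Quotient.field v.asIdeal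
      obtain ⟨e, he⟩ := Ideal.Quotient.mk_surjective ((Ideal.Quotient.mk v.asIdeal d)⁻¹)
      refine ⟨e, ?_⟩
      rw [← Ideal.Quotient.eq_zero_iff_mem, map_sub, map_mul, map_one, he, inv_mul_cancel₀ h1,
        sub_self]
    have hsurj : Function.Surjective (res (F := F) w) := by
      intro z
      obtain ⟨β, rfl⟩ := Ideal.Quotient.mk_surjective z
      obtain ⟨P, hP⟩ := hd β
      refine ⟨Ideal.Quotient.mk _ (e * P.eval x), ?_⟩
      rw [res_mk, Ideal.Quotient.eq]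
      have h1 : aeval θ P - algebraMap (𝓞 F) (𝓞 L) (P.eval x) ∈ Q := by
        have := (hmem (P - C (P.eval x))).2 (by simp)
        rwa [map_sub, aeval_C] at this
      have h2 : algebraMap (𝓞 F) (𝓞 L) (e * d - 1) ∈ Q := (hmemC _).2 he
      have h3 : algebraMap (𝓞 F) (𝓞 L) (e * P.eval x) - β =
          algebraMap (𝓞 F) (𝓞 L) (e * d - 1) * β -
            algebraMap (𝓞 F) (𝓞 L) e * (aeval θ P - algebraMap (𝓞 F) (𝓞 L) (P.eval x)) := by
        rw [hP]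
        simp only [map_sub, map_mul, map_one]
        ring
      show algebraMap (𝓞 F) (𝓞 L) (e * P.eval x) - β ∈ Q
      rw [h3]
      exact Q.sub_mem (Q.mul_mem_right _ h2) (Q.mul_mem_left _ h1)
    have hbij : Function.Bijective (res (F := F) w) := ⟨res_inj w, hsurj⟩
    rw [← card_quot, ← Nat.card_congr (Equiv.ofBijective _ hbij), card_quot, hwv, hv]
  · apply HeightOneSpectrum.ext
    ext y
    rw [mem_und]
    exact hmemC y
  · have h1 := (hmem (X - C x)).2 (by simp)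
    rwa [map_sub, aeval_X, aeval_C] at h1

/-- different primes above `v` give different roots -/
lemma above_unique {θ : 𝓞 L} {d : 𝓞 F}
    (hd : ∀ β : 𝓞 L, ∃ P : (𝓞 F)[X], aeval θ P = algebraMap (𝓞 F) (𝓞 L) d * β)
    {w w' : HeightOneSpectrum (𝓞 L)} (hww : (und w : HeightOneSpectrum (𝓞 F)) = und w')
    (hdw : d ∉ (und w' : HeightOneSpectrum (𝓞 F)).asIdeal) {x : 𝓞 F}
    (hx : θ - algebraMap (𝓞 F) (𝓞 L) x ∈ w.asIdeal)
    (hx' : θ - algebraMap (𝓞 F) (𝓞 L) x ∈ w'.asIdeal) : w = w' := by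
  have h1 : w.asIdeal ≤ w'.asIdeal := by
    intro β hβ
    obtain ⟨P, hP⟩ := hd β
    have h2 : aeval θ P ∈ w.asIdeal := by
      rw [hP]; exact w.asIdeal.mul_mem_left _ hβ
    have h3 := eval_sub_mem (f := P) hx
    have h4 : algebraMap (𝓞 F) (𝓞 L) (P.eval x) ∈ w.asIdeal := by
      have := w.asIdeal.sub_mem h2 h3
      rwa [sub_sub_cancel] at this
    rw [← mem_und, hww, mem_und] at h4
    have h5 := eval_sub_mem (f := P) hx'
    have h6 : aeval θ P ∈ w'.asIdeal := by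
      have := w'.asIdeal.add_mem h5 h4
      rwa [sub_add_cancel] at this
    rw [hP] at h6
    exact (w'.isPrime.mem_or_mem h6).resolve_left (fun h7 => hdw (mem_und.2 h7))
  apply HeightOneSpectrum.ext
  exact w.isMaximal.eq_of_le w'.isPrime.ne_top h1

open Classical in
/-- **The sum over the primes of residue degree one above `v` as a sum over the roots.** -/
theorem fiber_sum {f : (𝓞 F)[X]} {θ : 𝓞 L} (h : Gen f θ) (hf : f.Monic) {d : 𝓞 F}
    (hd : ∀ β : 𝓞 L, ∃ P : (𝓞 F)[X], aeval θ P = algebraMap (𝓞 F) (𝓞 L) d * β)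
    {v : HeightOneSpectrum (𝓞 F)} {p : ℕ} (hp : p.Prime) (hv : nm v = p) (hdv : d ∉ v.asIdeal)
    (τ : HeightOneSpectrum (𝓞 L) → ℂ) (T : ℕ → ℂ)
    (hτ : ∀ w : HeightOneSpectrum (𝓞 L), nm w = p → und w = v → ∀ j ∈ range p,
      θ - ((j : ℕ) : 𝓞 L) ∈ w.asIdeal → τ w = T j) :
    ∑ w ∈ (FP L p).filter (fun w => und w = v), τ w =
      ∑ j ∈ (range p).filter (fun j : ℕ => f.eval ((j : ℕ) : 𝓞 F) ∈ v.asIdeal), T j := by
  classical
  have hJ : ∀ w : HeightOneSpectrum (𝓞 L), ∃ j : ℕ, nm w = p → (j ∈ range p ∧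
      θ - ((j : ℕ) : 𝓞 L) ∈ w.asIdeal) := by
    intro w
    by_cases hw : nm w = p
    · obtain ⟨j, h1, h2⟩ := exists_nat w hp hw θ
      exact ⟨j, fun _ => ⟨h1, h2⟩⟩
    · exact ⟨0, fun h => absurd h hw⟩
  choose J hJ using hJ
  have hcast : ∀ j : ℕ, algebraMap (𝓞 F) (𝓞 L) ((j : ℕ) : 𝓞 F) = ((j : ℕ) : 𝓞 L) := fun j =>
    map_natCast _ j
  refine Finset.sum_bij (fun w _ => J w) ?_ ?_ ?_ ?_
  · intro w hw
    rw [mem_filter, mem_FP] at hw
    obtain ⟨h1, h2⟩ := hJ w hw.1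
    rw [mem_filter]
    refine ⟨h1, ?_⟩
    have h3 := eval_sub_mem (f := f) (x := ((J w : ℕ) : 𝓞 F)) (by rw [hcast]; exact h2)
    rw [h.root, zero_sub] at h3
    have h4 := w.asIdeal.neg_mem_iff.1 h3
    rw [← mem_und, hw.2] at h4
    exact h4
  · intro w hw w' hw' hww
    rw [mem_filter, mem_FP] at hw hw'
    obtain ⟨h1, h2⟩ := hJ w hw.1
    obtain ⟨h1', h2'⟩ := hJ w' hw'.1
    refine above_unique (F := F) hd (hw.2.trans hw'.2.symm) (by rw [hw'.2]; exact hdv)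
      (x := ((J w : ℕ) : 𝓞 F)) (by rw [hcast]; exact h2) ?_
    have h3 : J w = J w' := hww
    rw [hcast, h3]
    exact h2'
  · intro j hj
    rw [mem_filter] at hj
    obtain ⟨w, hw1, hw2, hw3⟩ := exists_above h hf hd hp hv hdv hj.2
    rw [hcast] at hw3
    refine ⟨w, by rw [mem_filter, mem_FP]; exact ⟨hw1, hw2⟩, ?_⟩
    obtain ⟨h1, h2⟩ := hJ w hw1
    refine nat_unique w hp hw1 h1 hj.1 ?_
    have := w.asIdeal.sub_mem hw3 h2
    rwa [sub_sub_sub_cancel_left] at this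
  · intro w hw
    rw [mem_filter, mem_FP] at hw
    obtain ⟨h1, h2⟩ := hJ w hw.1
    exact hτ w hw.1 hw.2 (J w) h1 h2

end Pool.Agent.Y693.RF
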